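import Pool.Agent.H822.RG.Defs

/-!
# Rigidity of germs at infinity

`Γ` a group, `S` a finite set of generators, one end.  `ρ`, `ρ'` actions of `Γ` on sets `X`, `M`
and `j : X → M` a map which commutes with the elements of `S` near infinity of `X`.
If `ρ` is proper then `j` agrees near infinity with a unique equivariant map.
-/

open Filter Set

namespace Pool.Agent.H822.RG

section Core

variable {Γ : Type*} [Group Γ] {X M : Type*}

/-- the value at `x` seen from `γ` -/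
def val (ρ : Γ →* Equiv.Perm X) (ρ' : Γ →* Equiv.Perm M) (j : X → M) (x : X) (γ : Γ) : M :=
  (ρ' γ)⁻¹ (j (ρ γ x))

variable {S : Set Γ} (ρ : Γ →* Equiv.Perm X) (ρ' : Γ →* Equiv.Perm M) (j : X → M)

theorem step_val {A : Set X} (hA : ∀ s ∈ S, ∀ y ∈ A, j (ρ s y) = ρ' s (j y)) {N : Set X}
    {F : Set Γ} (hF : ∀ γ, ∀ x ∈ N, ρ γ x ∉ A → γ ∈ F) {a b : Γ}
    (h : Relation.ReflTransGen (Step S F) a b) : ∀ x ∈ N, val ρ ρ' j x a = val ρ ρ' j x b := by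
  have key : ∀ a b : Γ, ∀ s ∈ S, a ∉ F → b = s * a → ∀ x ∈ N,
      val ρ ρ' j x a = val ρ ρ' j x b := by
    intro a b s hs ha hb x hx
    have hxa : ρ a x ∈ A := by
      by_contra hcon
      exact ha (hF a x hx hcon)
    unfold val
    subst hb
    rw [map_mul, map_mul, Equiv.Perm.mul_apply, hA s hs _ hxa, mul_inv_rev,
      Equiv.Perm.mul_apply, Equiv.Perm.inv_def, Equiv.Perm.inv_def, Equiv.symm_apply_apply]
  induction h with
  | refl => intro x _; rfl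
  | tail h1 h2 ih =>
    intro x hx
    rw [ih x hx]
    obtain ⟨ha, hb, s, hs, h | h⟩ := h2
    · exact key _ _ s hs ha h x hx
    · exact (key _ _ s hs hb h x hx).symm

/-- multiplication on the right with `c` -/
theorem step_right {F : Set Γ} (c : Γ) {a b : Γ} (h : Relation.ReflTransGen (Step S F) a b) :
    Relation.ReflTransGen (Step S ((fun γ => γ * c) '' F)) (a * c) (b * c) := by
  induction h with
  | refl => exact Relation.ReflTransGen.refl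
  | tail h1 h2 ih =>
    refine ih.tail ?_
    obtain ⟨ha, hb, s, hs, h⟩ := h2
    have hnot : ∀ d : Γ, d ∉ F → d * c ∉ (fun γ => γ * c) '' F := by
      rintro d hd ⟨e, he, h⟩
      exact hd (mul_right_cancel h ▸ he)
    refine ⟨hnot _ ha, hnot _ hb, s, hs, ?_⟩
    rcases h with h | h
    · left; rw [h, mul_assoc]
    · right; rw [h, mul_assoc]

/-- the action is proper, with respect to the filter of neighbourhoods of infinity -/
def ProperAt (ρ : Γ →* Equiv.Perm X) (L : Filter X) : Prop :=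
  ∀ A ∈ L, {η | ∃ x, x ∉ A ∧ ρ η x ∉ A}.Finite

variable {L : Filter X}

theorem good_set (hS : S.Finite) (hj : ∀ s ∈ S, ∀ᶠ x in L, j (ρ s x) = ρ' s (j x)) :
    ∃ A ∈ L, ∀ s ∈ S, ∀ y ∈ A, j (ρ s y) = ρ' s (j y) := by
  have h := (Filter.eventually_all_finite hS).2 hj
  exact ⟨_, h, fun s hs y hy => hy s hs⟩

/-- near a bounded set one element of the group computes the value -/
theorem local_val (hΓ : OneEnded Γ S) (hρ : ProperAt ρ L)
    (hj : ∀ s ∈ S, ∀ᶠ x in L, j (ρ s x) = ρ' s (j x)) {N : Set X} (hN : Nᶜ ∈ L) :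
    ∃ F' : Set Γ, F'.Finite ∧ ∀ a b, a ∉ F' → b ∉ F' →
      ∀ x ∈ N, val ρ ρ' j x a = val ρ ρ' j x b := by
  obtain ⟨A, hAL, hA⟩ := good_set ρ ρ' j hΓ.fin hj
  have hf := hρ (A ∩ Nᶜ) (inter_mem hAL hN)
  obtain ⟨F', hF', hc⟩ := hΓ.conn _ hf
  refine ⟨F', hF', fun a b ha hb => step_val ρ ρ' j hA ?_ (hc a b ha hb)⟩
  intro γ x hx hγ
  exact ⟨x, fun h => h.2 hx, fun h => hγ h.1⟩

theorem exists_val (hΓ : OneEnded Γ S) (hρ : ProperAt ρ L)
    (hj : ∀ s ∈ S, ∀ᶠ x in L, j (ρ s x) = ρ' s (j x)) (hpt : ∀ x : X, ({x} : Set X)ᶜ ∈ L) (x : X) :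
    ∃ v, ∀ᶠ γ in cofinite, val ρ ρ' j x γ = v := by
  obtain ⟨F', hF', h⟩ := local_val ρ ρ' j hΓ hρ hj (N := {x}) (hpt x)
  have := hΓ.inf
  obtain ⟨a, ha⟩ := hF'.exists_notMem
  refine ⟨val ρ ρ' j x a, ?_⟩
  have : ∀ᶠ γ : Γ in cofinite, γ ∉ F' := hF'.eventually_cofinite_notMem
  exact this.mono fun γ hγ => h γ a hγ ha x rfl

open Classical in
/-- the extension of the germ -/
noncomputable def ext [Nonempty M] : X → M := fun x =>
  if h : ∃ v, ∀ᶠ γ in cofinite, val ρ ρ' j x γ = v then h.choose else Classical.arbitrary M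

theorem ext_spec [Nonempty M] (hΓ : OneEnded Γ S) (hρ : ProperAt ρ L)
    (hj : ∀ s ∈ S, ∀ᶠ x in L, j (ρ s x) = ρ' s (j x)) (hpt : ∀ x : X, ({x} : Set X)ᶜ ∈ L) (x : X) :
    ∀ᶠ γ in cofinite, val ρ ρ' j x γ = ext ρ ρ' j x := by
  have h := exists_val ρ ρ' j hΓ hρ hj hpt x
  unfold ext
  rw [dif_pos h]
  exact h.choose_spec

theorem ext_eq [Nonempty M] (hΓ : OneEnded Γ S) (hρ : ProperAt ρ L)
    (hj : ∀ s ∈ S, ∀ᶠ x in L, j (ρ s x) = ρ' s (j x)) (hpt : ∀ x : X, ({x} : Set X)ᶜ ∈ L) (x : X)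
    {v : M} (h : ∀ᶠ γ in cofinite, val ρ ρ' j x γ = v) : ext ρ ρ' j x = v := by
  have := hΓ.inf
  obtain ⟨γ, h1, h2⟩ := ((ext_spec ρ ρ' j hΓ hρ hj hpt x).and h).exists
  rw [← h1, h2]

/-- the extension is equivariant -/
theorem ext_equivariant [Nonempty M] (hΓ : OneEnded Γ S) (hρ : ProperAt ρ L)
    (hj : ∀ s ∈ S, ∀ᶠ x in L, j (ρ s x) = ρ' s (j x)) (hpt : ∀ x : X, ({x} : Set X)ᶜ ∈ L)
    (g : Γ) (x : X) : ext ρ ρ' j (ρ g x) = ρ' g (ext ρ ρ' j x) := by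
  apply ext_eq ρ ρ' j hΓ hρ hj hpt
  have h := ext_spec ρ ρ' j hΓ hρ hj hpt x
  have ht : Tendsto (fun γ : Γ => γ * g) cofinite cofinite :=
    (mul_left_injective g).tendsto_cofinite
  refine (ht.eventually h).mono fun γ hγ => ?_
  rw [← hγ]
  unfold val
  rw [map_mul, map_mul, mul_inv_rev, Equiv.Perm.mul_apply, Equiv.Perm.mul_apply,
    Equiv.Perm.inv_def, Equiv.Perm.inv_def, Equiv.apply_symm_apply]

/-- the extension agrees with the germ near infinity -/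
theorem ext_near [Nonempty M] (hΓ : OneEnded Γ S) (hρ : ProperAt ρ L)
    (hinv : ∀ γ, Tendsto (ρ γ) L L)
    (hj : ∀ s ∈ S, ∀ᶠ x in L, j (ρ s x) = ρ' s (j x)) (hpt : ∀ x : X, ({x} : Set X)ᶜ ∈ L) :
    ∀ᶠ x in L, ext ρ ρ' j x = j x := by
  obtain ⟨A, hAL, hA⟩ := good_set ρ ρ' j hΓ.fin hj
  obtain ⟨F', hF', hc⟩ := hΓ.conn _ (hρ A hAL)
  have := hΓ.inf
  have h1 : ∀ᶠ x in L, ∀ δ ∈ (fun γ : Γ => γ⁻¹) '' F', ρ δ x ∈ A := by
    refine (Filter.eventually_all_finite (hF'.image _)).2 fun δ _ => ?_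
    exact hinv δ hAL
  refine h1.mono fun x hx => ?_
  -- a suitable base point
  have h2 : ∃ δ : Γ, δ⁻¹ ∉ F' ∧ ∀ γ, ρ γ x ∉ A →
      γ ∈ (fun γ => γ * δ) '' {η | ∃ x, x ∉ A ∧ ρ η x ∉ A} := by
    by_cases h : ∃ δ, ρ δ x ∉ A
    · obtain ⟨δ, hδ⟩ := h
      refine ⟨δ, fun hcon => hδ (hx δ ⟨δ⁻¹, hcon, inv_inv δ⟩), fun γ hγ => ?_⟩
      refine ⟨γ * δ⁻¹, ⟨ρ δ x, hδ, ?_⟩, by simp⟩
      rw [← Equiv.Perm.mul_apply, ← map_mul, inv_mul_cancel_right]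
      exact hγ
    · push Not at h
      obtain ⟨δ, hδ⟩ := hF'.exists_notMem
      exact ⟨δ⁻¹, by rwa [inv_inv], fun γ hγ => absurd (h γ) hγ⟩
  obtain ⟨δ, hδ, hδ2⟩ := h2
  apply ext_eq ρ ρ' j hΓ hρ hj hpt
  have h3 : ∀ᶠ γ : Γ in cofinite, γ * δ⁻¹ ∉ F' := by
    have ht : Tendsto (fun γ : Γ => γ * δ⁻¹) cofinite cofinite :=
      (mul_left_injective δ⁻¹).tendsto_cofinite
    exact ht.eventually hF'.eventually_cofinite_notMem
  refine h3.mono fun γ hγ => ?_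
  have h4 := step_right δ (hc (γ * δ⁻¹) δ⁻¹ hγ hδ)
  rw [inv_mul_cancel_right, inv_mul_cancel] at h4
  have h5 := step_val ρ ρ' j hA (N := {x}) (F := (fun γ => γ * δ) '' {η | ∃ x, x ∉ A ∧ ρ η x ∉ A})
    (fun γ y hy hγ => by
      rw [mem_singleton_iff] at hy
      subst hy
      exact hδ2 γ hγ) h4 x rfl
  rw [h5]
  unfold val
  simp

/-- on a bounded set the extension is given by one element of the group, which moves the set
near infinity -/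
theorem ext_local [Nonempty M] (hΓ : OneEnded Γ S) (hρ : ProperAt ρ L)
    (hj : ∀ s ∈ S, ∀ᶠ x in L, j (ρ s x) = ρ' s (j x)) (hpt : ∀ x : X, ({x} : Set X)ᶜ ∈ L)
    {N B : Set X} (hN : Nᶜ ∈ L) (hB : B ∈ L) :
    ∃ γ : Γ, (∀ x ∈ N, ρ γ x ∈ B) ∧ ∀ x ∈ N, ext ρ ρ' j x = (ρ' γ)⁻¹ (j (ρ γ x)) := by
  have := hΓ.inf
  obtain ⟨F', hF', h⟩ := local_val ρ ρ' j hΓ hρ hj (N := N) hN
  have h1 := (hρ (B ∩ Nᶜ) (inter_mem hB hN)).eventually_cofinite_notMem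
  have h2 := hF'.eventually_cofinite_notMem
  obtain ⟨γ, hγ1, hγ2⟩ := (h1.and h2).exists
  refine ⟨γ, fun x hx => ?_, fun x hx => ?_⟩
  · by_contra hcon
    exact hγ1 ⟨x, fun h => h.2 hx, fun h => hcon h.1⟩
  · apply ext_eq ρ ρ' j hΓ hρ hj hpt
    exact h2.mono fun b hb => h b γ hb hγ2 x hx

/-- uniqueness -/
theorem unique_ext (hΓ : OneEnded Γ S) (hρ : ProperAt ρ L) (hpt : ∀ x : X, ({x} : Set X)ᶜ ∈ L)
    {J J' : X → M} (h : ∀ g x, J (ρ g x) = ρ' g (J x)) (h' : ∀ g x, J' (ρ g x) = ρ' g (J' x))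
    (he : ∀ᶠ x in L, J x = J' x) : J = J' := by
  funext x
  have := hΓ.inf
  have h1 := (hρ _ (inter_mem he (hpt x))).eventually_cofinite_notMem
  obtain ⟨γ, hγ⟩ := h1.exists
  have h2 : J (ρ γ x) = J' (ρ γ x) := by
    by_contra hcon
    exact hγ ⟨x, fun h => h.2 rfl, fun h => hcon h.1⟩
  rw [h, h'] at h2
  exact (ρ' γ).injective h2

end Core

end Pool.Agent.H822.RG
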