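import Mathlib

/-!
# Ends of smooth manifolds which are standard near infinity, and groups acting near infinity
-/

open Filter Set Topology Manifold
open scoped ContDiff

namespace Pool.Agent.H822.RG

section groups

/-- a step in the Cayley graph of `Γ`, between elements outside of `F` -/
def Step {Γ : Type*} [Group Γ] (S F : Set Γ) (a b : Γ) : Prop :=
  a ∉ F ∧ b ∉ F ∧ ∃ s ∈ S, b = s * a ∨ a = s * b

/-- `S` is a finite set of generators of the infinite group `Γ`, which has one end: for each
finite set `F`, any two elements outside of a larger finite set can be joined in the Cayley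
graph outside of `F` -/
structure OneEnded (Γ : Type*) [Group Γ] (S : Set Γ) : Prop where
  inf : Infinite Γ
  fin : S.Finite
  gen : Subgroup.closure S = ⊤
  conn : ∀ F : Set Γ, F.Finite → ∃ F' : Set Γ, F'.Finite ∧
    ∀ a b, a ∉ F' → b ∉ F' → Relation.ReflTransGen (Step S F) a b

/-- a proper action of a discrete group: only finitely many elements move a given compact set to
a set which meets it -/
def ProperAct {Y : Type*} [TopologicalSpace Y] {Γ : Type*} [Group Γ]
    (ρ : Γ →* Equiv.Perm Y) : Prop :=
  ∀ K : Set Y, IsCompact K → {γ | ∃ y ∈ K, ρ γ y ∈ K}.Finite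

/-- near infinity of `X` the map `j` commutes with the generators -/
def CommutesNear {X Y : Type*} [TopologicalSpace X] {Γ : Type*} [Group Γ] (S : Set Γ)
    (ρ : Γ →* Equiv.Perm X) (ρ' : Γ →* Equiv.Perm Y) (j : X → Y) : Prop :=
  ∀ s ∈ S, ∀ᶠ x in cocompact X, j (ρ s x) = ρ' s (j x)

end groups

section manifolds

variable {F : Type*} [NormedAddCommGroup F] [NormedSpace ℝ F] {H : Type*}
    [TopologicalSpace H] (I : ModelWithCorners ℝ F H)
  {F' : Type*} [NormedAddCommGroup F'] [NormedSpace ℝ F'] {H' : Type*}
    [TopologicalSpace H'] (I' : ModelWithCorners ℝ F' H')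
  {X : Type*} [TopologicalSpace X] [ChartedSpace H X]
  {M : Type*} [TopologicalSpace M] [ChartedSpace H' M]

/-- an action by smooth maps -/
def SmoothAct {Γ : Type*} [Group Γ] (ρ : Γ →* Equiv.Perm X) : Prop :=
  ∀ γ, ContMDiff I I ∞ (ρ γ)

/-- `j : X → M` is, near infinity of `X`, an injective local diffeomorphism, and it is proper. No
condition is put on `j` on compact sets. -/
structure DiffeoNear (j : X → M) : Prop where
  localDiffeo : ∀ᶠ x in cocompact X, IsLocalDiffeomorphAt I I' ∞ j x
  inj : ∃ A ∈ cocompact X, InjOn j A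
  proper : Tendsto j (cocompact X) (cocompact M)

end manifolds

section euclidean

variable {E : Type*} [NormedAddCommGroup E] [NormedSpace ℝ E]
  {M : Type*} [TopologicalSpace M] [ChartedSpace E M]

/-- `j : E → M` identifies a neighbourhood of infinity of the vector space `E` with an end of the
manifold `M` -/
def StandardEnd (j : E → M) : Prop := DiffeoNear 𝓘(ℝ, E) 𝓘(ℝ, E) j

/-- there is a diffeomorphism of `E` onto `M` which agrees with `j` near infinity -/
def StandardRel (j : E → M) : Prop :=
  ∃ Φ : E ≃ₘ^∞⟮𝓘(ℝ, E), 𝓘(ℝ, E)⟯ M, ∀ᶠ z in cocompact E, Φ z = j z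

/-- near infinity the self-diffeomorphism `f` of `M` is the translation with `u` -/
def TranslationNear (j : E → M) (u : E) (f : M ≃ₘ^∞⟮𝓘(ℝ, E), 𝓘(ℝ, E)⟯ M) : Prop :=
  ∀ᶠ z in cocompact E, f (j z) = j (z + u)

/-- `M` has two commuting self-diffeomorphisms which are near infinity the translations with `u`
and with `v` -/
def CommutingPair (j : E → M) (u v : E) : Prop :=
  ∃ f g : M ≃ₘ^∞⟮𝓘(ℝ, E), 𝓘(ℝ, E)⟯ M, TranslationNear j u f ∧ TranslationNear j v g ∧
    ∀ x, f (g x) = g (f x)

end euclidean

end Pool.Agent.H822.RG
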