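import Pool.Agent.H822.RG.Theta
import Pool.Agent.H822.SM.Par2

/-!
# A diffeomorphism which is a translation near infinity and preserves lines or planes
-/

open Filter Set Topology Manifold
open scoped ContDiff

namespace Pool.Agent.H822.RG

section Fib

variable {E : Type} [NormedAddCommGroup E] [NormedSpace ℝ E] [FiniteDimensional ℝ E]

/-- the kernel -/
abbrev HH (l : E →L[ℝ] ℝ) : Submodule ℝ E := LinearMap.ker (l : E →ₗ[ℝ] ℝ)

/-- the projection to the kernel along `u` -/
noncomputable def pr (l : E →L[ℝ] ℝ) (u : E) (hu : l u = 1) : E →L[ℝ] HH l :=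
  (pq l u).codRestrict (HH l) (by
    intro x
    rw [LinearMap.mem_ker]
    change l (pq l u x) = 0
    rw [pq_apply, map_sub, map_smul, hu, smul_eq_mul, mul_one, sub_self])

variable {l : E →L[ℝ] ℝ} {u : E} (hu : l u = 1)

omit [FiniteDimensional ℝ E] in
theorem pr_coe (x : E) : (pr l u hu x : E) = x - l x • u := rfl

omit [FiniteDimensional ℝ E] in
theorem l_HH (x : HH l) : l (x : E) = 0 := x.2

omit [FiniteDimensional ℝ E] in
theorem split_sum (x : E) : l x • u + (pr l u hu x : E) = x := by
  rw [pr_coe]; abel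

omit [FiniteDimensional ℝ E] in
theorem pr_sum (s : ℝ) (x : HH l) : pr l u hu (s • u + (x : E)) = x := by
  apply Subtype.ext
  rw [pr_coe, map_add, map_smul, hu, l_HH, smul_eq_mul, mul_one, add_zero]
  abel

include hu in
omit [FiniteDimensional ℝ E] in
theorem l_sum (s : ℝ) (x : HH l) : l (s • u + (x : E)) = s := by
  rw [map_add, map_smul, hu, l_HH, smul_eq_mul, mul_one, add_zero]

omit [FiniteDimensional ℝ E] in
/-- fibred maps -/
theorem fibre {a : ℝ × HH l → HH l} {z : E} (ha : ContDiffAt ℝ ∞ a (l z, pr l u hu z))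
    (hi : ∀ v, fderiv ℝ (fun x => a (l z, x)) (pr l u hu z) v = 0 → v = 0) :
    ContDiffAt ℝ ∞ (fun y : E => l y • u + (a (l y, pr l u hu y) : E)) z ∧
    ∀ v, fderiv ℝ (fun y : E => l y • u + (a (l y, pr l u hu y) : E)) z v = 0 → v = 0 := by
  have hlin : ContDiff ℝ ∞ fun y : E => ((l y, pr l u hu y) : ℝ × HH l) :=
    l.contDiff.prodMk (pr l u hu).contDiff
  have hcomp : ContDiffAt ℝ ∞ (fun y : E => a (l y, pr l u hu y)) z :=
    ContDiffAt.comp z ha hlin.contDiffAt
  refine ⟨(l.contDiff.contDiffAt.smul contDiffAt_const).add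
    ((HH l).subtypeL.contDiff.contDiffAt.comp z hcomp), fun v hv => ?_⟩
  have hda : HasFDerivAt a (fderiv ℝ a (l z, pr l u hu z)) (l z, pr l u hu z) :=
    (ha.differentiableAt (by simp)).hasFDerivAt
  have h1 : HasFDerivAt (fun y : E => a (l y, pr l u hu y))
      ((fderiv ℝ a (l z, pr l u hu z)).comp (l.prod (pr l u hu))) z :=
    hda.comp z (l.hasFDerivAt.prodMk (pr l u hu).hasFDerivAt)
  have h2 : HasFDerivAt (fun y : E => l y • u + (a (l y, pr l u hu y) : E))
      (l.smulRight u + (HH l).subtypeL.comp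
        ((fderiv ℝ a (l z, pr l u hu z)).comp (l.prod (pr l u hu)))) z :=
    (l.hasFDerivAt.smul_const u).add ((HH l).subtypeL.hasFDerivAt.comp z h1)
  rw [h2.fderiv] at hv
  have hv' : l v • u + ((fderiv ℝ a (l z, pr l u hu z) (l v, pr l u hu v) : HH l) : E) = 0 := hv
  have h3 : l v = 0 := by
    have := congrArg l hv'
    rwa [l_sum hu, map_zero] at this
  rw [h3, zero_smul, zero_add] at hv'
  have h4 : fderiv ℝ a (l z, pr l u hu z) (0, pr l u hu v) = 0 := Subtype.ext hv'
  have h5 : HasFDerivAt (fun x => a (l z, x))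
      ((fderiv ℝ a (l z, pr l u hu z)).comp (ContinuousLinearMap.inr ℝ ℝ (HH l)))
      (pr l u hu z) := hda.comp _ (hasFDerivAt_prodMk_right (l z) (pr l u hu z))
  have h6 : pr l u hu v = 0 := by
    apply hi
    rw [h5.fderiv]
    exact h4
  have h7 := split_sum hu v
  rw [h3, h6, zero_smul, zero_add] at h7
  exact h7.symm

end Fib

section Glue

variable {E : Type} [NormedAddCommGroup E] [NormedSpace ℝ E] [FiniteDimensional ℝ E]
  {M : Type*} [TopologicalSpace M] [T2Space M] [ChartedSpace E M]
  {j : E → M} {f : M ≃ₘ^∞⟮𝓘(ℝ, E), 𝓘(ℝ, E)⟯ M} {u : E} {V : Submodule ℝ E}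
  {R : ℝ} {l : E →L[ℝ] ℝ}

namespace LeafData

/-- the slices of `θ` -/
theorem slice_inj (h : LeafData j f u V R l) {s : ℝ}
    (hsc : ‖l‖ * R < s) (x v : HH l)
    (hv : fderiv ℝ (fun x : HH l => pr l u h.split.hu (theta j f R u (s • u + (x : E)))) x v = 0) :
    v = 0 := by
  set z : E := s • u + (x : E) with hz
  have hlz : l z = s := l_sum h.split.hu s x
  have hzc : ‖l‖ * R < l z := by rwa [hlz]
  have hld := h.theta_ld hzc
  have hd : HasFDerivAt (theta j f R u) (fderiv ℝ (theta j f R u) z) z :=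
    (hld.mdifferentiableAt (by simp)).differentiableAt.hasFDerivAt
  have h1 : HasFDerivAt (fun x : HH l => s • u + (x : E)) (HH l).subtypeL x :=
    (HH l).subtypeL.hasFDerivAt.const_add (s • u)
  have h2 : HasFDerivAt (fun x : HH l => pr l u h.split.hu (theta j f R u (s • u + (x : E))))
      ((pr l u h.split.hu).comp ((fderiv ℝ (theta j f R u) z).comp (HH l).subtypeL)) x :=
    (pr l u h.split.hu).hasFDerivAt.comp x (HasFDerivAt.comp (g := theta j f R u)
      (f := fun x : HH l => s • u + (x : E)) x hd h1)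
  rw [h2.fderiv] at hv
  have h3 : fderiv ℝ (theta j f R u) z v - l (fderiv ℝ (theta j f R u) z v) • u = 0 :=
    congrArg Subtype.val hv
  have h4 : l (fderiv ℝ (theta j f R u) z v) = 0 := by
    have h5 : (fun y => l (theta j f R u y)) =ᶠ[𝓝 z] fun y => l y := by
      have : {y : E | ‖l‖ * R < l y} ∈ 𝓝 z :=
        (isOpen_lt continuous_const l.continuous).mem_nhds hzc
      exact mem_of_superset this fun y hy => (h.theta_spec hy).2.2.2
    have h6 : HasFDerivAt (fun y => l (theta j f R u y)) (l.comp (fderiv ℝ (theta j f R u) z)) z :=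
      l.hasFDerivAt.comp z hd
    have h7 := h6.unique (l.hasFDerivAt.congr_of_eventuallyEq h5)
    have h8 := congrArg (fun T : E →L[ℝ] ℝ => T (v : E)) h7
    exact h8.trans (l_HH v)
  rw [h4, zero_smul, sub_zero] at h3
  exact Subtype.ext (fderiv_inj_of_localDiffeo hld h3)

/-- the parameter is frozen -/
noncomputable def kap (c s : ℝ) : ℝ := s + (c + 4 - s) * Real.smoothTransition (s - (c + 2))

theorem kap_smooth (c : ℝ) : ContDiff ℝ ∞ (kap c) := by
  unfold kap
  exact contDiff_id.add ((contDiff_const.sub contDiff_id).mul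
    (Real.smoothTransition.contDiff.comp (contDiff_id.sub contDiff_const)))

theorem kap_low {c s : ℝ} (h : s ≤ c + 2) : kap c s = s := by
  unfold kap
  rw [Real.smoothTransition.zero_of_nonpos (by linarith), mul_zero, add_zero]

theorem kap_high {c s : ℝ} (h : c + 3 ≤ s) : kap c s = c + 4 := by
  unfold kap
  rw [Real.smoothTransition.one_of_one_le (by linarith), mul_one]
  ring

theorem kap_gt {c s : ℝ} (h : c < s) : c < kap c s := by
  unfold kap
  have h1 := Real.smoothTransition.nonneg (s - (c + 2))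
  have h2 := Real.smoothTransition.le_one (s - (c + 2))
  have h3 : 0 ≤ (s - c) * (1 - Real.smoothTransition (s - (c + 2))) :=
    mul_nonneg (by linarith) (by linarith)
  rcases h1.eq_or_lt with h4 | h4
  · rw [← h4]
    linarith
  · nlinarith

/-- the parameter of the isotopy -/
noncomputable def chi (c s : ℝ) : ℝ := Real.smoothTransition (s - (c + 5))

theorem chi_smooth (c : ℝ) : ContDiff ℝ ∞ (chi c) :=
  Real.smoothTransition.contDiff.comp (contDiff_id.sub contDiff_const)

theorem chi_low {c s : ℝ} (h : s ≤ c + 5) : chi c s = 0 :=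
  Real.smoothTransition.zero_of_nonpos (by linarith)

theorem chi_high {c s : ℝ} (h : c + 6 ≤ s) : chi c s = 1 :=
  Real.smoothTransition.one_of_one_le (by linarith)

/-- **the theorem** -/
theorem standard (h : LeafData j f u V R l) [PreconnectedSpace M]
    (hdim : Module.finrank ℝ V ≤ 2) :
    ∃ Φ : E ≃ₘ^∞⟮𝓘(ℝ, E), 𝓘(ℝ, E)⟯ M, (∀ᶠ z in cocompact E, Φ z = j z) ∧
      ∀ z, Φ z = PsiM j f R u z ∨ ∃ w, w - z ∈ V ∧ R < ‖w‖ ∧ Φ z = j w := by
  have hnt : Nontrivial E := ⟨u, 0, h.base.u_ne⟩
  set c : ℝ := ‖l‖ * R with hc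
  have hc0 : 0 ≤ c := mul_nonneg (norm_nonneg _) h.base.R_nonneg
  have hu := h.split.hu
  -- the slice at the level `c + 4`
  let P : Type := Fin 0 → ℝ
  let g : P → HH l → HH l := fun _ x => pr l u hu (theta j f R u ((c + 4) • u + (x : E)))
  have hθs : ∀ z, c < l z → ContDiffAt ℝ ∞ (theta j f R u) z := fun z hz =>
    (h.theta_ld hz).contMDiffAt.contDiffAt
  have hθid : ∀ (s : ℝ) (x : HH l), c < s → ‖pq l u‖ * R < ‖x‖ →
      pr l u hu (theta j f R u (s • u + (x : E))) = x := by
    intro s x hsc hx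
    have h1 : pq l u (s • u + (x : E)) = x := by
      have := congrArg Subtype.val (pr_sum hu s x)
      exact this
    rw [h.theta_id (by rw [l_sum hu]; exact hsc) (by rw [h1]; exact hx), pr_sum]
  have hpar : ∀ (s : ℝ) (x : HH l), c < s →
      pr l u hu (theta j f R u (s • u + (x : E))) - x ∈ V.comap (HH l).subtype := by
    intro s x hsc
    obtain ⟨-, -, h1, h2⟩ := h.theta_spec (z := s • u + (x : E)) (by rw [l_sum hu]; exact hsc)
    rw [Submodule.mem_comap]
    have h3 : ((HH l).subtype (pr l u hu (theta j f R u (s • u + (x : E))) - x))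
        = theta j f R u (s • u + (x : E)) - (s • u + (x : E)) := by
      change (theta j f R u (s • u + (x : E)) - l (theta j f R u (s • u + (x : E))) • u) - (x : E)
        = _
      rw [h2, l_sum hu]
      abel
    rw [h3]
    exact h1
  have hg : SM.DFam g := by
    refine ⟨?_, fun _ x v hv => h.slice_inj (by linarith) x v hv,
      univ ×ˢ Metric.closedBall 0 (‖pq l u‖ * R), isCompact_univ.prod (isCompact_closedBall _ _), ?_⟩
    · rw [contDiff_iff_contDiffAt]
      rintro ⟨p, x⟩
      have h1 : ContDiff ℝ ∞ fun q : P × HH l => (c + 4) • u + (q.2 : E) :=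
        contDiff_const.add ((HH l).subtypeL.contDiff.comp contDiff_snd)
      exact (pr l u hu).contDiff.contDiffAt.comp _ (ContDiffAt.comp _
        (hθs _ (by rw [l_sum hu]; linarith)) h1.contDiffAt)
    · intro p x hx
      refine hθid _ x (by linarith) ?_
      by_contra hcon
      exact hx ⟨mem_univ _, mem_closedBall_zero_iff.2 (not_lt.1 hcon)⟩
  have hdim' : Module.finrank ℝ (V.comap (HH l).subtype) ≤ 2 := by
    have h1 : Module.finrank ℝ (V.comap (HH l).subtype)
        = Module.finrank ℝ ((V.comap (HH l).subtype).map (HH l).subtype) :=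
      (Submodule.finrank_map_subtype_eq _ _).symm
    rw [h1]
    exact (Submodule.finrank_mono (Submodule.map_comap_le _ _)).trans hdim
  obtain ⟨N, KN, hKN, hN1, hN2, hN3, hN4, hN5, hN6⟩ :=
    SM.par_trivial hdim' hg fun p x => hpar _ x (by linarith)
  -- the fibred map
  classical
  let a1 : ℝ × HH l → HH l := fun q => pr l u hu (theta j f R u (kap c q.1 • u + (q.2 : E)))
  let a2 : ℝ × HH l → HH l := fun q => N (chi c q.1, 0) q.2
  let A : ℝ × HH l → HH l := fun q => if q.1 < c + 4 then a1 q else a2 q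
  have hAB : ∀ q : ℝ × HH l, c + 3 < q.1 → q.1 < c + 5 → a1 q = a2 q := by
    rintro ⟨s, x⟩ h1 h2
    change pr l u hu (theta j f R u (kap c s • u + (x : E))) = N (chi c s, 0) x
    rw [kap_high h1.le, chi_low h2.le, hN4]
  have ha1 : ∀ z : E, c < l z → ContDiffAt ℝ ∞ a1 (l z, pr l u hu z) := by
    intro z hz
    have h1 : ContDiff ℝ ∞ fun q : ℝ × HH l => kap c q.1 • u + (q.2 : E) :=
      (((kap_smooth c).comp contDiff_fst).smul contDiff_const).add
        ((HH l).subtypeL.contDiff.comp contDiff_snd)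
    exact (pr l u hu).contDiff.contDiffAt.comp _ (ContDiffAt.comp _
      (hθs _ (by rw [l_sum hu]; exact kap_gt hz)) h1.contDiffAt)
  have ha2 : ContDiff ℝ ∞ a2 :=
    hN1.comp ((((chi_smooth c).comp contDiff_fst).prodMk contDiff_const).prodMk contDiff_snd)
  let B : E → E := fun z => l z • u + (A (l z, pr l u hu z) : E)
  have hB1 : ∀ z, l z < c + 4 →
      B =ᶠ[𝓝 z] fun y => l y • u + (a1 (l y, pr l u hu y) : E) := by
    intro z hz
    have h1 : {y : E | l y < c + 4} ∈ 𝓝 z :=
      (isOpen_lt l.continuous continuous_const).mem_nhds hz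
    refine mem_of_superset h1 fun y hy => ?_
    have hy' : l y < c + 4 := hy
    change l y • u + ((if l y < c + 4 then a1 (l y, pr l u hu y) else a2 (l y, pr l u hu y) :
      HH l) : E) = _
    rw [if_pos hy']
  have hB2 : ∀ z, c + 4 ≤ l z →
      B =ᶠ[𝓝 z] fun y => l y • u + (a2 (l y, pr l u hu y) : E) := by
    intro z hz
    have h1 : {y : E | c + 3 < l y} ∈ 𝓝 z :=
      (isOpen_lt continuous_const l.continuous).mem_nhds (show c + 3 < l z by linarith)
    refine mem_of_superset h1 fun y hy => ?_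
    change l y • u + ((if l y < c + 4 then a1 (l y, pr l u hu y) else a2 (l y, pr l u hu y) :
      HH l) : E) = _
    split_ifs with hlt
    · rw [hAB (l y, pr l u hu y) hy (by change l y < c + 5; linarith)]
    · rfl
  have hBs : ∀ z, c < l z → ContDiffAt ℝ ∞ B z ∧ ∀ v, fderiv ℝ B z v = 0 → v = 0 := by
    intro z hz
    by_cases h4 : l z < c + 4
    · have h1 := fibre hu (ha1 z hz) fun v hv => h.slice_inj (kap_gt hz) _ v hv
      refine ⟨h1.1.congr_of_eventuallyEq (hB1 z h4), fun v hv => ?_⟩
      rw [(hB1 z h4).fderiv_eq] at hv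
      exact h1.2 v hv
    · have h1 := fibre hu (ha2.contDiffAt (x := (l z, pr l u hu z)))
        fun v hv => hN2 (chi c (l z), 0) _ v hv
      refine ⟨h1.1.congr_of_eventuallyEq (hB2 z (not_lt.1 h4)), fun v hv => ?_⟩
      rw [(hB2 z (not_lt.1 h4)).fderiv_eq] at hv
      exact h1.2 v hv
  have hBld : ∀ z, c < l z → IsLocalDiffeomorphAt 𝓘(ℝ, E) 𝓘(ℝ, E) ∞ B z := fun z hz =>
    localDiffeo_of_fderiv (U := {z | c < l z}) (isOpen_lt continuous_const l.continuous)
      (fun y hy => (hBs y hy).1) (fun y hy => (hBs y hy).2) hz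
  have hlB : ∀ z, l (B z) = l z := fun z => l_sum hu _ _
  -- `B` agrees with `θ` at the beginning
  have hBθ : ∀ z, c < l z → l z < c + 1 → j (B z) = PsiM j f R u z := by
    intro z hz hz'
    have h1 : B z = theta j f R u z := by
      rw [(hB1 z (by linarith)).eq_of_nhds]
      change l z • u + (pr l u hu (theta j f R u (kap c (l z) • u + (pr l u hu z : E))) : E) = _
      rw [kap_low (by linarith), split_sum hu, ← (h.theta_spec hz).2.2.2, split_sum hu]
    rw [h1]
    exact (h.theta_spec hz).1
  let Φ : E → M := fun z => if l z < c + 1 then PsiM j f R u z else j (B z)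
  have hΦ : ∀ z, IsLocalDiffeomorphAt 𝓘(ℝ, E) 𝓘(ℝ, E) ∞ Φ z := by
    intro z
    by_cases hz : l z < c + 1
    · refine localDiffeo_congr (h.base.psi_ld z) ?_
      have h1 : {y : E | l y < c + 1} ∈ 𝓝 z :=
        (isOpen_lt l.continuous continuous_const).mem_nhds hz
      exact mem_of_superset h1 fun y hy => if_pos hy
    · have hz' : c < l z := by linarith [not_lt.1 hz]
      have h0 : R < ‖B z‖ := by
        refine out_of_l (l := l) ?_
        rw [hlB]
        exact hz'.trans_le (le_abs_self _)
      refine localDiffeo_congr ((hBld z hz').comp 𝓘(ℝ, E) M (h.base.ld _ h0)) ?_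
      have h1 : {y : E | c < l y} ∈ 𝓝 z :=
        (isOpen_lt continuous_const l.continuous).mem_nhds hz'
      refine mem_of_superset h1 fun y hy => ?_
      by_cases hy' : l y < c + 1
      · exact (if_pos hy').trans (hBθ y hy hy').symm
      · exact if_neg hy'
  -- near infinity
  obtain ⟨r, hr⟩ := (hKN.image continuous_snd).isBounded.exists_norm_le
  have hn : ∀ᶠ z in cocompact E, Φ z = j z := by
    set ρ0 : ℝ := max (‖pq l u‖ * R) r with hρ0
    have hcyl : ∀ z, ρ0 < ‖pr l u hu z‖ → Φ z = j z := by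
      intro z hz
      have hz1 : ‖pq l u‖ * R < ‖pr l u hu z‖ := (le_max_left _ _).trans_lt hz
      have hz2 : r < ‖pr l u hu z‖ := (le_max_right _ _).trans_lt hz
      by_cases h1 : l z < c + 1
      · refine (if_pos h1).trans ?_
        exact psi_eq_j h.base.u_ne h.base.tr fun k => cyl h.split h.base.R_nonneg hz1 k
      · refine (if_neg h1).trans ?_
        have h2 : A (l z, pr l u hu z) = pr l u hu z := by
          change (if l z < c + 4 then a1 (l z, pr l u hu z) else a2 (l z, pr l u hu z)) = _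
          split_ifs with h3
          · exact hθid _ _ (kap_gt (by linarith [not_lt.1 h1])) hz1
          · refine hN3 _ _ _ fun hcon => ?_
            exact absurd (hr _ ⟨_, hcon, rfl⟩) (not_le.2 hz2)
        change j (l z • u + (A (l z, pr l u hu z) : E)) = j z
        rw [h2, split_sum hu]
    have hlow : ∀ z, l z < -c → Φ z = j z := by
      intro z hz
      refine (if_pos (by linarith)).trans ?_
      refine psi_eq_j h.base.u_ne h.base.tr fun k => out_of_l (l := l) ?_
      rw [map_sub, map_smul, hu, smul_eq_mul, mul_one]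
      have hk : (0 : ℝ) ≤ k := Nat.cast_nonneg k
      rw [abs_of_neg (by linarith)]
      linarith
    have hhigh : ∀ z, c + 6 < l z → Φ z = j z := by
      intro z hz
      refine (if_neg (by linarith)).trans ?_
      have h2 : A (l z, pr l u hu z) = pr l u hu z := by
        change (if l z < c + 4 then a1 (l z, pr l u hu z) else a2 (l z, pr l u hu z)) = _
        rw [if_neg (by linarith)]
        change N (chi c (l z), 0) (pr l u hu z) = _
        rw [chi_high hz.le, hN5]
      change j (l z • u + (A (l z, pr l u hu z) : E)) = j z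
      rw [h2, split_sum hu]
    have hball : (Metric.closedBall (0 : E) ((c + 6) * ‖u‖ + ρ0))ᶜ ∈ cocompact E :=
      (isCompact_closedBall _ _).compl_mem_cocompact
    filter_upwards [hball] with z hz
    rw [mem_compl_iff, mem_closedBall_zero_iff, not_le] at hz
    by_contra hcon
    have h1 : ‖pr l u hu z‖ ≤ ρ0 := by
      by_contra h2
      exact hcon (hcyl z (not_le.1 h2))
    have h2 : -c ≤ l z := by
      by_contra h2
      exact hcon (hlow z (not_le.1 h2))
    have h3 : l z ≤ c + 6 := by
      by_contra h2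
      exact hcon (hhigh z (not_le.1 h2))
    have h4 : |l z| ≤ c + 6 := abs_le.2 ⟨by linarith, h3⟩
    have h5 : ‖z‖ ≤ |l z| * ‖u‖ + ‖pr l u hu z‖ := by
      conv_lhs => rw [← split_sum hu z]
      refine (norm_add_le _ _).trans ?_
      rw [norm_smul, Real.norm_eq_abs]
      rfl
    have h6 : |l z| * ‖u‖ ≤ (c + 6) * ‖u‖ := mul_le_mul_of_nonneg_right h4 (norm_nonneg _)
    linarith
  obtain ⟨Ψ, hΨ⟩ := diffeo_of_localDiffeo h.base.hend hΦ hn
  refine ⟨Ψ, hn.mono fun z hz => (hΨ z).trans hz, fun z => ?_⟩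
  rw [hΨ]
  by_cases hz : l z < c + 1
  · exact Or.inl (if_pos hz)
  · refine Or.inr ⟨B z, ?_, ?_, if_neg hz⟩
    · have hz' : c < l z := by linarith [not_lt.1 hz]
      have h1 : A (l z, pr l u hu z) - pr l u hu z ∈ V.comap (HH l).subtype := by
        change (if l z < c + 4 then a1 (l z, pr l u hu z) else a2 (l z, pr l u hu z)) - _ ∈ _
        split_ifs with h3
        · exact hpar _ _ (kap_gt hz')
        · exact hN6 _ _
      rw [Submodule.mem_comap] at h1
      have h2 : B z - z = (HH l).subtype (A (l z, pr l u hu z) - pr l u hu z) := by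
        change l z • u + (A (l z, pr l u hu z) : E) - z
          = (A (l z, pr l u hu z) : E) - (pr l u hu z : E)
        rw [pr_coe]
        abel
      rw [h2]
      exact h1
    · refine out_of_l (l := l) ?_
      rw [hlB]
      exact (show c < l z by linarith [not_lt.1 hz]).trans_le (le_abs_self _)

end LeafData

end Glue

end Pool.Agent.H822.RG
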