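import Pool.Agent.H822.RG.Top

/-!
# The group `ℤ²` has one end and acts properly by translations
-/

open Filter Set Topology

namespace Pool.Agent.H822.RG

/-- the group `ℤ²`, written multiplicatively -/
abbrev Zt : Type := Multiplicative (ℤ × ℤ)

/-- the standard generators -/
def gens : Set Zt := {Multiplicative.ofAdd ((1, 0) : ℤ × ℤ), Multiplicative.ofAdd ((0, 1) : ℤ × ℤ)}

theorem step_symm {Γ : Type*} [Group Γ] {S F : Set Γ} {a b : Γ}
    (h : Relation.ReflTransGen (Step S F) a b) : Relation.ReflTransGen (Step S F) b a := by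
  induction h with
  | refl => exact Relation.ReflTransGen.refl
  | tail h1 h2 ih =>
    obtain ⟨ha, hb, s, hs, h⟩ := h2
    exact Relation.ReflTransGen.head ⟨hb, ha, s, hs, h.symm⟩ ih

theorem up {F : Set Zt} (a b : ℤ) (h : ∀ c, Multiplicative.ofAdd ((a, c) : ℤ × ℤ) ∉ F) (n : ℕ) :
    Relation.ReflTransGen (Step gens F) (Multiplicative.ofAdd ((a, b) : ℤ × ℤ))
      (Multiplicative.ofAdd ((a, b + n) : ℤ × ℤ)) := by
  induction n with
  | zero => simpa using Relation.ReflTransGen.refl
  | succ n ih =>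
    refine ih.tail ⟨h _, h _, Multiplicative.ofAdd ((0, 1) : ℤ × ℤ), Or.inr rfl, Or.inl ?_⟩
    rw [← ofAdd_add, Prod.mk_add_mk]
    congr 2
    · ring
    · push_cast; ring

theorem right {F : Set Zt} (a b : ℤ) (h : ∀ c, Multiplicative.ofAdd ((c, b) : ℤ × ℤ) ∉ F) (n : ℕ) :
    Relation.ReflTransGen (Step gens F) (Multiplicative.ofAdd ((a, b) : ℤ × ℤ))
      (Multiplicative.ofAdd ((a + n, b) : ℤ × ℤ)) := by
  induction n with
  | zero => simpa using Relation.ReflTransGen.refl
  | succ n ih =>
    refine ih.tail ⟨h _, h _, Multiplicative.ofAdd ((1, 0) : ℤ × ℤ), Or.inl rfl, Or.inl ?_⟩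
    rw [← ofAdd_add, Prod.mk_add_mk]
    congr 2
    · push_cast; ring
    · ring

theorem vert {F : Set Zt} (a b b' : ℤ) (h : ∀ c, Multiplicative.ofAdd ((a, c) : ℤ × ℤ) ∉ F) :
    Relation.ReflTransGen (Step gens F) (Multiplicative.ofAdd ((a, b) : ℤ × ℤ))
      (Multiplicative.ofAdd ((a, b') : ℤ × ℤ)) := by
  rcases le_total b b' with hb | hb
  · have := up a b h (b' - b).toNat
    rwa [Int.toNat_of_nonneg (by lia), show b + (b' - b) = b' by ring] at this
  · have := up a b' h (b - b').toNat
    rw [Int.toNat_of_nonneg (by lia), show b' + (b - b') = b by ring] at this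
    exact step_symm this

theorem horiz {F : Set Zt} (a a' b : ℤ) (h : ∀ c, Multiplicative.ofAdd ((c, b) : ℤ × ℤ) ∉ F) :
    Relation.ReflTransGen (Step gens F) (Multiplicative.ofAdd ((a, b) : ℤ × ℤ))
      (Multiplicative.ofAdd ((a', b) : ℤ × ℤ)) := by
  rcases le_total a a' with hb | hb
  · have := right a b h (a' - a).toNat
    rwa [Int.toNat_of_nonneg (by lia), show a + (a' - a) = a' by ring] at this
  · have := right a' b h (a - a').toNat
    rw [Int.toNat_of_nonneg (by lia), show a' + (a - a') = a by ring] at this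
    exact step_symm this

/-- the box of side `2 N` -/
def box (N : ℤ) : Set Zt := {γ | |(Multiplicative.toAdd γ).1| ≤ N ∧ |(Multiplicative.toAdd γ).2| ≤ N}

theorem box_finite (N : ℤ) : (box N).Finite := by
  have h1 : ((Icc (-N) N) ×ˢ (Icc (-N) N) : Set (ℤ × ℤ)).Finite :=
    (finite_Icc _ _).prod (finite_Icc _ _)
  refine (h1.image Multiplicative.ofAdd).subset ?_
  rintro γ ⟨h2, h3⟩
  exact ⟨Multiplicative.toAdd γ, ⟨abs_le.1 h2, abs_le.1 h3⟩, rfl⟩

theorem exists_box {F : Set Zt} (hF : F.Finite) : ∃ N : ℤ, F ⊆ box N := by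
  have h1 : (F.image fun γ => max |(Multiplicative.toAdd γ).1| |(Multiplicative.toAdd γ).2|).Finite :=
    hF.image _
  obtain ⟨N, hN⟩ := h1.bddAbove
  refine ⟨N, fun γ hγ => ?_⟩
  have := hN ⟨γ, hγ, rfl⟩
  exact ⟨(le_max_left _ _).trans this, (le_max_right _ _).trans this⟩

theorem oneEnded_Zt : OneEnded Zt gens where
  inf := inferInstance
  fin := by unfold gens; exact (finite_singleton _).insert _
  gen := by
    rw [eq_top_iff]
    rintro γ -
    have h1 : γ = (Multiplicative.ofAdd ((1, 0) : ℤ × ℤ) : Zt) ^ ((Multiplicative.toAdd γ).1 : ℤ)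
        * (Multiplicative.ofAdd ((0, 1) : ℤ × ℤ) : Zt) ^ ((Multiplicative.toAdd γ).2 : ℤ) := by
      rw [← ofAdd_zsmul, ← ofAdd_zsmul, ← ofAdd_add]
      apply Multiplicative.toAdd.injective
      rw [toAdd_ofAdd]
      ext <;> simp
    have hg1 : (Multiplicative.ofAdd ((1, 0) : ℤ × ℤ) : Zt) ∈ gens := Or.inl rfl
    have hg2 : (Multiplicative.ofAdd ((0, 1) : ℤ × ℤ) : Zt) ∈ gens := Or.inr rfl
    rw [h1]
    exact mul_mem (zpow_mem (Subgroup.subset_closure hg1) _)
      (zpow_mem (Subgroup.subset_closure hg2) _)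
  conn := by
    intro F hF
    obtain ⟨N, hN⟩ := exists_box hF
    refine ⟨box N, box_finite N, ?_⟩
    -- everything outside of the box can be joined to one point
    have key : ∀ γ : Zt, γ ∉ box N → Relation.ReflTransGen (Step gens F) γ
        (Multiplicative.ofAdd ((|N| + 1, |N| + 1) : ℤ × ℤ)) := by
      intro γ hγ
      obtain ⟨⟨a, b⟩, rfl⟩ := Multiplicative.ofAdd.surjective γ
      have hle : N ≤ |N| := le_abs_self N
      have hout : ∀ c d : ℤ, (N < |c| ∨ N < |d|) → (Multiplicative.ofAdd ((c, d) : ℤ × ℤ) : Zt) ∉ F := by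
        intro c d h hcon
        have := hN hcon
        rcases h with h | h
        · exact absurd this.1 (not_le.2 h)
        · exact absurd this.2 (not_le.2 h)
      have habs : N < |(|N| + 1)| := by
        rw [abs_of_pos (by positivity)]; lia
      have hcase : N < |a| ∨ N < |b| := by
        by_contra hcon
        push Not at hcon
        exact hγ hcon
      rcases hcase with h | h
      · exact (vert a b (|N| + 1) fun c => hout _ _ (Or.inl h)).trans
          (horiz a (|N| + 1) (|N| + 1) fun c => hout _ _ (Or.inr habs))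
      · exact (horiz a (|N| + 1) b fun c => hout _ _ (Or.inr h)).trans
          (vert (|N| + 1) b (|N| + 1) fun c => hout _ _ (Or.inl habs))
    intro a b ha hb
    exact (key a ha).trans (step_symm (key b hb))

end Pool.Agent.H822.RG
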