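import Pool.Agent.H822.RG.Glue

/-!
# Subsets of a vector space which are a subspace near infinity, and their symmetries
-/

open Filter Set Topology Manifold
open scoped ContDiff

namespace Pool.Agent.H822.RG

section KDefs

variable {E : Type*} [NormedAddCommGroup E] [NormedSpace ℝ E]

/-- near infinity the diffeomorphism `f` is the translation with `u` -/
def NearTrans (u : E) (f : E ≃ₘ^∞⟮𝓘(ℝ, E), 𝓘(ℝ, E)⟯ E) : Prop :=
  ∀ᶠ z in cocompact E, f z = z + u

/-- near infinity the set `Σ` is the subspace `P` -/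
def FlatNear (P : Submodule ℝ E) (A : Set E) : Prop := ∀ᶠ z in cocompact E, (z ∈ A ↔ z ∈ P)

/-- `f` maps `A` onto itself -/
def Keeps (f : E ≃ₘ^∞⟮𝓘(ℝ, E), 𝓘(ℝ, E)⟯ E) (A : Set E) : Prop := f '' A = A

/-- a diffeomorphism with compact support carries `P` onto `A` -/
def UnknottedRel (P : Submodule ℝ E) (A : Set E) : Prop :=
  ∃ Φ : E ≃ₘ^∞⟮𝓘(ℝ, E), 𝓘(ℝ, E)⟯ E, (∀ᶠ z in cocompact E, Φ z = z) ∧ Φ '' P = A

/-- two commuting diffeomorphisms which map `A` onto itself and are near infinity the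
translations with `u` and with `v` -/
def TwoSymmetries (A : Set E) (u v : E) : Prop :=
  ∃ f g : E ≃ₘ^∞⟮𝓘(ℝ, E), 𝓘(ℝ, E)⟯ E, NearTrans u f ∧ NearTrans v g ∧ Keeps f A ∧
    Keeps g A ∧ ∀ x, f (g x) = g (f x)

/-- a diffeomorphism which maps `A` onto itself, is near infinity the translation with `u`, and
preserves a field `W` of subspaces which is near infinity parallel to `V` -/
def FieldSymmetry (A : Set E) (u : E) (V : Submodule ℝ E) : Prop :=
  ∃ (f : E ≃ₘ^∞⟮𝓘(ℝ, E), 𝓘(ℝ, E)⟯ E) (W : E → Submodule ℝ E), NearTrans u f ∧ Keeps f A ∧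
    (∀ p, (W p).map (fderiv ℝ f p : E →ₗ[ℝ] E) = W (f p)) ∧ ∀ᶠ z in cocompact E, W z = V

/-- a diffeomorphism which maps `A` onto itself, is near infinity the translation with `u`, and
preserves a partition of `E` into arbitrary subsets (the classes of an equivalence relation `r`)
which is near infinity the partition into the affine subspaces parallel to `V` -/
def PartitionSymmetry (A : Set E) (u : E) (V : Submodule ℝ E) : Prop :=
  ∃ (f : E ≃ₘ^∞⟮𝓘(ℝ, E), 𝓘(ℝ, E)⟯ E) (r : Setoid E), NearTrans u f ∧ Keeps f A ∧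
    (∀ p q, r (f p) (f q) ↔ r p q) ∧
    ∃ B ∈ cocompact E, ∀ z ∈ B, ∀ y ∈ B, (r z y ↔ z - y ∈ V)

end KDefs

section KProofs

theorem keeps_iff {E : Type*} [NormedAddCommGroup E] [NormedSpace ℝ E]
    {f : E ≃ₘ^∞⟮𝓘(ℝ, E), 𝓘(ℝ, E)⟯ E} {A : Set E} :
    Keeps f A ↔ ∀ z, f z ∈ A ↔ z ∈ A := by
  constructor
  · intro h z
    constructor
    · intro hz
      unfold Keeps at h
      rw [← h] at hz
      obtain ⟨y, hy, hyz⟩ := hz
      rwa [← f.injective hyz]
    · intro hz
      unfold Keeps at h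
      rw [← h]
      exact ⟨z, hz, rfl⟩
  · intro h
    ext y
    constructor
    · rintro ⟨z, hz, rfl⟩
      exact (h z).2 hz
    · intro hy
      refine ⟨f.symm y, ?_, f.apply_symm_apply y⟩
      rw [← h, f.apply_symm_apply]
      exact hy

variable {E : Type} [NormedAddCommGroup E] [NormedSpace ℝ E] [FiniteDimensional ℝ E]

/-- a diffeomorphism which is the identity on a ball and a translation near infinity, moving all
the points parallel to `u` -/
theorem exists_cut' (u : E) (R : ℝ) : ∃ ψ : E ≃ₘ^∞⟮𝓘(ℝ, E), 𝓘(ℝ, E)⟯ E,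
    (∀ z, ‖z‖ ≤ R → ψ z = z) ∧ (∀ᶠ z in cocompact E, ψ z = z + u) ∧
      ∀ z, ∃ t : ℝ, ψ z = z + t • u := by
  let b : ContDiffBump (0 : E) := ⟨1, 2, one_pos, one_lt_two⟩
  have hb : ContDiff ℝ ∞ (fun z => b z) := b.contDiff
  obtain ⟨L, hL⟩ := hb.lipschitzWith_of_hasCompactSupport b.hasCompactSupport (by simp)
  set r : ℝ := max (max R 1) (2 * L * ‖u‖) with hr
  have hr0 : 0 < r := lt_of_lt_of_le one_pos ((le_max_right R 1).trans (le_max_left _ _))
  have hrR : R ≤ r := (le_max_left R 1).trans (le_max_left _ _)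
  have hrL : 2 * L * ‖u‖ ≤ r := le_max_right _ _
  let G : E → E := fun z => z - b (r⁻¹ • z) • u
  have hbr : ContDiff ℝ ∞ (fun z : E => b (r⁻¹ • z)) := hb.comp (contDiff_const_smul r⁻¹)
  have hG : ContDiff ℝ ∞ G := contDiff_id.sub (hbr.smul contDiff_const)
  have hlip : ∀ z, ‖fderiv ℝ (fun z : E => b (r⁻¹ • z)) z‖ ≤ L * r⁻¹ := by
    intro z
    have h1 : LipschitzWith (L * Real.toNNReal r⁻¹) (fun z : E => b (r⁻¹ • z)) := by
      refine hL.comp (LipschitzWith.of_dist_le_mul fun x y => ?_)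
      rw [dist_smul₀, Real.norm_eq_abs, abs_of_pos (inv_pos.2 hr0),
        Real.coe_toNNReal _ (inv_pos.2 hr0).le]
    have h2 := norm_fderiv_le_of_lipschitz ℝ h1 (x₀ := z)
    rwa [NNReal.coe_mul, Real.coe_toNNReal _ (inv_pos.2 hr0).le] at h2
  have hi : ∀ x v, fderiv ℝ G x v = 0 → v = 0 := by
    intro x v hv
    have h1 : HasFDerivAt G (ContinuousLinearMap.id ℝ E
        - (fderiv ℝ (fun z : E => b (r⁻¹ • z)) x).smulRight u) x :=
      (hasFDerivAt_id x).sub ((hbr.differentiable (by simp) x).hasFDerivAt.smul_const u)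
    rw [h1.fderiv] at hv
    have hv' : v - (fderiv ℝ (fun z : E => b (r⁻¹ • z)) x v) • u = 0 := hv
    rw [sub_eq_zero] at hv'
    have h2 : ‖v‖ ≤ (1 / 2) * ‖v‖ := by
      calc ‖v‖ = ‖(fderiv ℝ (fun z : E => b (r⁻¹ • z)) x v) • u‖ := congrArg _ hv'
        _ = ‖fderiv ℝ (fun z : E => b (r⁻¹ • z)) x v‖ * ‖u‖ := norm_smul _ _
        _ ≤ ((L * r⁻¹) * ‖v‖) * ‖u‖ := by
            gcongr
            exact ContinuousLinearMap.le_of_opNorm_le _ (hlip x) v
        _ = ((2 * L * ‖u‖) * r⁻¹) * (1 / 2) * ‖v‖ := by ring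
        _ ≤ (r * r⁻¹) * (1 / 2) * ‖v‖ := by gcongr
        _ = (1 / 2) * ‖v‖ := by rw [mul_inv_cancel₀ hr0.ne', one_mul]
    have h3 : ‖v‖ ≤ 0 := by linarith
    exact norm_le_zero_iff.1 h3
  have hoff : ∀ x, x ∉ Metric.closedBall (0 : E) (2 * r) → G x = x := by
    intro x hx
    rw [mem_closedBall_zero_iff, not_le] at hx
    have h1 : b (r⁻¹ • x) = 0 := by
      refine b.zero_of_le_dist ?_
      rw [dist_zero_right, norm_smul, Real.norm_eq_abs, abs_of_pos (inv_pos.2 hr0)]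
      change (2 : ℝ) ≤ _
      rw [inv_mul_eq_div, le_div_iff₀ hr0]
      exact hx.le
    simp only [G, h1, zero_smul, sub_zero]
  obtain ⟨ψ, hψ⟩ := exists_diffeo_of_local hG hi (isCompact_closedBall _ _) hoff
  refine ⟨ψ.trans (transD u), fun z hz => ?_, ?_, fun z => ⟨1 - b (r⁻¹ • z), ?_⟩⟩
  · change ψ z + u = z
    rw [hψ]
    have h1 : b (r⁻¹ • z) = 1 := by
      refine b.one_of_mem_closedBall ?_
      rw [mem_closedBall_zero_iff, norm_smul, Real.norm_eq_abs, abs_of_pos (inv_pos.2 hr0)]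
      change _ ≤ (1 : ℝ)
      rw [inv_mul_eq_div, div_le_iff₀ hr0, one_mul]
      exact hz.trans hrR
    simp only [G, h1, one_smul, sub_add_cancel]
  · filter_upwards [(isCompact_closedBall (0 : E) (2 * r)).compl_mem_cocompact] with z hz
    change ψ z + u = z + u
    rw [hψ, hoff z hz]
  · change ψ z + u = _
    rw [hψ]
    simp only [G]
    module

omit [FiniteDimensional ℝ E] [NormedSpace ℝ E] in
theorem exists_norm_of_cocompact [ProperSpace E] {p : E → Prop} (h : ∀ᶠ z in cocompact E, p z) :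
    ∃ R : ℝ, 0 ≤ R ∧ ∀ z, R < ‖z‖ → p z := by
  obtain ⟨K, hK, hKA⟩ := mem_cocompact.1 h
  obtain ⟨R, hR⟩ := hK.isBounded.exists_norm_le
  refine ⟨max R 0, le_max_right _ _, fun z hz => hKA fun hcon => ?_⟩
  exact absurd (hR z hcon) (not_le.2 ((le_max_left _ _).trans_lt hz))

/-- one translation parallel to `P` always extends to a diffeomorphism which keeps `A` -/
theorem knot_single {P : Submodule ℝ E} {A : Set E} (hA : FlatNear P A) {u : E} (hu : u ∈ P) :
    ∃ f : E ≃ₘ^∞⟮𝓘(ℝ, E), 𝓘(ℝ, E)⟯ E, NearTrans u f ∧ Keeps f A := by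
  have : ProperSpace E := FiniteDimensional.proper ℝ E
  obtain ⟨R, -, hR⟩ := exists_norm_of_cocompact hA
  obtain ⟨ψ, h1, h2, h3⟩ := exists_cut' u R
  refine ⟨ψ, h2, keeps_iff.2 fun z => ?_⟩
  by_cases hz : ‖z‖ ≤ R
  · rw [h1 z hz]
  · have hz' : R < ‖z‖ := not_le.1 hz
    have hψz : R < ‖ψ z‖ := by
      by_contra hcon
      have h4 := h1 _ (not_lt.1 hcon)
      have h5 := ψ.injective h4
      rw [h5] at hcon
      exact hcon hz'
    rw [hR _ hψz, hR _ hz']
    obtain ⟨t, ht⟩ := h3 z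
    rw [ht]
    exact P.add_mem_iff_left (P.smul_mem t hu)

omit [FiniteDimensional ℝ E] in
theorem endId : StandardEnd (fun z : E => z) where
  localDiffeo := Eventually.of_forall fun z =>
    (Diffeomorph.refl 𝓘(ℝ, E) E ∞).isLocalDiffeomorph z
  inj := ⟨univ, univ_mem, fun _ _ _ _ h => h⟩
  proper := tendsto_id

theorem inv_all {Γ : Type*} [Group Γ] {S : Set Γ} (hgen : Subgroup.closure S = ⊤) {M : Type*}
    {ρ : Γ →* Equiv.Perm M} {A : Set M} (h : ∀ s ∈ S, ∀ z, ρ s z ∈ A ↔ z ∈ A) (γ : Γ) :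
    ∀ z, ρ γ z ∈ A ↔ z ∈ A := by
  have hγ : γ ∈ Subgroup.closure S := hgen ▸ Subgroup.mem_top γ
  induction hγ using Subgroup.closure_induction with
  | mem s hs => exact h s hs
  | one => intro z; rw [map_one]; rfl
  | mul a b _ _ ha hb =>
    intro z
    rw [map_mul, Equiv.Perm.mul_apply, ha, hb]
  | inv a _ ha =>
    intro z
    rw [map_inv, ← ha, Equiv.Perm.inv_def, Equiv.apply_symm_apply]

/-- invariant subsets which correspond near infinity correspond -/
theorem sets_correspond {Γ : Type*} [Group Γ] {S : Set Γ} (hΓ : OneEnded Γ S) {X M : Type*}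
    [TopologicalSpace X] {ρ : Γ →* Equiv.Perm X} {ρ' : Γ →* Equiv.Perm M} (hρ : ProperAct ρ)
    {A : Set X} {B : Set M} (hA : ∀ s ∈ S, ∀ z, ρ s z ∈ A ↔ z ∈ A)
    (hB : ∀ s ∈ S, ∀ z, ρ' s z ∈ B ↔ z ∈ B) {Φ : X → M} (hΦ : ∀ γ x, Φ (ρ γ x) = ρ' γ (Φ x))
    (h : ∀ᶠ x in cocompact X, (Φ x ∈ B ↔ x ∈ A)) (x : X) : Φ x ∈ B ↔ x ∈ A := by
  have := hΓ.inf
  have h1 := ((properAt_of hρ) _ (inter_mem h
    (compl_singleton_mem_cocompact x))).eventually_cofinite_notMem
  obtain ⟨γ, hγ⟩ := h1.exists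
  have h2 : Φ (ρ γ x) ∈ B ↔ ρ γ x ∈ A := by
    by_contra hcon
    exact hγ ⟨x, fun h => h.2 rfl, fun h => hcon h.1⟩
  rw [hΦ, inv_all hΓ.gen hB, inv_all hΓ.gen hA] at h2
  exact h2

theorem unknotted_of_two {P : Submodule ℝ E} {A : Set E} (hA : FlatNear P A) {u v : E}
    (hu : u ∈ P) (hv : v ∈ P) (hl : LinearIndependent ℝ ![u, v]) (h : TwoSymmetries A u v) :
    UnknottedRel P A := by
  obtain ⟨f, g, hf, hg, hfA, hgA, hfg⟩ := h
  have hc : Commute (f.toEquiv : Equiv.Perm E) (g.toEquiv : Equiv.Perm E) := by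
    ext x
    exact hfg x
  have hcomm : CommutesNear gens (transAct u v) (pairAct f.toEquiv g.toEquiv hc)
      (fun z : E => z) := by
    intro s hs
    rcases hs with rfl | hs
    · rw [pairAct_fst]
      refine hf.mono fun z hz => ?_
      rw [transAct_apply]
      simp only [toAdd_ofAdd, one_smul, zero_smul, add_zero]
      exact hz.symm
    · rw [mem_singleton_iff] at hs
      subst hs
      rw [pairAct_snd]
      refine hg.mono fun z hz => ?_
      rw [transAct_apply]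
      simp only [toAdd_ofAdd, one_smul, zero_smul, zero_add]
      exact hz.symm
  obtain ⟨Φ, ⟨h1, h2⟩, -⟩ := rigidity (I := 𝓘(ℝ, E)) (I' := 𝓘(ℝ, E)) oneEnded_Zt
    (transAct_properAct hl) (fun γ => transAct_smooth u v γ) (fun γ => pairAct_smooth f g hc γ)
    hcomm endId
  have key : ∀ z, Φ z ∈ A ↔ z ∈ (P : Set E) := by
    refine sets_correspond oneEnded_Zt (transAct_properAct hl) (A := (P : Set E)) (B := A)
      ?_ ?_ h1 ?_
    · intro s hs z
      rcases hs with rfl | hs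
      · rw [transAct_apply]
        simp only [toAdd_ofAdd, one_smul, zero_smul, add_zero]
        exact P.add_mem_iff_left hu
      · rw [mem_singleton_iff] at hs
        subst hs
        rw [transAct_apply]
        simp only [toAdd_ofAdd, one_smul, zero_smul, zero_add]
        exact P.add_mem_iff_left hv
    · intro s hs z
      rcases hs with rfl | hs
      · rw [pairAct_fst]
        exact keeps_iff.1 hfA z
      · rw [mem_singleton_iff] at hs
        subst hs
        rw [pairAct_snd]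
        exact keeps_iff.1 hgA z
    · filter_upwards [h2, hA] with z hz hz'
      rw [hz]
      exact hz'
  refine ⟨Φ, h2, ?_⟩
  ext y
  constructor
  · rintro ⟨z, hz, rfl⟩
    exact (key z).2 hz
  · intro hy
    refine ⟨Φ.symm y, ?_, Φ.apply_symm_apply y⟩
    rw [← key, Φ.apply_symm_apply]
    exact hy

omit [FiniteDimensional ℝ E] in
theorem conj_props {P : Submodule ℝ E} {A : Set E} {Φ : E ≃ₘ^∞⟮𝓘(ℝ, E), 𝓘(ℝ, E)⟯ E}
    (hΦ : ∀ᶠ z in cocompact E, Φ z = z) (hP : Φ '' P = A) {u : E} (hu : u ∈ P) :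
    NearTrans u ((Φ.symm.trans (transD u)).trans Φ) ∧
      Keeps ((Φ.symm.trans (transD u)).trans Φ) A := by
  constructor
  · have h1 : Tendsto (fun z : E => z + u) (cocompact E) (cocompact E) :=
      (Homeomorph.addRight u).isClosedEmbedding.tendsto_cocompact
    filter_upwards [hΦ, h1.eventually hΦ] with z hz hz'
    have h2 : Φ.symm z = z := by
      conv_lhs => rw [← hz]
      exact Φ.symm_apply_apply z
    change Φ (Φ.symm z + u) = z + u
    rw [h2, hz']
  · rw [keeps_iff, ← hP]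
    intro z
    have h2 : ∀ y, y ∈ Φ '' (P : Set E) ↔ Φ.symm y ∈ P := by
      intro y
      constructor
      · rintro ⟨x, hx, rfl⟩
        rwa [Φ.symm_apply_apply]
      · exact fun h => ⟨Φ.symm y, h, Φ.apply_symm_apply y⟩
    rw [h2, h2]
    change Φ.symm (Φ (Φ.symm z + u)) ∈ P ↔ _
    rw [Φ.symm_apply_apply]
    exact P.add_mem_iff_left hu

omit [FiniteDimensional ℝ E] in
theorem two_of_unknotted {P : Submodule ℝ E} {A : Set E} (h : UnknottedRel P A) {u v : E}
    (hu : u ∈ P) (hv : v ∈ P) : TwoSymmetries A u v := by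
  obtain ⟨Φ, h1, h2⟩ := h
  refine ⟨_, _, (conj_props h1 h2 hu).1, (conj_props h1 h2 hv).1, (conj_props h1 h2 hu).2,
    (conj_props h1 h2 hv).2, fun x => ?_⟩
  change Φ (transD u (Φ.symm (Φ (transD v (Φ.symm x)))))
    = Φ (transD v (Φ.symm (Φ (transD u (Φ.symm x)))))
  rw [Diffeomorph.symm_apply_apply, Diffeomorph.symm_apply_apply]
  congr 1
  change Φ.symm x + v + u = Φ.symm x + u + v
  abel

end KProofs

end Pool.Agent.H822.RG
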