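import Pool.Agent.H822.RG.Knot

/-!
# Symmetries which preserve a field of lines or planes, or a partition into lines or planes
-/

open Filter Set Topology Manifold
open scoped ContDiff

namespace Pool.Agent.H822.RG

variable {E : Type} [NormedAddCommGroup E] [NormedSpace ℝ E] [FiniteDimensional ℝ E]

omit [FiniteDimensional ℝ E] in
theorem field_inv {f : E ≃ₘ^∞⟮𝓘(ℝ, E), 𝓘(ℝ, E)⟯ E} {W : E → Submodule ℝ E}
    (h : ∀ p, (W p).map (fderiv ℝ f p : E →ₗ[ℝ] E) = W (f p)) (p v : E) :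
    v ∈ W p ↔ Dm f p v ∈ W (f p) := by
  rw [Dm_eq_fderiv, ← h]
  constructor
  · intro hv
    exact ⟨v, hv, rfl⟩
  · rintro ⟨v', hv', he⟩
    have he' : fderiv ℝ f p v' = fderiv ℝ f p v := he
    have h1 : fderiv ℝ f p (v' - v) = 0 := by rw [map_sub, he', sub_self]
    have h2 : v' - v = 0 := by
      refine Dm_inj (f.isLocalDiffeomorph p) ?_
      rw [Dm_eq_fderiv]
      exact h1
    rw [sub_eq_zero] at h2
    rwa [← h2]

theorem unknotted_of_leaf {P : Submodule ℝ E} {A : Set E} {R : ℝ} {l : E →L[ℝ] ℝ}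
    (hA : ∀ w, R < ‖w‖ → (w ∈ A ↔ w ∈ P)) {u : E} {f : E ≃ₘ^∞⟮𝓘(ℝ, E), 𝓘(ℝ, E)⟯ E}
    (hfA : Keeps f A) {V : Submodule ℝ E} (hu : u ∈ P) (hVP : V ≤ P)
    (hdim : Module.finrank ℝ V ≤ 2) (h : LeafData (fun z : E => z) f u V R l) :
    UnknottedRel P A := by
  obtain ⟨Φ, h1, h2⟩ := h.standard hdim
  have hpow : ∀ (n : ℕ) (x : E), ((f.toEquiv : Equiv.Perm E) ^ n) x ∈ A ↔ x ∈ A := by
    intro n
    induction n with
    | zero => intro x; rfl
    | succ n ih =>
      intro x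
      rw [pow_succ, Equiv.Perm.mul_apply, ih]
      exact keeps_iff.1 hfA x
  have key : ∀ z, Φ z ∈ A ↔ z ∈ P := by
    intro z
    rcases h2 z with h3 | ⟨w, hw1, hw2, hw3⟩
    · rw [h3]
      unfold PsiM Psi
      rw [hpow, hA _ (far_spec h.base.u_ne le_rfl le_rfl)]
      exact P.sub_mem_iff_left (P.smul_mem _ hu)
    · rw [hw3, hA w hw2]
      have h4 : w = z + (w - z) := by abel
      rw [h4]
      exact P.add_mem_iff_left (hVP hw1)
  refine ⟨Φ, h1, ?_⟩
  ext y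
  constructor
  · rintro ⟨z, hz, rfl⟩
    exact (key z).2 hz
  · intro hy
    refine ⟨Φ.symm y, ?_, Φ.apply_symm_apply y⟩
    rw [SetLike.mem_coe, ← key, Φ.apply_symm_apply]
    exact hy

omit [FiniteDimensional ℝ E] in
theorem endData_id {u : E} (hu0 : u ≠ 0) {f : E ≃ₘ^∞⟮𝓘(ℝ, E), 𝓘(ℝ, E)⟯ E} {R : ℝ}
    (hR0 : 0 ≤ R) (hR : ∀ z, R < ‖z‖ → f z = z + u) : EndData (fun z : E => z) f u R :=
  ⟨endId, hu0, hR0, fun _ _ _ _ h => h, fun z _ =>
    (Diffeomorph.refl 𝓘(ℝ, E) E ∞).isLocalDiffeomorph z, hR⟩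

theorem unknotted_of_field {P : Submodule ℝ E} {A : Set E} (hA : FlatNear P A) {u : E}
    {V : Submodule ℝ E} (hu : u ∈ P) (hVP : V ≤ P) (huV : u ∉ V) (hV : V ≠ ⊥)
    (hdim : Module.finrank ℝ V ≤ 2) (h : FieldSymmetry A u V) : UnknottedRel P A := by
  have : ProperSpace E := FiniteDimensional.proper ℝ E
  obtain ⟨f, W, hf, hfA, hW, hWV⟩ := h
  obtain ⟨R, hR0, hR⟩ := exists_norm_of_cocompact ((hf.and hWV).and hA)
  obtain ⟨l, hs⟩ := exists_split huV
  have hu0 : u ≠ 0 := fun h => huV (h ▸ V.zero_mem)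
  have hdata : PlaneData (fun z : E => z) f u V W R := by
    refine ⟨endData_id hu0 hR0 fun z hz => (hR z hz).1.1, field_inv hW, fun z hz v => ?_⟩
    have h1 : Dm (E := E) (fun z : E => z) z v = v := by
      rw [Dm_eq_fderiv, fderiv_fun_id]
      rfl
    rw [h1, (hR z hz).1.2]
  exact unknotted_of_leaf (fun w hw => (hR w hw).2) hfA hu hVP hdim (hdata.leafData hs hV)

theorem unknotted_of_partition {P : Submodule ℝ E} {A : Set E} (hA : FlatNear P A) {u : E}
    {V : Submodule ℝ E} (hu : u ∈ P) (hVP : V ≤ P) (huV : u ∉ V) (hV : V ≠ ⊥)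
    (hdim : Module.finrank ℝ V ≤ 2) (h : PartitionSymmetry A u V) : UnknottedRel P A := by
  have : ProperSpace E := FiniteDimensional.proper ℝ E
  obtain ⟨f, r, hf, hfA, hr, B, hB, hBr⟩ := h
  obtain ⟨R, hR0, hR⟩ := exists_norm_of_cocompact (p := fun z => (f z = z + u ∧ z ∈ B) ∧
    (z ∈ A ↔ z ∈ P)) ((hf.and hB).and hA)
  obtain ⟨l, hs⟩ := exists_split huV
  have hu0 : u ≠ 0 := fun h => huV (h ▸ V.zero_mem)
  have hdata : RelData (fun z : E => z) f u V (fun p q => r p q) R :=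
    ⟨endData_id hu0 hR0 fun z hz => (hR z hz).1.1, hr,
      fun z y hz hy => hBr z (hR z hz).1.2 y (hR y hy).1.2⟩
  exact unknotted_of_leaf (fun w hw => (hR w hw).2) hfA hu hVP hdim (hdata.leafData hs hV)

omit [FiniteDimensional ℝ E] in
theorem partition_of_unknotted {P : Submodule ℝ E} {A : Set E} (h : UnknottedRel P A) {u : E}
    (hu : u ∈ P) (V : Submodule ℝ E) : PartitionSymmetry A u V := by
  obtain ⟨Φ, h1, h2⟩ := h
  refine ⟨(Φ.symm.trans (transD u)).trans Φ,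
    ⟨fun p q => Φ.symm p - Φ.symm q ∈ V, ⟨fun p => ?_, fun {p q} hpq => ?_,
      fun {p q s} hpq hqs => ?_⟩⟩, (conj_props h1 h2 hu).1, (conj_props h1 h2 hu).2,
      fun p q => ?_, _, h1, fun z hz y hy => ?_⟩
  · rw [sub_self]
    exact V.zero_mem
  · rw [← neg_sub]
    exact V.neg_mem hpq
  · have h1 := V.add_mem hpq hqs
    rwa [sub_add_sub_cancel] at h1
  · change Φ.symm (Φ (Φ.symm p + u)) - Φ.symm (Φ (Φ.symm q + u)) ∈ V ↔ Φ.symm p - Φ.symm q ∈ V
    rw [Φ.symm_apply_apply, Φ.symm_apply_apply, add_sub_add_right_eq_sub]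
  · have hz' : Φ.symm z = z := by
      conv_lhs => rw [← show Φ z = z from hz]
      exact Φ.symm_apply_apply z
    have hy' : Φ.symm y = y := by
      conv_lhs => rw [← show Φ y = y from hy]
      exact Φ.symm_apply_apply y
    change Φ.symm z - Φ.symm y ∈ V ↔ z - y ∈ V
    rw [hz', hy']

/-- a group with one end of symmetries of `A`: a smooth proper action on `E` which keeps `P`, and
a smooth action which keeps `A`, such that each generator acts in the same way near infinity -/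
def GroupSymmetry {E : Type} [NormedAddCommGroup E] [NormedSpace ℝ E] (P : Submodule ℝ E)
    (A : Set E) : Prop :=
  ∃ (Γ : Type) (_ : Group Γ) (S : Set Γ) (ρ ρ' : Γ →* Equiv.Perm E), OneEnded Γ S ∧
    ProperAct ρ ∧ SmoothAct 𝓘(ℝ, E) ρ ∧ SmoothAct 𝓘(ℝ, E) ρ' ∧
    ∀ s ∈ S, ρ s '' P = P ∧ ρ' s '' A = A ∧ ∀ᶠ z in cocompact E, ρ' s z = ρ s z

omit [NormedAddCommGroup E] [NormedSpace ℝ E] [FiniteDimensional ℝ E] in
theorem perm_keeps {σ : Equiv.Perm E} {A : Set E} (h : σ '' A = A) (z : E) :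
    σ z ∈ A ↔ z ∈ A := by
  constructor
  · intro hz
    rw [← h] at hz
    obtain ⟨y, hy, hyz⟩ := hz
    rwa [← σ.injective hyz]
  · intro hz
    rw [← h]
    exact ⟨z, hz, rfl⟩

theorem unknotted_of_group {P : Submodule ℝ E} {A : Set E} (hA : FlatNear P A)
    (h : GroupSymmetry P A) : UnknottedRel P A := by
  obtain ⟨Γ, _, S, ρ, ρ', hΓ, hρ, hρc, hρc', hS⟩ := h
  obtain ⟨Φ, ⟨h1, h2⟩, -⟩ := rigidity (I := 𝓘(ℝ, E)) (I' := 𝓘(ℝ, E)) (j := fun z : E => z) hΓ hρ
    hρc hρc' (fun s hs => (hS s hs).2.2.mono fun z hz => hz.symm) endId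
  have key : ∀ z, Φ z ∈ A ↔ z ∈ (P : Set E) :=
    sets_correspond hΓ hρ (A := (P : Set E)) (B := A)
      (fun s hs => perm_keeps (hS s hs).1) (fun s hs => perm_keeps (hS s hs).2.1) h1 (by
        filter_upwards [h2, hA] with z hz hz'
        rw [hz]
        exact hz')
  refine ⟨Φ, h2, ?_⟩
  ext y
  constructor
  · rintro ⟨z, hz, rfl⟩
    exact (key z).2 hz
  · intro hy
    refine ⟨Φ.symm y, ?_, Φ.apply_symm_apply y⟩
    rw [← key, Φ.apply_symm_apply]
    exact hy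

theorem group_of_two {P : Submodule ℝ E} {A : Set E} {u v : E} (hu : u ∈ P) (hv : v ∈ P)
    (hl : LinearIndependent ℝ ![u, v]) (h : TwoSymmetries A u v) : GroupSymmetry P A := by
  obtain ⟨f, g, hf, hg, hfA, hgA, hfg⟩ := h
  have hc : Commute (f.toEquiv : Equiv.Perm E) (g.toEquiv : Equiv.Perm E) := by
    ext x
    exact hfg x
  have htr : ∀ w ∈ P, ((Equiv.addRight w : Equiv.Perm E) '' (P : Set E)) = P := by
    intro w hw
    ext y
    constructor
    · rintro ⟨x, hx, rfl⟩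
      exact P.add_mem hx hw
    · intro hy
      exact ⟨y - w, P.sub_mem hy hw, sub_add_cancel y w⟩
  refine ⟨Zt, inferInstance, gens, transAct u v, pairAct f.toEquiv g.toEquiv hc, oneEnded_Zt,
    transAct_properAct hl, fun γ => transAct_smooth u v γ, fun γ => pairAct_smooth f g hc γ, ?_⟩
  intro s hs
  rcases hs with rfl | hs
  · have h1 : transAct u v (Multiplicative.ofAdd ((1, 0) : ℤ × ℤ)) = Equiv.addRight u := by
      ext z
      rw [transAct_apply]
      simp only [toAdd_ofAdd, one_smul, zero_smul, add_zero]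
      rfl
    rw [pairAct_fst, h1]
    exact ⟨htr u hu, hfA, hf⟩
  · rw [mem_singleton_iff] at hs
    subst hs
    have h1 : transAct u v (Multiplicative.ofAdd ((0, 1) : ℤ × ℤ)) = Equiv.addRight v := by
      ext z
      rw [transAct_apply]
      simp only [toAdd_ofAdd, one_smul, zero_smul, zero_add]
      rfl
    rw [pairAct_snd, h1]
    exact ⟨htr v hv, hgA, hg⟩

theorem field_of_unknotted {P : Submodule ℝ E} {A : Set E} (h : UnknottedRel P A) {u : E}
    (hu : u ∈ P) (V : Submodule ℝ E) : FieldSymmetry A u V := by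
  obtain ⟨Φ, h1, h2⟩ := h
  have hd : ∀ p, HasFDerivAt Φ (fderiv ℝ Φ p) p := fun p =>
    (Φ.contMDiff.contDiff.differentiable (by simp) p).hasFDerivAt
  have hds : ∀ p, HasFDerivAt Φ.symm (fderiv ℝ Φ.symm p) p := fun p =>
    (Φ.symm.contMDiff.contDiff.differentiable (by simp) p).hasFDerivAt
  refine ⟨(Φ.symm.trans (transD u)).trans Φ,
    fun p => V.map (fderiv ℝ Φ (Φ.symm p) : E →ₗ[ℝ] E), (conj_props h1 h2 hu).1,
    (conj_props h1 h2 hu).2, fun p => ?_, ?_⟩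
  · -- the derivative of the conjugate
    set F : E ≃ₘ^∞⟮𝓘(ℝ, E), 𝓘(ℝ, E)⟯ E := (Φ.symm.trans (transD u)).trans Φ with hF
    have hFp : ∀ p, F p = Φ (Φ.symm p + u) := fun _ => rfl
    have h3 : HasFDerivAt (fun p => Φ (Φ.symm p + u))
        ((fderiv ℝ Φ (Φ.symm p + u)).comp (fderiv ℝ Φ.symm p)) p :=
      HasFDerivAt.comp (g := Φ) (f := fun p => Φ.symm p + u) p (hd _) ((hds p).add_const u)
    have h4 : fderiv ℝ F p = (fderiv ℝ Φ (Φ.symm p + u)).comp (fderiv ℝ Φ.symm p) := by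
      have : (F : E → E) = fun p => Φ (Φ.symm p + u) := funext hFp
      rw [this]
      exact h3.fderiv
    have h5 : (fderiv ℝ Φ.symm p).comp (fderiv ℝ Φ (Φ.symm p)) = ContinuousLinearMap.id ℝ E := by
      have h6 : HasFDerivAt (fun x => Φ.symm (Φ x))
          ((fderiv ℝ Φ.symm (Φ (Φ.symm p))).comp (fderiv ℝ Φ (Φ.symm p))) (Φ.symm p) :=
        HasFDerivAt.comp (g := Φ.symm) (f := Φ) (Φ.symm p) (hds _) (hd _)
      rw [Φ.apply_symm_apply] at h6
      have h7 : (fun x => Φ.symm (Φ x)) = fun x => x := funext Φ.symm_apply_apply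
      rw [h7] at h6
      exact h6.unique (hasFDerivAt_id _)
    have h8 : Φ.symm (F p) = Φ.symm p + u := Φ.symm_apply_apply _
    change (V.map (fderiv ℝ Φ (Φ.symm p) : E →ₗ[ℝ] E)).map (fderiv ℝ F p : E →ₗ[ℝ] E)
      = V.map (fderiv ℝ Φ (Φ.symm (F p)) : E →ₗ[ℝ] E)
    rw [h4, h8]
    ext y
    constructor
    · rintro ⟨x, ⟨v, hv, rfl⟩, rfl⟩
      refine ⟨v, hv, ?_⟩
      have h9 := congrArg (fun T : E →L[ℝ] E => T v) h5
      have h9' : fderiv ℝ Φ.symm p (fderiv ℝ Φ (Φ.symm p) v) = v := h9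
      change fderiv ℝ Φ (Φ.symm p + u) v
        = fderiv ℝ Φ (Φ.symm p + u) (fderiv ℝ Φ.symm p (fderiv ℝ Φ (Φ.symm p) v))
      rw [h9']
    · rintro ⟨v, hv, rfl⟩
      refine ⟨fderiv ℝ Φ (Φ.symm p) v, ⟨v, hv, rfl⟩, ?_⟩
      have h9 := congrArg (fun T : E →L[ℝ] E => T v) h5
      have h9' : fderiv ℝ Φ.symm p (fderiv ℝ Φ (Φ.symm p) v) = v := h9
      change fderiv ℝ Φ (Φ.symm p + u) (fderiv ℝ Φ.symm p (fderiv ℝ Φ (Φ.symm p) v))
        = fderiv ℝ Φ (Φ.symm p + u) v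
      rw [h9']
  · have : ProperSpace E := FiniteDimensional.proper ℝ E
    obtain ⟨R, hR0, hR⟩ := exists_norm_of_cocompact h1
    have h3 : ∀ᶠ z in cocompact E, R < ‖z‖ := by
      filter_upwards [(isCompact_closedBall (0 : E) R).compl_mem_cocompact] with z hz
      rwa [mem_compl_iff, mem_closedBall_zero_iff, not_le] at hz
    filter_upwards [h3] with z hz
    have h4 : Φ.symm z = z := by
      conv_lhs => rw [← hR z hz]
      exact Φ.symm_apply_apply z
    have h5 : (Φ : E → E) =ᶠ[𝓝 z] fun x => x := by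
      have : {x : E | R < ‖x‖} ∈ 𝓝 z := (isOpen_lt continuous_const continuous_norm).mem_nhds hz
      exact mem_of_superset this fun x hx => hR x hx
    rw [h4, h5.fderiv_eq, fderiv_fun_id]
    ext y
    constructor
    · rintro ⟨v, hv, rfl⟩
      exact hv
    · exact fun hy => ⟨y, hy, rfl⟩

end Pool.Agent.H822.RG
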