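import Pool.Agent.H822.RG.Psi

/-!
# Diffeomorphisms which preserve a field of planes: the leaves beyond the core
-/

open Filter Set Topology Manifold
open scoped ContDiff

namespace Pool.Agent.H822.RG

section Der

variable {E : Type*} [NormedAddCommGroup E] [NormedSpace ℝ E]
  {M : Type*} [TopologicalSpace M] [ChartedSpace E M]
  {N : Type*} [TopologicalSpace N] [ChartedSpace E N]
  {Q : Type*} [TopologicalSpace Q] [ChartedSpace E Q]

/-- the derivative, as a linear map of the model space -/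
noncomputable def Dm (f : M → N) (p : M) : E →L[ℝ] E := mfderiv 𝓘(ℝ, E) 𝓘(ℝ, E) f p

theorem Dm_comp {g : N → Q} {f : M → N} {p : M}
    (hg : MDifferentiableAt 𝓘(ℝ, E) 𝓘(ℝ, E) g (f p))
    (hf : MDifferentiableAt 𝓘(ℝ, E) 𝓘(ℝ, E) f p) :
    Dm (E := E) (fun x => g (f x)) p = (Dm g (f p)).comp (Dm f p) :=
  mfderiv_comp p hg hf

theorem Dm_congr {g f : M → N} {p : M} (h : g =ᶠ[𝓝 p] f) : Dm (E := E) g p = Dm f p :=
  h.mfderiv_eq

theorem Dm_eq_fderiv (f : E → E) (p : E) : Dm (E := E) f p = fderiv ℝ f p := mfderiv_eq_fderiv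

theorem Dm_inj {f : M → N} {x : M} (h : IsLocalDiffeomorphAt 𝓘(ℝ, E) 𝓘(ℝ, E) ∞ f x)
    {v : E} (hv : Dm f x v = 0) : v = 0 := by
  have h1 := h.mfderivToContinuousLinearEquiv_coe (by simp)
  unfold Dm at hv
  rw [← h1] at hv
  exact (h.mfderivToContinuousLinearEquiv (by simp)).injective (hv.trans (map_zero _).symm)

end Der

section Pow

variable {E : Type*} [NormedAddCommGroup E] [NormedSpace ℝ E]
  {M : Type*} [TopologicalSpace M] [ChartedSpace E M]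

/-- the iterates -/
noncomputable def powD (f : M ≃ₘ^∞⟮𝓘(ℝ, E), 𝓘(ℝ, E)⟯ M) : ℕ → M ≃ₘ^∞⟮𝓘(ℝ, E), 𝓘(ℝ, E)⟯ M
  | 0 => Diffeomorph.refl _ _ _
  | n + 1 => (powD f n).trans f

theorem powD_apply (f : M ≃ₘ^∞⟮𝓘(ℝ, E), 𝓘(ℝ, E)⟯ M) (n : ℕ) (x : M) :
    powD f n x = ((f.toEquiv : Equiv.Perm M) ^ n) x := by
  induction n with
  | zero => rfl
  | succ n ih =>
    rw [pow_succ', Equiv.Perm.mul_apply, ← ih]
    rfl

theorem inv_pow_field (f : M ≃ₘ^∞⟮𝓘(ℝ, E), 𝓘(ℝ, E)⟯ M) {W : M → Submodule ℝ E}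
    (h : ∀ p v, v ∈ W p ↔ Dm f p v ∈ W (f p)) (n : ℕ) (p : M) (v : E) :
    v ∈ W p ↔ Dm (powD f n) p v ∈ W (powD f n p) := by
  induction n with
  | zero =>
    have h1 : Dm (E := E) (powD f 0) p = ContinuousLinearMap.id ℝ E := mfderiv_id
    rw [h1]
    rfl
  | succ n ih =>
    rw [ih, h]
    have h1 : Dm (E := E) (powD f (n + 1)) p = (Dm f (powD f n p)).comp (Dm (powD f n) p) :=
      Dm_comp (f.mdifferentiable (by simp) _) ((powD f n).mdifferentiable (by simp) _)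
    rw [h1]
    rfl

end Pow

section Plane

variable {E : Type*} [NormedAddCommGroup E] [NormedSpace ℝ E] [FiniteDimensional ℝ E]
  {M : Type*} [TopologicalSpace M] [T2Space M] [ChartedSpace E M]

/-- the data: a diffeomorphism which is a translation near infinity -/
structure EndData (j : E → M) (f : M ≃ₘ^∞⟮𝓘(ℝ, E), 𝓘(ℝ, E)⟯ M) (u : E) (R : ℝ) : Prop where
  hend : StandardEnd j
  u_ne : u ≠ 0
  R_nonneg : 0 ≤ R
  inj : InjOn j {z | R < ‖z‖}
  ld : ∀ z, R < ‖z‖ → IsLocalDiffeomorphAt 𝓘(ℝ, E) 𝓘(ℝ, E) ∞ j z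
  tr : ∀ z, R < ‖z‖ → f (j z) = j (z + u)

/-- the data: a diffeomorphism which is a translation near infinity and preserves a field of
planes which are parallel near infinity -/
structure PlaneData (j : E → M) (f : M ≃ₘ^∞⟮𝓘(ℝ, E), 𝓘(ℝ, E)⟯ M) (u : E)
    (V : Submodule ℝ E) (W : M → Submodule ℝ E) (R : ℝ) : Prop where
  base : EndData j f u R
  inv : ∀ p v, v ∈ W p ↔ Dm f p v ∈ W (f p)
  par : ∀ z, R < ‖z‖ → ∀ v, v ∈ V ↔ Dm j z v ∈ W (j z)

variable {j : E → M} {f : M ≃ₘ^∞⟮𝓘(ℝ, E), 𝓘(ℝ, E)⟯ M} {u : E} {V : Submodule ℝ E}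
  {W : M → Submodule ℝ E} {R : ℝ}

/-- the map `Ψ` -/
noncomputable def PsiM (j : E → M) (f : M ≃ₘ^∞⟮𝓘(ℝ, E), 𝓘(ℝ, E)⟯ M) (R : ℝ) (u : E) : E → M :=
  Psi (f.toEquiv : Equiv.Perm M) j R u

namespace EndData

theorem psi_near (h : EndData j f u R) (z : E) : ∃ m : ℕ, ∀ y, ‖y‖ ≤ ‖z‖ + 1 →
    PsiM j f R u y = powD f m (j (y - (m : ℝ) • u)) ∧ R < ‖y - (m : ℝ) • u‖ := by
  refine ⟨far R u (‖z‖ + 1), fun y hy => ⟨?_, far_spec h.u_ne hy le_rfl⟩⟩
  rw [powD_apply]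
  exact psi_ball h.u_ne h.tr hy

theorem psi_ev (h : EndData j f u R) (z : E) : ∃ m : ℕ, R < ‖z - (m : ℝ) • u‖ ∧
    PsiM j f R u =ᶠ[𝓝 z] fun y => powD f m (j (y - (m : ℝ) • u)) := by
  obtain ⟨m, hm⟩ := h.psi_near z
  refine ⟨m, (hm z (by linarith [norm_nonneg z])).2, ?_⟩
  have h1 : {y : E | ‖y‖ < ‖z‖ + 1} ∈ 𝓝 z :=
    (isOpen_lt continuous_norm continuous_const).mem_nhds (show ‖z‖ < ‖z‖ + 1 from lt_add_one _)
  exact mem_of_superset h1 fun y hy => (hm y (le_of_lt hy)).1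

omit [T2Space M] [FiniteDimensional ℝ E] [TopologicalSpace M] [ChartedSpace E M] in
theorem sub_localDiffeo (c z : E) :
    IsLocalDiffeomorphAt 𝓘(ℝ, E) 𝓘(ℝ, E) ∞ (fun y : E => y - c) z := by
  have h1 := (transD (-c)).isLocalDiffeomorph z
  have h2 : (transD (-c) : E → E) = fun y : E => y - c := by
    funext y
    exact (sub_eq_add_neg y c).symm
  rwa [h2] at h1

theorem psi_ld (h : EndData j f u R) (z : E) :
    IsLocalDiffeomorphAt 𝓘(ℝ, E) 𝓘(ℝ, E) ∞ (PsiM j f R u) z := by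
  obtain ⟨m, hm, he⟩ := h.psi_ev z
  have h1 := ((sub_localDiffeo ((m : ℝ) • u) z).comp 𝓘(ℝ, E) M (h.ld _ hm)).comp 𝓘(ℝ, E) M
    ((powD f m).isLocalDiffeomorph _)
  exact localDiffeo_congr h1 he

theorem psi_cont (h : EndData j f u R) : Continuous (PsiM j f R u) :=
  continuous_iff_continuousAt.2 fun z => (h.psi_ld z).contMDiffAt.continuousAt

/-- the structure of `Ψ` near a point which is mapped to the end -/
theorem end_local (h : EndData j f u R) {y0 w1 : E} (hw : R < ‖w1‖)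
    (hy : PsiM j f R u y0 = j w1) : ∃ g : E → E, g y0 = w1 ∧
      IsLocalDiffeomorphAt 𝓘(ℝ, E) 𝓘(ℝ, E) ∞ g y0 ∧ ∀ᶠ y in 𝓝 y0,
      j (g y) = PsiM j f R u y ∧ R < ‖g y‖ ∧ DifferentiableAt ℝ g y := by
  set L := (h.ld w1 hw).localInverse with hL
  have hL1 : j w1 ∈ L.source := (h.ld w1 hw).localInverse_mem_source
  have hL2 : L (j w1) = w1 :=
    (h.ld w1 hw).localInverse_left_inv (h.ld w1 hw).localInverse_mem_target
  have hL3 : ∀ p ∈ L.source, j (L p) = p := fun p hp => (h.ld w1 hw).localInverse_right_inv hp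
  have hL4 : ∀ p ∈ L.source, IsLocalDiffeomorphAt 𝓘(ℝ, E) 𝓘(ℝ, E) ∞ L p :=
    fun p hp => L.isLocalDiffeomorphAt _ _ _ hp
  have hld : ∀ y, PsiM j f R u y ∈ L.source →
      IsLocalDiffeomorphAt 𝓘(ℝ, E) 𝓘(ℝ, E) ∞ (fun y => L (PsiM j f R u y)) y :=
    fun y hy => (h.psi_ld y).comp 𝓘(ℝ, E) E (hL4 _ hy)
  have hopen : IsOpen {y | PsiM j f R u y ∈ L.source} := L.open_source.preimage h.psi_cont
  have hy0 : PsiM j f R u y0 ∈ L.source := by rw [hy]; exact hL1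
  have hn : R < ‖L (PsiM j f R u y0)‖ := by rw [hy, hL2]; exact hw
  refine ⟨fun y => L (PsiM j f R u y), (congrArg L hy).trans hL2, hld y0 hy0, ?_⟩
  have h1 : ∀ᶠ y in 𝓝 y0, R < ‖L (PsiM j f R u y)‖ :=
    (hld y0 hy0).contMDiffAt.continuousAt.norm.eventually (lt_mem_nhds hn)
  have h2 : ∀ᶠ y in 𝓝 y0, PsiM j f R u y ∈ L.source := hopen.mem_nhds hy0
  filter_upwards [h1, h2] with y hy1 hy2
  have hd : MDifferentiableAt 𝓘(ℝ, E) 𝓘(ℝ, E) (fun y => L (PsiM j f R u y)) y :=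
    (hld y hy2).mdifferentiableAt (by simp)
  exact ⟨hL3 _ hy2, hy1, hd.differentiableAt⟩

end EndData

namespace PlaneData

theorem psi_par (h : PlaneData j f u V W R) (z v : E) :
    v ∈ V ↔ Dm (PsiM j f R u) z v ∈ W (PsiM j f R u z) := by
  obtain ⟨m, hm, he⟩ := h.base.psi_ev z
  rw [Dm_congr he, he.eq_of_nhds]
  have h1 : Dm (E := E) (fun y => powD f m (j (y - (m : ℝ) • u))) z
      = (Dm (powD f m) (j (z - (m : ℝ) • u))).comp (Dm j (z - (m : ℝ) • u)) := by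
    have h2 : Dm (E := E) (fun y => j (y - (m : ℝ) • u)) z = Dm j (z - (m : ℝ) • u) := by
      rw [Dm_comp (g := j) (f := fun y : E => y - (m : ℝ) • u)
        ((h.base.ld _ hm).mdifferentiableAt (by simp))
        ((EndData.sub_localDiffeo ((m : ℝ) • u) z).mdifferentiableAt (by simp)), Dm_eq_fderiv]
      rw [fderiv_sub_const, fderiv_fun_id]
      rfl
    rw [Dm_comp (g := powD f m) (f := fun y : E => j (y - (m : ℝ) • u))
      ((powD f m).mdifferentiable (by simp) _)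
      (((EndData.sub_localDiffeo ((m : ℝ) • u) z).comp 𝓘(ℝ, E) M
        (h.base.ld _ hm)).mdifferentiableAt (by simp)), h2]
  rw [h1, h.par _ hm, inv_pow_field f h.inv m]
  rfl

/-- the structure of `Ψ` near a point which is mapped to the end -/
theorem leaf_local (h : PlaneData j f u V W R) {y0 w1 : E} (hw : R < ‖w1‖)
    (hy : PsiM j f R u y0 = j w1) : ∃ g : E → E, g y0 = w1 ∧
      IsLocalDiffeomorphAt 𝓘(ℝ, E) 𝓘(ℝ, E) ∞ g y0 ∧ ∀ᶠ y in 𝓝 y0,
      j (g y) = PsiM j f R u y ∧ R < ‖g y‖ ∧ DifferentiableAt ℝ g y ∧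
        ∀ v ∈ V, fderiv ℝ g y v ∈ V := by
  obtain ⟨g, hg1, hg2, hg3⟩ := h.base.end_local hw hy
  refine ⟨g, hg1, hg2, ?_⟩
  filter_upwards [hg3, hg3.eventually_nhds] with y hy1 hy2
  refine ⟨hy1.1, hy1.2.1, hy1.2.2, fun v hv => ?_⟩
  have h3 : (fun y => j (g y)) =ᶠ[𝓝 y] PsiM j f R u := hy2.mono fun y' hy' => hy'.1
  have h4 := Dm_congr (E := E) h3
  rw [Dm_comp (g := j) (f := g) ((h.base.ld _ hy1.2.1).mdifferentiableAt (by simp))
    hy1.2.2.mdifferentiableAt, Dm_eq_fderiv] at h4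
  rw [h.par _ hy1.2.1, hy1.1]
  have h5 : Dm j (g y) (fderiv ℝ g y v) = Dm (PsiM j f R u) y v := by
    rw [← h4]
    rfl
  rw [h5]
  exact (h.psi_par y v).1 hv

end PlaneData

/-- the data: a diffeomorphism which is a translation near infinity and preserves a relation
which is the partition into the planes parallel to `V` near infinity -/
structure RelData (j : E → M) (f : M ≃ₘ^∞⟮𝓘(ℝ, E), 𝓘(ℝ, E)⟯ M) (u : E)
    (V : Submodule ℝ E) (r : M → M → Prop) (R : ℝ) : Prop where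
  base : EndData j f u R
  inv : ∀ p q, r (f p) (f q) ↔ r p q
  par : ∀ z y, R < ‖z‖ → R < ‖y‖ → (r (j z) (j y) ↔ z - y ∈ V)

namespace RelData

variable {r : M → M → Prop}

omit [FiniteDimensional ℝ E] [T2Space M] in
theorem inv_pow (h : RelData j f u V r R) (n : ℕ) (p q : M) :
    r (powD f n p) (powD f n q) ↔ r p q := by
  induction n with
  | zero => rfl
  | succ n ih => exact (h.inv _ _).trans ih

theorem psi_rel (h : RelData j f u V r R) (z y : E) :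
    r (PsiM j f R u z) (PsiM j f R u y) ↔ z - y ∈ V := by
  have h1 : ∀ x : E, ‖x‖ ≤ max ‖z‖ ‖y‖ → PsiM j f R u x
      = powD f (far R u (max ‖z‖ ‖y‖)) (j (x - (far R u (max ‖z‖ ‖y‖) : ℝ) • u)) := by
    intro x hx
    rw [powD_apply]
    exact psi_ball h.base.u_ne h.base.tr hx
  rw [h1 z (le_max_left _ _), h1 y (le_max_right _ _), h.inv_pow,
    h.par _ _ (far_spec h.base.u_ne (le_max_left _ _) le_rfl)
      (far_spec h.base.u_ne (le_max_right _ _) le_rfl), sub_sub_sub_cancel_right]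

end RelData

end Plane

end Pool.Agent.H822.RG
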