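import Pool.Agent.H822.RG.Trans

/-!
# Rigidity of germs at infinity: the theorems
-/

open Filter Set Topology Manifold
open scoped ContDiff

namespace Pool.Agent.H822.RG

section General

variable {F : Type*} [NormedAddCommGroup F] [NormedSpace ℝ F] {H : Type*}
    [TopologicalSpace H] {I : ModelWithCorners ℝ F H}
  {F' : Type*} [NormedAddCommGroup F'] [NormedSpace ℝ F'] {H' : Type*}
    [TopologicalSpace H'] {I' : ModelWithCorners ℝ F' H'}
  {X : Type*} [TopologicalSpace X] [ChartedSpace H X]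
  {M : Type*} [TopologicalSpace M] [ChartedSpace H' M]
  {Γ : Type*} [Group Γ] {S : Set Γ}

omit [ChartedSpace H X] in
theorem properAt_of {ρ : Γ →* Equiv.Perm X} (h : ProperAct ρ) : ProperAt ρ (cocompact X) := by
  intro A hA
  obtain ⟨K, hK, hKA⟩ := mem_cocompact.1 hA
  refine (h K hK).subset ?_
  rintro γ ⟨x, hx, hx'⟩
  refine ⟨x, ?_, ?_⟩
  · by_contra hcon
    exact hx (hKA hcon)
  · by_contra hcon
    exact hx' (hKA hcon)

omit [ChartedSpace H X] in
theorem noncompact_of [Nonempty X] (hΓ : OneEnded Γ S) {ρ : Γ →* Equiv.Perm X}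
    (h : ProperAct ρ) : NoncompactSpace X := by
  rw [← not_compactSpace_iff]
  intro hcon
  have h1 := h univ isCompact_univ
  have := hΓ.inf
  obtain ⟨x⟩ := ‹Nonempty X›
  refine h1.not_infinite ?_
  have h2 : {γ : Γ | ∃ y ∈ (univ : Set X), ρ γ y ∈ (univ : Set X)} = univ :=
    eq_univ_of_forall fun γ => ⟨x, mem_univ _, mem_univ _⟩
  rw [h2]
  exact infinite_univ

/-- The rigidity theorem. -/
theorem rigidity [T2Space X] [T2Space M] [LocallyCompactSpace X]
    [LocallyCompactSpace M] [Nonempty X] [PreconnectedSpace M] (hΓ : OneEnded Γ S)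
    {ρ : Γ →* Equiv.Perm X} {ρ' : Γ →* Equiv.Perm M} {j : X → M}
    (hρ : ProperAct ρ) (hρc : SmoothAct I ρ) (hρc' : SmoothAct I' ρ')
    (hj : CommutesNear S ρ ρ' j) (hjd : DiffeoNear I I' j) :
    ∃! Φ : X ≃ₘ^∞⟮I, I'⟯ M, (∀ γ x, Φ (ρ γ x) = ρ' γ (Φ x)) ∧
      ∀ᶠ x in cocompact X, Φ x = j x := by
  have := noncompact_of hΓ hρ
  obtain ⟨Φ, h1, h2⟩ := exists_diffeomorph ρ ρ' j hΓ (properAt_of hρ) hρc hρc' hj
    hjd.localDiffeo hjd.inj hjd.proper
  refine ⟨Φ, ⟨h1, h2⟩, ?_⟩
  rintro Ψ ⟨h3, h4⟩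
  refine unique_diffeomorph ρ ρ' hΓ (properAt_of hρ) h3 h1 ?_
  exact (h4.and h2).mono fun x hx => hx.1.trans hx.2.symm

end General

section Euclid

variable {E : Type*} [NormedAddCommGroup E] [NormedSpace ℝ E] [FiniteDimensional ℝ E]
  {M : Type*} [TopologicalSpace M] [T2Space M] [ChartedSpace E M]
  {j : E → M}

omit [T2Space M] [ChartedSpace E M] in
theorem transAct_properAct {u v : E} (h : LinearIndependent ℝ ![u, v]) :
    ProperAct (transAct u v) := by
  intro K hK
  refine (transAct_proper h _ hK.compl_mem_cocompact).subset ?_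
  rintro γ ⟨y, hy, hy'⟩
  exact ⟨y, fun h => h hy, fun h => h hy'⟩

theorem standard_of_act [PreconnectedSpace M] (hend : StandardEnd j)
    {Γ : Type*} [Group Γ] {S : Set Γ} (hΓ : OneEnded Γ S)
    {ρ : Γ →* Equiv.Perm E} {ρ' : Γ →* Equiv.Perm M} (hρ : ProperAct ρ)
    (hρc : SmoothAct 𝓘(ℝ, E) ρ) (hρc' : SmoothAct 𝓘(ℝ, E) ρ') (hj : CommutesNear S ρ ρ' j) :
    StandardRel j := by
  have : LocallyCompactSpace M := ChartedSpace.locallyCompactSpace E M
  obtain ⟨Φ, h1, -⟩ := rigidity hΓ hρ hρc hρc' hj hend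
  exact ⟨Φ, h1.2⟩

theorem standard_of_pair [PreconnectedSpace M] (hend : StandardEnd j) {u v : E}
    (hl : LinearIndependent ℝ ![u, v]) (h : CommutingPair j u v) : StandardRel j := by
  obtain ⟨f, g, hf, hg, hfg⟩ := h
  have hc : Commute (f.toEquiv : Equiv.Perm M) (g.toEquiv : Equiv.Perm M) := by
    ext x
    exact hfg x
  refine standard_of_act hend oneEnded_Zt (ρ := transAct u v)
    (ρ' := pairAct f.toEquiv g.toEquiv hc) (transAct_properAct hl)
    (fun γ => transAct_smooth u v γ) (fun γ => pairAct_smooth f g hc γ) ?_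
  intro s hs
  rcases hs with rfl | hs
  · rw [pairAct_fst]
    refine hf.mono fun z hz => ?_
    rw [transAct_apply]
    simp only [toAdd_ofAdd, one_smul, zero_smul, add_zero]
    exact hz.symm
  · rw [mem_singleton_iff] at hs
    subst hs
    rw [pairAct_snd]
    refine hg.mono fun z hz => ?_
    rw [transAct_apply]
    simp only [toAdd_ofAdd, one_smul, zero_smul, zero_add]
    exact hz.symm

/-- the translation, as a diffeomorphism -/
def transD (u : E) : E ≃ₘ^∞⟮𝓘(ℝ, E), 𝓘(ℝ, E)⟯ E where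
  toEquiv := Equiv.addRight u
  contMDiff_toFun := by
    have : ContDiff ℝ ∞ fun z : E => z + u := contDiff_id.add contDiff_const
    exact this.contMDiff
  contMDiff_invFun := by
    have : ContDiff ℝ ∞ fun z : E => z + -u := contDiff_id.add contDiff_const
    exact this.contMDiff

omit [FiniteDimensional ℝ E] [T2Space M] in
theorem pair_of_standard (h : StandardRel j) (u v : E) : CommutingPair j u v := by
  obtain ⟨Φ, hΦ⟩ := h
  have key : ∀ u : E, TranslationNear j u ((Φ.symm.trans (transD u)).trans Φ) := by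
    intro u
    have h1 : Tendsto (fun z : E => z + u) (cocompact E) (cocompact E) :=
      (Homeomorph.addRight u).isClosedEmbedding.tendsto_cocompact
    filter_upwards [hΦ, h1.eventually hΦ] with z hz hz'
    rw [← hz, ← hz']
    change Φ (transD u (Φ.symm (Φ z))) = Φ (z + u)
    rw [Diffeomorph.symm_apply_apply]
    rfl
  refine ⟨_, _, key u, key v, fun x => ?_⟩
  change Φ (transD u (Φ.symm (Φ (transD v (Φ.symm x)))))
    = Φ (transD v (Φ.symm (Φ (transD u (Φ.symm x)))))
  rw [Diffeomorph.symm_apply_apply, Diffeomorph.symm_apply_apply]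
  congr 1
  change Φ.symm x + v + u = Φ.symm x + u + v
  abel

omit [FiniteDimensional ℝ E] [T2Space M] in
theorem act_of_standard (h : StandardRel j) {Γ : Type*} [Group Γ] (S : Set Γ)
    (ρ : Γ →* Equiv.Perm E) (hρ : SmoothAct 𝓘(ℝ, E) ρ) :
    ∃ ρ' : Γ →* Equiv.Perm M, SmoothAct 𝓘(ℝ, E) ρ' ∧ CommutesNear S ρ ρ' j := by
  obtain ⟨Φ, hΦ⟩ := h
  refine ⟨(MulEquiv.toMonoidHom (Equiv.permCongrHom Φ.toEquiv)).comp ρ, ?_, ?_⟩
  · intro γ
    exact (Φ.contMDiff.comp (hρ γ)).comp Φ.symm.contMDiff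
  · intro s _
    have h1 := tendsto_cocompact_of ρ (fun γ => (hρ γ).continuous) s
    filter_upwards [hΦ, h1.eventually hΦ] with z hz hz'
    rw [← hz, ← hz']
    change Φ (ρ s z) = Φ (ρ s (Φ.symm (Φ z)))
    rw [Diffeomorph.symm_apply_apply]

end Euclid

end Pool.Agent.H822.RG
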