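import Pool.Agent.H822.RG.Single

/-!
# Manifolds with an end which is a product of a compact manifold and a vector space
-/

open Filter Set Topology Manifold
open scoped ContDiff

namespace Pool.Agent.H822.RG

section PDefs

variable {F : Type*} [NormedAddCommGroup F] [NormedSpace ℝ F] {H : Type*}
    [TopologicalSpace H] (I : ModelWithCorners ℝ F H)
  {F' : Type*} [NormedAddCommGroup F'] [NormedSpace ℝ F'] {H' : Type*}
    [TopologicalSpace H'] (I' : ModelWithCorners ℝ F' H')
  {X : Type*} [TopologicalSpace X] [ChartedSpace H X]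
  {M : Type*} [TopologicalSpace M] [ChartedSpace H' M]

/-- there is a diffeomorphism of `X` onto `M` which agrees with `j` near infinity -/
def ExtendsToDiffeo (j : X → M) : Prop :=
  ∃ Φ : X ≃ₘ^∞⟮I, I'⟯ M, ∀ᶠ x in cocompact X, Φ x = j x

/-- the action `ρ` on `X` extends, near infinity and for the generators, to a smooth action
on `M` -/
def ActionExtends {Γ : Type*} [Group Γ] (S : Set Γ) (ρ : Γ →* Equiv.Perm X) (j : X → M) : Prop :=
  ∃ ρ' : Γ →* Equiv.Perm M, SmoothAct I' ρ' ∧ CommutesNear S ρ ρ' j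

/-- near infinity the self-diffeomorphism `f` of `M` is the translation with `u` of the second
factor -/
def ShiftNear {K E : Type*} [TopologicalSpace K] [TopologicalSpace E] [Add E] {M : Type*}
    [TopologicalSpace M] [ChartedSpace H' M] (j : K × E → M) (u : E) (f : M ≃ₘ^∞⟮I', I'⟯ M) :
    Prop :=
  ∀ᶠ x in cocompact (K × E), f (j x) = j (x.1, x.2 + u)

/-- two commuting self-diffeomorphisms of `M` which are near infinity the translations with `u`
and with `v` of the second factor -/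
def CommutingShifts {K E : Type*} [TopologicalSpace K] [TopologicalSpace E] [Add E] {M : Type*}
    [TopologicalSpace M] [ChartedSpace H' M] (j : K × E → M) (u v : E) : Prop :=
  ∃ f g : M ≃ₘ^∞⟮I', I'⟯ M, ShiftNear I' j u f ∧ ShiftNear I' j v g ∧ ∀ x, f (g x) = g (f x)

end PDefs

section Ext

variable {F : Type*} [NormedAddCommGroup F] [NormedSpace ℝ F] {H : Type*}
    [TopologicalSpace H] {I : ModelWithCorners ℝ F H}
  {F' : Type*} [NormedAddCommGroup F'] [NormedSpace ℝ F'] {H' : Type*}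
    [TopologicalSpace H'] {I' : ModelWithCorners ℝ F' H'}
  {X : Type*} [TopologicalSpace X] [ChartedSpace H X]
  {M : Type*} [TopologicalSpace M] [ChartedSpace H' M]

theorem action_of_diffeo {j : X → M} (h : ExtendsToDiffeo I I' j) {Γ : Type*} [Group Γ]
    (S : Set Γ) (ρ : Γ →* Equiv.Perm X) (hρ : SmoothAct I ρ) : ActionExtends I' S ρ j := by
  obtain ⟨Φ, hΦ⟩ := h
  refine ⟨(MulEquiv.toMonoidHom (Equiv.permCongrHom Φ.toEquiv)).comp ρ, ?_, ?_⟩
  · intro γ
    exact (Φ.contMDiff.comp (hρ γ)).comp Φ.symm.contMDiff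
  · intro s _
    have h1 := tendsto_cocompact_of ρ (fun γ => (hρ γ).continuous) s
    filter_upwards [hΦ, h1.eventually hΦ] with z hz hz'
    rw [← hz, ← hz']
    change Φ (ρ s z) = Φ (ρ s (Φ.symm (Φ z)))
    rw [Diffeomorph.symm_apply_apply]

open Classical in
/-- the extension of a bijection -/
noncomputable def extX (j : X → M) (U : Set X) (g : X → X) : M → M := fun p =>
  if h : ∃ z ∈ U, j z = p then j (g h.choose) else p

omit [TopologicalSpace X] [ChartedSpace H X] [TopologicalSpace M] [ChartedSpace H' M] in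
theorem extX_apply {j : X → M} {U : Set X} (hinj : InjOn j U) (g : X → X) {z : X} (hz : z ∈ U) :
    extX j U g (j z) = j (g z) := by
  have h : ∃ w ∈ U, j w = j z := ⟨z, hz, rfl⟩
  unfold extX
  rw [dif_pos h]
  have h1 : h.choose = z := hinj h.choose_spec.1 hz h.choose_spec.2
  rw [h1]

omit [TopologicalSpace X] [ChartedSpace H X] [TopologicalSpace M] [ChartedSpace H' M] in
theorem extX_off {j : X → M} {U : Set X} (g : X → X) {p : M} (hp : ¬ ∃ z ∈ U, j z = p) :
    extX j U g p = p := by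
  unfold extX
  rw [dif_neg hp]

omit [TopologicalSpace X] [ChartedSpace H X] [TopologicalSpace M] [ChartedSpace H' M] in
theorem extX_inv {j : X → M} {U : Set X} (hinj : InjOn j U) {g g' : X → X}
    (hgU : ∀ z ∈ U, g z ∈ U) (h : ∀ z, g' (g z) = z) (p : M) :
    extX j U g' (extX j U g p) = p := by
  by_cases hp : ∃ z ∈ U, j z = p
  · obtain ⟨z, hz, rfl⟩ := hp
    rw [extX_apply hinj g hz, extX_apply hinj g' (hgU z hz), h]
  · rw [extX_off g hp, extX_off g' hp]

theorem isClosed_imageX [T2Space M] [LocallyCompactSpace M] {j : X → M}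
    (hp : Tendsto j (cocompact X) (cocompact M)) {U C : Set X} (hC : IsClosed C) (hCU : C ⊆ U)
    (hld : ∀ z ∈ U, IsLocalDiffeomorphAt I I' ∞ j z) : IsClosed (j '' C) := by
  rw [← isOpen_compl_iff, isOpen_iff_mem_nhds]
  intro p hpC
  obtain ⟨N, hN, hpN⟩ := exists_compact_mem_nhds p
  have h1 : j ⁻¹' Nᶜ ∈ cocompact X := hp hN.compl_mem_cocompact
  obtain ⟨K, hK, hKA⟩ := mem_cocompact.1 h1
  have h2 : IsCompact (K ∩ C) := hK.inter_right hC
  have h3 : ContinuousOn j (K ∩ C) := by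
    intro z hz
    exact (hld z (hCU hz.2)).contMDiffAt.continuousAt.continuousWithinAt
  have h4 : IsClosed (j '' (K ∩ C)) := (h2.image_of_continuousOn h3).isClosed
  have h5 : p ∉ j '' (K ∩ C) := fun h => hpC (image_mono inter_subset_right h)
  filter_upwards [hpN, h4.isOpen_compl.mem_nhds h5] with q hq hq'
  rintro ⟨z, hz, rfl⟩
  refine hq' ⟨z, ⟨?_, hz⟩, rfl⟩
  by_contra hcon
  exact hKA hcon hq

theorem extX_smooth {j : X → M} {U C : Set X} (hU : IsOpen U) (hinj : InjOn j U)
    (hld : ∀ z ∈ U, IsLocalDiffeomorphAt I I' ∞ j z) (hcl : IsClosed (j '' C)) (hCU : C ⊆ U)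
    {g : X → X} (hg : ContMDiff I I ∞ g) (hgU : ∀ z ∈ U, g z ∈ U)
    (hid : ∀ z, z ∉ C → g z = z) : ContMDiff I' I' ∞ (extX j U g) := by
  intro p
  by_cases hp : ∃ z ∈ U, j z = p
  · obtain ⟨z, hz, rfl⟩ := hp
    set Φ := (hld z hz).localInverse with hΦ
    have h1 : Φ (j z) = z := (hld z hz).localInverse_left_inv (hld z hz).localInverse_mem_target
    have h2 : ContMDiffAt I' I ∞ Φ (j z) := (hld z hz).localInverse_contMDiffAt
    have h3 : ∀ᶠ q in 𝓝 (j z), j (Φ q) = q := (hld z hz).localInverse_eventuallyEq_right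
    have h4 : ∀ᶠ q in 𝓝 (j z), Φ q ∈ U := by
      refine h2.continuousAt.eventually (hU.mem_nhds ?_)
      rw [h1]
      exact hz
    have h5 : extX j U g =ᶠ[𝓝 (j z)] fun q => j (g (Φ q)) := by
      filter_upwards [h3, h4] with q hq hq'
      conv_lhs => rw [← hq]
      exact extX_apply hinj g hq'
    refine ContMDiffAt.congr_of_eventuallyEq ?_ h5
    have h7 : ContMDiffAt I I' ∞ j (g (Φ (j z))) := by
      rw [h1]
      exact (hld _ (hgU z hz)).contMDiffAt
    exact (h7.comp _ (hg _)).comp _ h2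
  · have h1 : p ∉ j '' C := by
      rintro ⟨z, hz, rfl⟩
      exact hp ⟨z, hCU hz, rfl⟩
    have h2 : extX j U g =ᶠ[𝓝 p] fun q => q := by
      filter_upwards [hcl.isOpen_compl.mem_nhds h1] with q hq
      by_cases hq' : ∃ z ∈ U, j z = q
      · obtain ⟨z, hz, rfl⟩ := hq'
        rw [extX_apply hinj g hz]
        have h3 : z ∉ C := fun hcon => hq ⟨z, hcon, rfl⟩
        rw [hid z h3]
      · exact extX_off g hq'
    exact contMDiffAt_id.congr_of_eventuallyEq h2

/-- diffeomorphisms of `X` which are the identity on a large compact set extend -/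
theorem exists_extendX [T2Space X] [LocallyCompactSpace X] [T2Space M] [LocallyCompactSpace M]
    {j : X → M} (hend : DiffeoNear I I' j) : ∃ K : Set X, IsCompact K ∧
    ∀ ψ : X ≃ₘ^∞⟮I, I⟯ X, (∀ z ∈ K, ψ z = z) →
      ∃ f : M ≃ₘ^∞⟮I', I'⟯ M, ∀ z, z ∉ K → f (j z) = j (ψ z) := by
  obtain ⟨A, hA, hinj⟩ := hend.inj
  obtain ⟨K0, hK0, hKA⟩ := mem_cocompact.1 (inter_mem hA hend.localDiffeo)
  obtain ⟨K1, hK1, hK01⟩ := exists_compact_superset hK0
  set U : Set X := K0ᶜ with hU
  set C : Set X := (interior K1)ᶜ with hC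
  have hUo : IsOpen U := hK0.isClosed.isOpen_compl
  have hCc : IsClosed C := isOpen_interior.isClosed_compl
  have hCU : C ⊆ U := compl_subset_compl.2 hK01
  have hinjU : InjOn j U := fun x hx y hy h => hinj (hKA hx).1 (hKA hy).1 h
  have hld : ∀ z ∈ U, IsLocalDiffeomorphAt I I' ∞ j z := fun z hz => (hKA hz).2
  have hcl := isClosed_imageX hend.proper hCc hCU hld
  refine ⟨K1, hK1, fun ψ hψ => ?_⟩
  have hψ' : ∀ z ∈ K1, ψ.symm z = z := by
    intro z hz
    conv_lhs => rw [← hψ z hz]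
    exact ψ.symm_apply_apply z
  have hK0' : K0 ⊆ K1 := hK01.trans interior_subset
  have hgU : ∀ ψ : X ≃ₘ^∞⟮I, I⟯ X, (∀ z ∈ K1, ψ z = z) → ∀ z ∈ U, ψ z ∈ U := by
    intro ψ hψ z hz hcon
    have h1 := hψ _ (hK0' hcon)
    have h2 := ψ.injective h1
    rw [h2] at hcon
    exact hz hcon
  have hid : ∀ ψ : X ≃ₘ^∞⟮I, I⟯ X, (∀ z ∈ K1, ψ z = z) → ∀ z, z ∉ C → ψ z = z := by
    intro ψ hψ z hz
    rw [hC, notMem_compl_iff] at hz
    exact hψ z (interior_subset hz)
  refine ⟨{ toFun := extX j U ψ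
            invFun := extX j U ψ.symm
            left_inv := extX_inv hinjU (hgU ψ hψ) fun z => ψ.symm_apply_apply z
            right_inv := extX_inv hinjU (hgU ψ.symm hψ') fun z => ψ.apply_symm_apply z
            contMDiff_toFun := extX_smooth hUo hinjU hld hcl hCU ψ.contMDiff (hgU ψ hψ) (hid ψ hψ)
            contMDiff_invFun := extX_smooth hUo hinjU hld hcl hCU ψ.symm.contMDiff
              (hgU ψ.symm hψ') (hid ψ.symm hψ') }, fun z hz => ?_⟩
  exact extX_apply hinjU ψ (fun hcon => hz (hK0' hcon))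

end Ext

section Product

variable {F : Type*} [NormedAddCommGroup F] [NormedSpace ℝ F] {H : Type*}
    [TopologicalSpace H] {I : ModelWithCorners ℝ F H}
  {F' : Type*} [NormedAddCommGroup F'] [NormedSpace ℝ F'] {H' : Type*}
    [TopologicalSpace H'] {I' : ModelWithCorners ℝ F' H'}
  {K : Type*} [TopologicalSpace K] [ChartedSpace H K] [T2Space K] [CompactSpace K]
  {E : Type} [NormedAddCommGroup E] [NormedSpace ℝ E] [FiniteDimensional ℝ E]
  {M : Type*} [TopologicalSpace M] [ChartedSpace H' M]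

omit [NormedSpace ℝ E] [T2Space K] [FiniteDimensional ℝ E] in
theorem norm_eventually [ProperSpace E] (R : ℝ) : ∀ᶠ x : K × E in cocompact (K × E), R < ‖x.2‖ := by
  have h1 : IsCompact ((univ : Set K) ×ˢ Metric.closedBall (0 : E) R) :=
    isCompact_univ.prod (isCompact_closedBall _ _)
  filter_upwards [h1.compl_mem_cocompact] with x hx
  by_contra hcon
  exact hx ⟨mem_univ _, mem_closedBall_zero_iff.2 (not_lt.1 hcon)⟩

/-- one translation always extends -/
theorem single_shift [T2Space M] [LocallyCompactSpace M] {j : K × E → M}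
    (hend : DiffeoNear (I.prod 𝓘(ℝ, E)) I' j) (u : E) :
    ∃ f : M ≃ₘ^∞⟮I', I'⟯ M, ShiftNear I' j u f := by
  have : ProperSpace E := FiniteDimensional.proper ℝ E
  obtain ⟨L, hL, hLf⟩ := exists_extendX hend
  obtain ⟨R, hR⟩ := (hL.image continuous_snd).isBounded.exists_norm_le
  obtain ⟨ψ, h1, h2⟩ := exists_cut u R
  obtain ⟨f, hf⟩ := hLf ((Diffeomorph.refl I K ∞).prodCongr ψ) (by
    rintro ⟨k, z⟩ hz
    have h3 : ψ z = z := h1 z (hR z ⟨(k, z), hz, rfl⟩)
    change (k, ψ z) = (k, z)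
    rw [h3])
  refine ⟨f, ?_⟩
  obtain ⟨L', hL', hLA⟩ := mem_cocompact.1 h2
  obtain ⟨R', hR'⟩ := hL'.isBounded.exists_norm_le
  filter_upwards [norm_eventually (K := K) R, norm_eventually (K := K) R'] with x hx hx'
  have h3 : x ∉ L := fun hcon => absurd (hR x.2 ⟨x, hcon, rfl⟩) (not_le.2 hx)
  have h4 : ψ x.2 = x.2 + u := by
    have : x.2 ∉ L' := fun hcon => absurd (hR' x.2 hcon) (not_le.2 hx')
    exact hLA this
  rw [hf x h3]
  change j (x.1, ψ x.2) = _
  rw [h4]

/-- `ℤ²` acts on `K × E` -/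
def shiftAct (K : Type*) (u v : E) : Zt →* Equiv.Perm (K × E) where
  toFun γ := (Equiv.refl K).prodCongr (transAct u v γ)
  map_one' := by
    rw [map_one]
    rfl
  map_mul' a b := by
    rw [map_mul]
    rfl

omit [ChartedSpace H K] [T2Space K] [CompactSpace K] in
theorem shiftAct_proper {u v : E} (h : LinearIndependent ℝ ![u, v]) :
    ProperAct (shiftAct K u v) := by
  intro L hL
  refine (transAct_properAct h _ (hL.image continuous_snd)).subset ?_
  rintro γ ⟨y, hy, hy'⟩
  exact ⟨y.2, ⟨y, hy, rfl⟩, ⟨_, hy', rfl⟩⟩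

omit [T2Space K] [CompactSpace K] in
theorem shiftAct_smooth (u v : E) : SmoothAct (I.prod 𝓘(ℝ, E)) (shiftAct K u v) := by
  intro γ
  exact (contMDiff_id (I := I) (M := K)).prodMap (transAct_smooth u v γ)

theorem diffeo_of_shifts [T2Space M] [LocallyCompactSpace M] [PreconnectedSpace M] [Nonempty K]
    {j : K × E → M} (hend : DiffeoNear (I.prod 𝓘(ℝ, E)) I' j) {u v : E}
    (hl : LinearIndependent ℝ ![u, v]) (h : CommutingShifts I' j u v) :
    ExtendsToDiffeo (I.prod 𝓘(ℝ, E)) I' j := by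
  obtain ⟨f, g, hf, hg, hfg⟩ := h
  have hc : Commute (f.toEquiv : Equiv.Perm M) (g.toEquiv : Equiv.Perm M) := by
    ext x
    exact hfg x
  have hcomm : CommutesNear gens (shiftAct K u v) (pairAct f.toEquiv g.toEquiv hc) j := by
    intro s hs
    rcases hs with rfl | hs
    · rw [pairAct_fst]
      refine hf.mono fun z hz => ?_
      have h1 : shiftAct K u v (Multiplicative.ofAdd ((1, 0) : ℤ × ℤ)) z = (z.1, z.2 + u) := by
        change (z.1, transAct u v (Multiplicative.ofAdd ((1, 0) : ℤ × ℤ)) z.2) = _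
        rw [transAct_apply]
        simp only [toAdd_ofAdd, one_smul, zero_smul, add_zero]
      rw [h1]
      exact hz.symm
    · rw [mem_singleton_iff] at hs
      subst hs
      rw [pairAct_snd]
      refine hg.mono fun z hz => ?_
      have h1 : shiftAct K u v (Multiplicative.ofAdd ((0, 1) : ℤ × ℤ)) z = (z.1, z.2 + v) := by
        change (z.1, transAct u v (Multiplicative.ofAdd ((0, 1) : ℤ × ℤ)) z.2) = _
        rw [transAct_apply]
        simp only [toAdd_ofAdd, one_smul, zero_smul, zero_add]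
      rw [h1]
      exact hz.symm
  obtain ⟨Φ, ⟨-, h2⟩, -⟩ := rigidity (I := I.prod 𝓘(ℝ, E)) (I' := I') oneEnded_Zt
    (shiftAct_proper hl) (shiftAct_smooth u v) (fun γ => pairAct_smooth f g hc γ) hcomm hend
  exact ⟨Φ, h2⟩

omit [T2Space K] [CompactSpace K] [FiniteDimensional ℝ E] in
theorem shifts_of_diffeo {j : K × E → M} (h : ExtendsToDiffeo (I.prod 𝓘(ℝ, E)) I' j)
    (u v : E) : CommutingShifts I' j u v := by
  obtain ⟨Φ, hΦ⟩ := h
  let T : E → ((K × E) ≃ₘ^∞⟮I.prod 𝓘(ℝ, E), I.prod 𝓘(ℝ, E)⟯ (K × E)) := fun u =>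
    (Diffeomorph.refl I K ∞).prodCongr (transD u)
  have hT : ∀ u x, T u x = (x.1, x.2 + u) := fun _ _ => rfl
  have key : ∀ u : E, ShiftNear I' j u ((Φ.symm.trans (T u)).trans Φ) := by
    intro u
    have h1 : Tendsto (T u) (cocompact (K × E)) (cocompact (K × E)) :=
      (T u).toHomeomorph.isClosedEmbedding.tendsto_cocompact
    filter_upwards [hΦ, h1.eventually hΦ] with z hz hz'
    rw [hT] at hz'
    rw [← hz, ← hz']
    change Φ (T u (Φ.symm (Φ z))) = Φ (z.1, z.2 + u)
    rw [Diffeomorph.symm_apply_apply, hT]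
  refine ⟨_, _, key u, key v, fun x => ?_⟩
  change Φ (T u (Φ.symm (Φ (T v (Φ.symm x))))) = Φ (T v (Φ.symm (Φ (T u (Φ.symm x)))))
  rw [Diffeomorph.symm_apply_apply, Diffeomorph.symm_apply_apply]
  congr 1
  rw [hT, hT, hT, hT]
  congr 1
  change (Φ.symm x).2 + v + u = (Φ.symm x).2 + u + v
  abel

end Product

end Pool.Agent.H822.RG
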