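import Pool.Agent.H822.RG.Single

/-!
# The map `Ψ` of a diffeomorphism which is a translation near infinity
-/

open Filter Set Topology Manifold
open scoped ContDiff

namespace Pool.Agent.H822.RG

section Loc

variable {E : Type*} [NormedAddCommGroup E] [NormedSpace ℝ E] [FiniteDimensional ℝ E]

/-- the inverse function theorem -/
theorem localDiffeo_of_fderiv {f : E → E} {U : Set E} (hU : IsOpen U)
    (hf : ∀ x ∈ U, ContDiffAt ℝ ∞ f x) (hi : ∀ x ∈ U, ∀ v, fderiv ℝ f x v = 0 → v = 0) {x : E}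
    (hx : x ∈ U) : IsLocalDiffeomorphAt 𝓘(ℝ, E) 𝓘(ℝ, E) ∞ f x := by
  have heq : ∀ y ∈ U, ∃ A : E ≃L[ℝ] E, HasFDerivAt f (A : E →L[ℝ] E) y := by
    intro y hy
    have h1 : Function.Injective ((fderiv ℝ f y : E →L[ℝ] E) : E →ₗ[ℝ] E) := by
      rw [← LinearMap.ker_eq_bot, LinearMap.ker_eq_bot']
      exact fun v hv => hi y hy v hv
    let A : E ≃L[ℝ] E := (LinearEquiv.ofInjectiveEndo _ h1).toContinuousLinearEquiv
    refine ⟨A, ?_⟩
    have h2 : (A : E →L[ℝ] E) = fderiv ℝ f y := by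
      ext v
      rfl
    rw [h2]
    exact ((hf y hy).differentiableAt (by simp)).hasFDerivAt
  obtain ⟨A, hA⟩ := heq x hx
  set e := (hf x hx).toOpenPartialHomeomorph f hA (by simp) with he
  have hxe : x ∈ e.source := (hf x hx).mem_toOpenPartialHomeomorph_source hA (by simp)
  have hef : ∀ y, e y = f y := fun y => rfl
  set e' := e.restrOpen U hU with he'
  have hsrc : e'.source = e.source ∩ U := e.restrOpen_source U hU
  refine ⟨{ toPartialEquiv := e'.toPartialEquiv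
            open_source := e'.open_source
            open_target := e'.open_target
            contMDiffOn_toFun := ?_
            contMDiffOn_invFun := ?_ }, ?_, ?_⟩
  · intro y hy
    have h1 : y ∈ e'.source := hy
    rw [hsrc] at h1
    exact (hf y h1.2).contMDiffAt.contMDiffWithinAt
  · intro y hy
    have h1 : e'.symm y ∈ e'.source := e'.map_target hy
    have h2 := h1
    rw [hsrc] at h2
    obtain ⟨B, hB⟩ := heq _ h2.2
    have h3 : ContDiffAt ℝ ∞ e'.symm y := e'.contDiffAt_symm hy hB (hf _ h2.2)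
    exact h3.contMDiffAt.contMDiffWithinAt
  · change x ∈ e'.source
    rw [hsrc]
    exact ⟨hxe, hx⟩
  · exact fun y _ => rfl

variable {M : Type*} [TopologicalSpace M] [T2Space M] [ChartedSpace E M]

omit [FiniteDimensional ℝ E] [T2Space M] in
theorem mfderiv_inj {f : E → M} {x : E} (h : IsLocalDiffeomorphAt 𝓘(ℝ, E) 𝓘(ℝ, E) ∞ f x)
    {v : E} (hv : mfderiv 𝓘(ℝ, E) 𝓘(ℝ, E) f x v = 0) : v = 0 := by
  have h1 := h.mfderivToContinuousLinearEquiv_coe (by simp)
  rw [← h1] at hv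
  exact (h.mfderivToContinuousLinearEquiv (by simp)).injective (hv.trans (map_zero _).symm)

omit [FiniteDimensional ℝ E] in
theorem fderiv_inj_of_localDiffeo {f : E → E} {x : E}
    (h : IsLocalDiffeomorphAt 𝓘(ℝ, E) 𝓘(ℝ, E) ∞ f x) {v : E} (hv : fderiv ℝ f x v = 0) :
    v = 0 := by
  rw [← mfderiv_eq_fderiv] at hv
  exact mfderiv_inj h hv

/-- a local diffeomorphism which agrees near infinity with `j` -/
theorem diffeo_of_localDiffeo [PreconnectedSpace M] [Nontrivial E] {j : E → M}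
    (hend : StandardEnd j) {Φ : E → M}
    (h : ∀ z, IsLocalDiffeomorphAt 𝓘(ℝ, E) 𝓘(ℝ, E) ∞ Φ z)
    (hn : ∀ᶠ z in cocompact E, Φ z = j z) :
    ∃ Ψ : E ≃ₘ^∞⟮𝓘(ℝ, E), 𝓘(ℝ, E)⟯ M, ∀ z, Ψ z = Φ z := by
  have : LocallyCompactSpace M := ChartedSpace.locallyCompactSpace E M
  have : NoncompactSpace E := NormedSpace.noncompactSpace ℝ E
  have hc : Continuous Φ := continuous_iff_continuousAt.2 fun z => (h z).contMDiffAt.continuousAt
  have ho : IsOpenMap Φ := IsOpenMap.of_nhds_le fun z => (map_nhds_of_localDiffeo (h z)).ge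
  have ht : Tendsto Φ (cocompact E) (cocompact M) :=
    hend.proper.congr' (hn.mono fun z hz => hz.symm)
  have hp : IsProperMap Φ := isProperMap_iff_tendsto_cocompact.2 ⟨hc, ht⟩
  have hli : ∀ z, ∃ U ∈ 𝓝 z, InjOn Φ U := by
    intro z
    obtain ⟨Ψ, hz, heq⟩ := h z
    exact ⟨Ψ.source, Ψ.open_source.mem_nhds hz, (Ψ.injOn.congr heq.symm)⟩
  obtain ⟨A, hA, hAi⟩ := hend.inj
  have hne : ∃ x, ∀ x', Φ x' = Φ x → x' = x := by
    obtain ⟨K1, hK1, hK1A⟩ := mem_cocompact.1 (inter_mem hn hA)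
    have h6 : ∀ᶠ x in cocompact E, Φ x ∉ Φ '' K1 := ht ((hK1.image hc).compl_mem_cocompact)
    obtain ⟨x, hx1, hx2⟩ := (h6.and hK1.compl_mem_cocompact).exists
    refine ⟨x, fun x' h => ?_⟩
    have hx' : x' ∉ K1 := fun hcon => hx1 ⟨x', hcon, h⟩
    have h7 := hK1A hx2
    have h8 := hK1A hx'
    have h9 : j x' = j x := by rw [← h7.1, ← h8.1, h]
    exact hAi h8.2 h7.2 h9
  have hbij := bijective_of_proper ho hp hli hne
  exact ⟨diffeoOfHomeo ((Equiv.ofBijective Φ hbij).toHomeomorphOfContinuousOpen hc ho) h,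
    fun _ => rfl⟩

end Loc

section Psi

variable {E : Type*} [NormedAddCommGroup E] [NormedSpace ℝ E] [FiniteDimensional ℝ E]
  {M : Type*} [TopologicalSpace M] [T2Space M] [ChartedSpace E M]

/-- the number of translations which bring the point `z` out of the ball of radius `R` -/
noncomputable def far (R : ℝ) (u : E) (r : ℝ) : ℕ := ⌈(r + |R| + 1) / ‖u‖⌉₊

omit [FiniteDimensional ℝ E] in
theorem far_spec {R : ℝ} {u : E} (hu : u ≠ 0) {r : ℝ} {z : E} (hz : ‖z‖ ≤ r) {k : ℕ}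
    (hk : far R u r ≤ k) : R < ‖z - (k : ℝ) • u‖ := by
  have h0 : 0 < ‖u‖ := norm_pos_iff.2 hu
  have h1 : (r + |R| + 1) / ‖u‖ ≤ (k : ℝ) := (Nat.le_ceil _).trans (by exact_mod_cast hk)
  rw [div_le_iff₀ h0] at h1
  have h2 : ‖(k : ℝ) • u‖ = (k : ℝ) * ‖u‖ := by
    rw [norm_smul, Real.norm_eq_abs, abs_of_nonneg (Nat.cast_nonneg k)]
  have h3 : ‖(k : ℝ) • u‖ - ‖z‖ ≤ ‖z - (k : ℝ) • u‖ := by
    rw [← norm_sub_rev]
    exact norm_sub_norm_le _ _
  have h4 := le_abs_self R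
  linarith

/-- `f^m (j (z - m u))` for large `m` -/
noncomputable def Psi (f : Equiv.Perm M) (j : E → M) (R : ℝ) (u : E) (z : E) : M :=
  (f ^ far R u ‖z‖) (j (z - (far R u ‖z‖ : ℝ) • u))

variable {f : Equiv.Perm M} {j : E → M} {R : ℝ} {u : E}

omit [FiniteDimensional ℝ E] [TopologicalSpace M] [T2Space M] [ChartedSpace E M] in
theorem psi_step (hf : ∀ z, R < ‖z‖ → f (j z) = j (z + u)) {z : E} {m : ℕ}
    (hm : ∀ k, m ≤ k → R < ‖z - (k : ℝ) • u‖) (n : ℕ) :
    (f ^ (m + n)) (j (z - ((m + n : ℕ) : ℝ) • u)) = (f ^ m) (j (z - (m : ℝ) • u)) := by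
  induction n with
  | zero => rfl
  | succ n ih =>
    rw [← ih, ← add_assoc, pow_succ, Equiv.Perm.mul_apply,
      hf _ (hm (m + n + 1) (by lia))]
    congr 2
    push_cast
    module

omit [FiniteDimensional ℝ E] [TopologicalSpace M] [T2Space M] [ChartedSpace E M] in
theorem psi_eq (hu : u ≠ 0) (hf : ∀ z, R < ‖z‖ → f (j z) = j (z + u)) {z : E} {m : ℕ}
    (hm : ∀ k, m ≤ k → R < ‖z - (k : ℝ) • u‖) :
    Psi f j R u z = (f ^ m) (j (z - (m : ℝ) • u)) := by
  unfold Psi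
  have h1 := psi_step hf (z := z) (m := far R u ‖z‖) (fun k hk => far_spec hu le_rfl hk) m
  have h2 := psi_step hf hm (far R u ‖z‖)
  rw [← h1, ← h2, add_comm]

omit [FiniteDimensional ℝ E] [TopologicalSpace M] [T2Space M] [ChartedSpace E M] in
theorem psi_eq_j (hu : u ≠ 0) (hf : ∀ z, R < ‖z‖ → f (j z) = j (z + u)) {z : E}
    (hm : ∀ k : ℕ, R < ‖z - (k : ℝ) • u‖) : Psi f j R u z = j z := by
  have h1 := psi_eq hu hf (m := 0) fun k _ => hm k
  rw [h1]
  simp

omit [FiniteDimensional ℝ E] [TopologicalSpace M] [T2Space M] [ChartedSpace E M] in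
theorem psi_ball (hu : u ≠ 0) (hf : ∀ z, R < ‖z‖ → f (j z) = j (z + u)) {r : ℝ} {z : E}
    (hz : ‖z‖ ≤ r) : Psi f j R u z = (f ^ far R u r) (j (z - (far R u r : ℝ) • u)) :=
  psi_eq hu hf fun _ hk => far_spec hu hz hk

omit [FiniteDimensional ℝ E] [TopologicalSpace M] [T2Space M] [ChartedSpace E M] in
theorem psi_add (hu : u ≠ 0) (hf : ∀ z, R < ‖z‖ → f (j z) = j (z + u)) (z : E) :
    Psi f j R u (z + u) = f (Psi f j R u z) := by
  have h1 := psi_eq hu hf (z := z) (m := far R u ‖z‖) (fun k hk => far_spec hu le_rfl hk)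
  have h2 := psi_eq hu hf (z := z + u) (m := far R u ‖z‖ + 1) (fun k hk => by
    obtain ⟨l, rfl⟩ : ∃ l, k = l + 1 := ⟨k - 1, by lia⟩
    have h3 : z + u - ((l + 1 : ℕ) : ℝ) • u = z - (l : ℝ) • u := by
      push_cast; module
    rw [h3]
    exact far_spec hu le_rfl (by lia))
  rw [h1, h2, pow_succ', Equiv.Perm.mul_apply]
  congr 3
  push_cast
  module

end Psi

end Pool.Agent.H822.RG
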