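import Pool.Agent.H822.RG.Main
import Pool.Agent.H822.BK.Had

/-!
# One translation near infinity always extends
-/

open Filter Set Topology Manifold
open scoped ContDiff

namespace Pool.Agent.H822.RG

section Cut

variable {E : Type} [NormedAddCommGroup E] [NormedSpace ℝ E] [FiniteDimensional ℝ E]

/-- a smooth bijection with injective derivatives, which is the identity off a compact set -/
theorem exists_diffeo_of_local {g : E → E} (hg : ContDiff ℝ ∞ g)
    (hi : ∀ x v, fderiv ℝ g x v = 0 → v = 0) {K : Set E} (hK : IsCompact K)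
    (hoff : ∀ x, x ∉ K → g x = x) : ∃ ψ : E ≃ₘ^∞⟮𝓘(ℝ, E), 𝓘(ℝ, E)⟯ E, ∀ z, ψ z = g z := by
  have hb := BK.bij_of_local hg hi hK hoff
  obtain ⟨Ψ, h1, h2, h3⟩ := BK.inv_fam (P := ℝ) (Φ := fun _ => g) (hg.comp contDiff_snd)
    (fun _ => hi) (fun _ => hb)
  have h4 : ContDiff ℝ ∞ (Ψ 0) := h1.comp (contDiff_const.prodMk contDiff_id)
  exact ⟨{ toFun := g
           invFun := Ψ 0
           left_inv := h2 0
           right_inv := h3 0
           contMDiff_toFun := hg.contMDiff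
           contMDiff_invFun := h4.contMDiff }, fun z => rfl⟩

/-- a diffeomorphism which is the identity on a ball and a translation near infinity -/
theorem exists_cut (u : E) (R : ℝ) : ∃ ψ : E ≃ₘ^∞⟮𝓘(ℝ, E), 𝓘(ℝ, E)⟯ E,
    (∀ z, ‖z‖ ≤ R → ψ z = z) ∧ ∀ᶠ z in cocompact E, ψ z = z + u := by
  let b : ContDiffBump (0 : E) := ⟨1, 2, one_pos, one_lt_two⟩
  have hb : ContDiff ℝ ∞ (fun z => b z) := b.contDiff
  obtain ⟨L, hL⟩ := hb.lipschitzWith_of_hasCompactSupport b.hasCompactSupport (by simp)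
  set r : ℝ := max (max R 1) (2 * L * ‖u‖) with hr
  have hr0 : 0 < r := lt_of_lt_of_le one_pos ((le_max_right R 1).trans (le_max_left _ _))
  have hrR : R ≤ r := (le_max_left R 1).trans (le_max_left _ _)
  have hrL : 2 * L * ‖u‖ ≤ r := le_max_right _ _
  let G : E → E := fun z => z - b (r⁻¹ • z) • u
  have hbr : ContDiff ℝ ∞ (fun z : E => b (r⁻¹ • z)) := hb.comp (contDiff_const_smul r⁻¹)
  have hG : ContDiff ℝ ∞ G := contDiff_id.sub (hbr.smul contDiff_const)
  have hlip : ∀ z, ‖fderiv ℝ (fun z : E => b (r⁻¹ • z)) z‖ ≤ L * r⁻¹ := by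
    intro z
    have h1 : LipschitzWith (L * Real.toNNReal r⁻¹) (fun z : E => b (r⁻¹ • z)) := by
      refine hL.comp (LipschitzWith.of_dist_le_mul fun x y => ?_)
      rw [dist_smul₀, Real.norm_eq_abs, abs_of_pos (inv_pos.2 hr0),
        Real.coe_toNNReal _ (inv_pos.2 hr0).le]
    have h2 := norm_fderiv_le_of_lipschitz ℝ h1 (x₀ := z)
    rwa [NNReal.coe_mul, Real.coe_toNNReal _ (inv_pos.2 hr0).le] at h2
  have hi : ∀ x v, fderiv ℝ G x v = 0 → v = 0 := by
    intro x v hv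
    have h1 : HasFDerivAt G (ContinuousLinearMap.id ℝ E
        - (fderiv ℝ (fun z : E => b (r⁻¹ • z)) x).smulRight u) x :=
      (hasFDerivAt_id x).sub ((hbr.differentiable (by simp) x).hasFDerivAt.smul_const u)
    rw [h1.fderiv] at hv
    simp only [ContinuousLinearMap.sub_apply, ContinuousLinearMap.id_apply,
      ContinuousLinearMap.smulRight_apply, sub_eq_zero] at hv
    have h2 : ‖v‖ ≤ (1 / 2) * ‖v‖ := by
      calc ‖v‖ = ‖(fderiv ℝ (fun z : E => b (r⁻¹ • z)) x v) • u‖ := congrArg _ hv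
        _ = ‖fderiv ℝ (fun z : E => b (r⁻¹ • z)) x v‖ * ‖u‖ := norm_smul _ _
        _ ≤ ((L * r⁻¹) * ‖v‖) * ‖u‖ := by
            gcongr
            exact ContinuousLinearMap.le_of_opNorm_le _ (hlip x) v
        _ = ((2 * L * ‖u‖) * r⁻¹) * (1 / 2) * ‖v‖ := by ring
        _ ≤ (r * r⁻¹) * (1 / 2) * ‖v‖ := by gcongr
        _ = (1 / 2) * ‖v‖ := by rw [mul_inv_cancel₀ hr0.ne', one_mul]
    have h3 : ‖v‖ ≤ 0 := by linarith
    exact norm_le_zero_iff.1 h3
  have hoff : ∀ x, x ∉ Metric.closedBall (0 : E) (2 * r) → G x = x := by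
    intro x hx
    rw [mem_closedBall_zero_iff, not_le] at hx
    have h1 : b (r⁻¹ • x) = 0 := by
      refine b.zero_of_le_dist ?_
      rw [dist_zero_right, norm_smul, Real.norm_eq_abs, abs_of_pos (inv_pos.2 hr0)]
      change (2 : ℝ) ≤ _
      rw [inv_mul_eq_div, le_div_iff₀ hr0]
      exact hx.le
    simp only [G, h1, zero_smul, sub_zero]
  obtain ⟨ψ, hψ⟩ := exists_diffeo_of_local hG hi (isCompact_closedBall _ _) hoff
  refine ⟨ψ.trans (transD u), fun z hz => ?_, ?_⟩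
  · change ψ z + u = z
    rw [hψ]
    have h1 : b (r⁻¹ • z) = 1 := by
      refine b.one_of_mem_closedBall ?_
      rw [mem_closedBall_zero_iff, norm_smul, Real.norm_eq_abs, abs_of_pos (inv_pos.2 hr0)]
      change _ ≤ (1 : ℝ)
      rw [inv_mul_eq_div, div_le_iff₀ hr0, one_mul]
      exact hz.trans hrR
    simp only [G, h1, one_smul, sub_add_cancel]
  · filter_upwards [(isCompact_closedBall (0 : E) (2 * r)).compl_mem_cocompact] with z hz
    change ψ z + u = z + u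
    rw [hψ, hoff z hz]

end Cut

section Extend

variable {E : Type*} [NormedAddCommGroup E] [NormedSpace ℝ E] [FiniteDimensional ℝ E]
  {M : Type*} [TopologicalSpace M] [T2Space M] [ChartedSpace E M] {j : E → M}

/-- radius off which `j` is good -/
theorem exists_radius (hend : StandardEnd j) : ∃ R : ℝ, 0 ≤ R ∧
    InjOn j {z | R < ‖z‖} ∧ ∀ z, R < ‖z‖ → IsLocalDiffeomorphAt 𝓘(ℝ, E) 𝓘(ℝ, E) ∞ j z := by
  obtain ⟨A, hA, hinj⟩ := hend.inj
  obtain ⟨K, hK, hKA⟩ := mem_cocompact.1 (inter_mem hA hend.localDiffeo)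
  obtain ⟨R, hR⟩ := hK.isBounded.exists_norm_le
  have h1 : ∀ z, max R 0 < ‖z‖ → z ∈ A ∩ {z | IsLocalDiffeomorphAt 𝓘(ℝ, E) 𝓘(ℝ, E) ∞ j z} := by
    intro z hz
    refine hKA fun hcon => ?_
    exact absurd (hR z hcon) (not_le.2 ((le_max_left _ _).trans_lt hz))
  exact ⟨max R 0, le_max_right _ _, fun x hx y hy h => hinj (h1 x hx).1 (h1 y hy).1 h,
    fun z hz => (h1 z hz).2⟩

/-- the image of the outside of a ball is closed -/
theorem isClosed_image (hend : StandardEnd j) {R : ℝ}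
    (hR : ∀ z, R < ‖z‖ → IsLocalDiffeomorphAt 𝓘(ℝ, E) 𝓘(ℝ, E) ∞ j z) :
    IsClosed (j '' {z | R + 1 ≤ ‖z‖}) := by
  have : LocallyCompactSpace M := ChartedSpace.locallyCompactSpace E M
  rw [← isOpen_compl_iff, isOpen_iff_mem_nhds]
  intro p hp
  obtain ⟨N, hN, hpN⟩ := exists_compact_mem_nhds p
  have h1 : j ⁻¹' Nᶜ ∈ cocompact E := hend.proper hN.compl_mem_cocompact
  obtain ⟨K, hK, hKA⟩ := mem_cocompact.1 h1
  have hCc : IsClosed {z : E | R + 1 ≤ ‖z‖} := isClosed_le continuous_const continuous_norm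
  have h2 : IsCompact (K ∩ {z : E | R + 1 ≤ ‖z‖}) := hK.inter_right hCc
  have h3 : ContinuousOn j (K ∩ {z : E | R + 1 ≤ ‖z‖}) := by
    intro z hz
    have : R < ‖z‖ := lt_of_lt_of_le (lt_add_one R) hz.2
    exact (hR z this).contMDiffAt.continuousAt.continuousWithinAt
  have h4 : IsClosed (j '' (K ∩ {z : E | R + 1 ≤ ‖z‖})) := (h2.image_of_continuousOn h3).isClosed
  have h5 : p ∉ j '' (K ∩ {z : E | R + 1 ≤ ‖z‖}) := fun h => hp (image_mono inter_subset_right h)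
  filter_upwards [hpN, h4.isOpen_compl.mem_nhds h5] with q hq hq'
  rintro ⟨z, hz, rfl⟩
  refine hq' ⟨z, ⟨?_, hz⟩, rfl⟩
  by_contra hcon
  exact hKA hcon hq

open Classical in
/-- the extension of a bijection of the end -/
noncomputable def extM (j : E → M) (R : ℝ) (g : E → E) : M → M := fun p =>
  if h : ∃ z, R < ‖z‖ ∧ j z = p then j (g h.choose) else p

omit [FiniteDimensional ℝ E] [TopologicalSpace M] [T2Space M] [ChartedSpace E M]
  [NormedSpace ℝ E] in
theorem extM_apply {R : ℝ} (hinj : InjOn j {z | R < ‖z‖}) (g : E → E) {z : E} (hz : R < ‖z‖) :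
    extM j R g (j z) = j (g z) := by
  have h : ∃ w, R < ‖w‖ ∧ j w = j z := ⟨z, hz, rfl⟩
  unfold extM
  rw [dif_pos h]
  have h1 : h.choose = z := hinj h.choose_spec.1 hz h.choose_spec.2
  rw [h1]

omit [FiniteDimensional ℝ E] [TopologicalSpace M] [T2Space M] [ChartedSpace E M]
  [NormedSpace ℝ E] in
theorem extM_off {R : ℝ} (g : E → E) {p : M} (hp : ¬ ∃ z, R < ‖z‖ ∧ j z = p) :
    extM j R g p = p := by
  unfold extM
  rw [dif_neg hp]

theorem extM_smooth (hend : StandardEnd j) {R : ℝ} (hinj : InjOn j {z | R < ‖z‖})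
    (hR : ∀ z, R < ‖z‖ → IsLocalDiffeomorphAt 𝓘(ℝ, E) 𝓘(ℝ, E) ∞ j z) {g : E → E}
    (hg : ContDiff ℝ ∞ g) (hgR : ∀ z, R < ‖z‖ → R < ‖g z‖)
    (hid : ∀ z, ‖z‖ ≤ R + 1 → g z = z) :
    ContMDiff 𝓘(ℝ, E) 𝓘(ℝ, E) ∞ (extM j R g) := by
  intro p
  by_cases hp : ∃ z, R < ‖z‖ ∧ j z = p
  · obtain ⟨z, hz, rfl⟩ := hp
    set Φ := (hR z hz).localInverse with hΦ
    have h1 : Φ (j z) = z := (hR z hz).localInverse_left_inv (hR z hz).localInverse_mem_target
    have h2 : ContMDiffAt 𝓘(ℝ, E) 𝓘(ℝ, E) ∞ Φ (j z) := (hR z hz).localInverse_contMDiffAt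
    have h3 : ∀ᶠ q in 𝓝 (j z), j (Φ q) = q := (hR z hz).localInverse_eventuallyEq_right
    have hopen : IsOpen {w : E | R < ‖w‖} := isOpen_lt continuous_const continuous_norm
    have h4 : ∀ᶠ q in 𝓝 (j z), R < ‖Φ q‖ := by
      have := h2.continuousAt
      refine this.eventually (hopen.mem_nhds ?_)
      rw [h1]
      exact hz
    have h5 : extM j R g =ᶠ[𝓝 (j z)] fun q => j (g (Φ q)) := by
      filter_upwards [h3, h4] with q hq hq'
      conv_lhs => rw [← hq]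
      exact extM_apply hinj g hq'
    refine ContMDiffAt.congr_of_eventuallyEq ?_ h5
    have h6 : ContMDiffAt 𝓘(ℝ, E) 𝓘(ℝ, E) ∞ g (Φ (j z)) := hg.contMDiff _
    have h7 : ContMDiffAt 𝓘(ℝ, E) 𝓘(ℝ, E) ∞ j (g (Φ (j z))) := by
      rw [h1]
      exact (hR _ (hgR z hz)).contMDiffAt
    exact (h7.comp _ h6).comp _ h2
  · have h1 : p ∉ j '' {z | R + 1 ≤ ‖z‖} := by
      rintro ⟨z, hz, rfl⟩
      exact hp ⟨z, lt_of_lt_of_le (lt_add_one R) hz, rfl⟩
    have h2 : extM j R g =ᶠ[𝓝 p] fun q => q := by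
      filter_upwards [(isClosed_image hend hR).isOpen_compl.mem_nhds h1] with q hq
      by_cases hq' : ∃ z, R < ‖z‖ ∧ j z = q
      · obtain ⟨z, hz, rfl⟩ := hq'
        rw [extM_apply hinj g hz]
        have h3 : ‖z‖ ≤ R + 1 := by
          by_contra hcon
          exact hq ⟨z, (not_le.1 hcon).le, rfl⟩
        rw [hid z h3]
      · exact extM_off g hq'
    exact contMDiffAt_id.congr_of_eventuallyEq h2

omit [FiniteDimensional ℝ E] [T2Space M] [ChartedSpace E M] [TopologicalSpace M]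
  [NormedSpace ℝ E] in
theorem extM_inv {R : ℝ} (hinj : InjOn j {z | R < ‖z‖}) {g g' : E → E}
    (hgR : ∀ z, R < ‖z‖ → R < ‖g z‖) (h : ∀ z, g' (g z) = z) (p : M) :
    extM j R g' (extM j R g p) = p := by
  by_cases hp : ∃ z, R < ‖z‖ ∧ j z = p
  · obtain ⟨z, hz, rfl⟩ := hp
    rw [extM_apply hinj g hz, extM_apply hinj g' (hgR z hz), h]
  · rw [extM_off g hp, extM_off g' hp]

omit [FiniteDimensional ℝ E] [NormedSpace ℝ E] in
theorem out_of_id {R : ℝ} {g : E → E} (hi : Function.Injective g)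
    (hid : ∀ z, ‖z‖ ≤ R + 1 → g z = z) (z : E) (hz : R < ‖z‖) : R < ‖g z‖ := by
  by_contra hcon
  rw [not_lt] at hcon
  have h1 : g (g z) = g z := hid _ (hcon.trans (by linarith))
  have h2 := hi h1
  rw [h2] at hcon
  exact absurd hz (not_lt.2 hcon)

/-- diffeomorphisms of `E` which are the identity on a large ball extend -/
theorem exists_extend (hend : StandardEnd j) : ∃ R : ℝ,
    ∀ ψ : E ≃ₘ^∞⟮𝓘(ℝ, E), 𝓘(ℝ, E)⟯ E, (∀ z, ‖z‖ ≤ R → ψ z = z) →
      ∃ f : M ≃ₘ^∞⟮𝓘(ℝ, E), 𝓘(ℝ, E)⟯ M, ∀ z, R < ‖z‖ → f (j z) = j (ψ z) := by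
  obtain ⟨R, hR0, hinj, hR⟩ := exists_radius hend
  refine ⟨R + 1, fun ψ hψ => ?_⟩
  have hψ' : ∀ z, ‖z‖ ≤ R + 1 → ψ.symm z = z := by
    intro z hz
    conv_lhs => rw [← hψ z hz]
    exact ψ.symm_apply_apply z
  have h1 := out_of_id ψ.injective hψ
  have h2 := out_of_id ψ.symm.injective hψ'
  refine ⟨{ toFun := extM j R ψ
            invFun := extM j R ψ.symm
            left_inv := extM_inv hinj h1 fun z => ψ.symm_apply_apply z
            right_inv := extM_inv hinj h2 fun z => ψ.apply_symm_apply z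
            contMDiff_toFun := extM_smooth hend hinj hR ψ.contMDiff.contDiff h1 hψ
            contMDiff_invFun := extM_smooth hend hinj hR ψ.symm.contMDiff.contDiff h2 hψ' },
    fun z hz => ?_⟩
  exact extM_apply hinj ψ (by linarith)

end Extend

/-- one translation near infinity always extends -/
theorem single {E : Type} [NormedAddCommGroup E] [NormedSpace ℝ E] [FiniteDimensional ℝ E]
    {M : Type*} [TopologicalSpace M] [T2Space M] [ChartedSpace E M] {j : E → M}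
    (hend : StandardEnd j) (u : E) :
    ∃ f : M ≃ₘ^∞⟮𝓘(ℝ, E), 𝓘(ℝ, E)⟯ M, TranslationNear j u f := by
  obtain ⟨R, hR⟩ := exists_extend hend
  obtain ⟨ψ, h1, h2⟩ := exists_cut u R
  obtain ⟨f, hf⟩ := hR ψ h1
  refine ⟨f, ?_⟩
  have h3 : ∀ᶠ z in cocompact E, R < ‖z‖ := by
    filter_upwards [(isCompact_closedBall (0 : E) R).compl_mem_cocompact] with z hz
    rwa [mem_compl_iff, mem_closedBall_zero_iff, not_le] at hz
  filter_upwards [h2, h3] with z hz hz'
  rw [hf z hz', hz]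

end Pool.Agent.H822.RG
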