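import Pool.Agent.H822.RG.Grid

/-!
# Rigidity of germs at infinity: smooth manifolds
-/

open Filter Set Topology Manifold
open scoped ContDiff

namespace Pool.Agent.H822.RG

section Local

variable {E : Type*} [NormedAddCommGroup E] [NormedSpace ℝ E]
  {F : Type*} [NormedAddCommGroup F] [NormedSpace ℝ F]
  {H₁ : Type*} [TopologicalSpace H₁] {H₂ : Type*} [TopologicalSpace H₂]
  {I : ModelWithCorners ℝ E H₁} {J : ModelWithCorners ℝ F H₂}
  {X : Type*} [TopologicalSpace X] [ChartedSpace H₁ X]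
  {M : Type*} [TopologicalSpace M] [ChartedSpace H₂ M]

theorem map_nhds_of_localDiffeo {f : X → M} {x : X} (h : IsLocalDiffeomorphAt I J ∞ f x) :
    map f (𝓝 x) = 𝓝 (f x) := by
  obtain ⟨Φ, hx, heq⟩ := h
  have h1 : f =ᶠ[𝓝 x] Φ.toOpenPartialHomeomorph :=
    mem_of_superset (Φ.open_source.mem_nhds hx) heq
  rw [map_congr h1, h1.eq_of_nhds]
  exact Φ.toOpenPartialHomeomorph.map_nhds_eq hx

theorem localDiffeo_congr {f g : X → M} {x : X} (h : IsLocalDiffeomorphAt I J ∞ f x)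
    (hfg : g =ᶠ[𝓝 x] f) : IsLocalDiffeomorphAt I J ∞ g x := by
  obtain ⟨Φ, hx, heq⟩ := h
  obtain ⟨U, hUs, hUo, hxU⟩ := mem_nhds_iff.1 hfg
  set Ψ := Φ.toOpenPartialHomeomorph.restrOpen U hUo with hΨ
  have hsrc : Ψ.source = Φ.source ∩ U := Φ.toOpenPartialHomeomorph.restrOpen_source U hUo
  have htgt : Ψ.target ⊆ Φ.target := by
    intro y hy
    have h1 := Ψ.map_target hy
    rw [hsrc] at h1
    have h2 := Ψ.right_inv hy
    rw [← h2]
    exact Φ.map_source h1.1
  refine ⟨{ toPartialEquiv := Ψ.toPartialEquiv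
            open_source := Ψ.open_source
            open_target := Ψ.open_target
            contMDiffOn_toFun := Φ.contMDiffOn_toFun.mono (by
              intro y hy
              have : y ∈ Ψ.source := hy
              rw [hsrc] at this
              exact this.1)
            contMDiffOn_invFun := Φ.contMDiffOn_invFun.mono htgt }, ?_, ?_⟩
  · change x ∈ Ψ.source
    rw [hsrc]
    exact ⟨hx, hxU⟩
  · intro y hy
    have : y ∈ Ψ.source := hy
    rw [hsrc] at this
    exact (hUs this.2).trans (heq this.1)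

/-- a homeomorphism which is a local diffeomorphism is a diffeomorphism -/
def diffeoOfHomeo (T : X ≃ₜ M) (h : IsLocalDiffeomorph I J ∞ T) : X ≃ₘ^∞⟮I, J⟯ M where
  toEquiv := T.toEquiv
  contMDiff_toFun := h.contMDiff
  contMDiff_invFun := by
    intro y
    obtain ⟨Φ, hx, heq⟩ := h (T.symm y)
    have hy : y = Φ (T.symm y) := by
      rw [← heq hx, Homeomorph.apply_symm_apply]
    have hyt : y ∈ Φ.target := by
      rw [hy]
      exact Φ.map_source hx
    refine (Φ.contMDiffOn_invFun.congr ?_).contMDiffAt (Φ.open_target.mem_nhds hyt)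
    intro z hz
    have h1 : Φ.symm z ∈ Φ.source := Φ.map_target hz
    have h2 : T (Φ.symm z) = z := (heq h1).trans (Φ.right_inv hz)
    change T.symm z = Φ.symm z
    rw [← h2, Homeomorph.symm_apply_apply, h2]

end Local

section Smooth

variable {E : Type*} [NormedAddCommGroup E] [NormedSpace ℝ E]
  {F : Type*} [NormedAddCommGroup F] [NormedSpace ℝ F]
  {H₁ : Type*} [TopologicalSpace H₁] {H₂ : Type*} [TopologicalSpace H₂]
  {I : ModelWithCorners ℝ E H₁} {J : ModelWithCorners ℝ F H₂}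
  {X : Type*} [TopologicalSpace X] [ChartedSpace H₁ X]
  {M : Type*} [TopologicalSpace M] [ChartedSpace H₂ M]
  {Γ : Type*} [Group Γ] {S : Set Γ} (ρ : Γ →* Equiv.Perm X) (ρ' : Γ →* Equiv.Perm M) (j : X → M)

/-- the diffeomorphism given by an element of the group -/
def diffeoOf (h : ∀ γ, ContMDiff I I ∞ (ρ γ)) (γ : Γ) : X ≃ₘ^∞⟮I, I⟯ X where
  toEquiv := ρ γ
  contMDiff_toFun := h γ
  contMDiff_invFun := by
    have h1 := h γ⁻¹
    rw [map_inv] at h1
    exact h1

/-- A germ of a diffeomorphism between neighbourhoods of infinity which commutes near infinity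
with the generators extends to an equivariant diffeomorphism. -/
theorem exists_diffeomorph [T2Space X] [T2Space M] [LocallyCompactSpace X]
    [LocallyCompactSpace M] [NoncompactSpace X] [PreconnectedSpace M] (hΓ : OneEnded Γ S)
    (hρ : ProperAt ρ (cocompact X)) (hρc : ∀ γ, ContMDiff I I ∞ (ρ γ))
    (hρc' : ∀ γ, ContMDiff J J ∞ (ρ' γ))
    (hj : ∀ s ∈ S, ∀ᶠ x in cocompact X, j (ρ s x) = ρ' s (j x))
    (hjd : ∀ᶠ x in cocompact X, IsLocalDiffeomorphAt I J ∞ j x)
    (hji : ∃ A ∈ cocompact X, InjOn j A)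
    (hjt : Tendsto j (cocompact X) (cocompact M)) :
    ∃ Φ : X ≃ₘ^∞⟮I, J⟯ M, (∀ g x, Φ (ρ g x) = ρ' g (Φ x)) ∧ ∀ᶠ x in cocompact X, Φ x = j x := by
  obtain ⟨T, hT1, hT2, hT3⟩ := exists_homeomorph ρ ρ' j hΓ hρ (fun γ => (hρc γ).continuous)
    (fun γ => (hρc' γ).continuous) hj (hjd.mono fun x hx => map_nhds_of_localDiffeo hx) hji hjt
  have hloc : IsLocalDiffeomorph I J ∞ T := by
    intro x
    obtain ⟨N, hN, hxN⟩ := exists_compact_mem_nhds x
    obtain ⟨γ, h1, h2⟩ := hT3 N hN _ hjd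
    have h3 : IsLocalDiffeomorphAt I J ∞ j (diffeoOf ρ hρc γ x) := h1 x (mem_of_mem_nhds hxN)
    have h4 : IsLocalDiffeomorphAt I I ∞ (diffeoOf ρ hρc γ) x :=
      (diffeoOf ρ hρc γ).isLocalDiffeomorph x
    have h5 : IsLocalDiffeomorphAt J J ∞ (diffeoOf ρ' hρc' γ).symm
        ((j ∘ diffeoOf ρ hρc γ) x) := (diffeoOf ρ' hρc' γ).symm.isLocalDiffeomorph _
    have h6 := (h4.comp J M h3).comp J M h5
    refine localDiffeo_congr h6 (mem_of_superset hxN fun y hy => ?_)
    exact h2 y hy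
  exact ⟨diffeoOfHomeo T hloc, hT1, hT2⟩

/-- uniqueness of the extension -/
theorem unique_diffeomorph (hΓ : OneEnded Γ S) (hρ : ProperAt ρ (cocompact X))
    {Φ Ψ : X ≃ₘ^∞⟮I, J⟯ M} (h : ∀ g x, Φ (ρ g x) = ρ' g (Φ x))
    (h' : ∀ g x, Ψ (ρ g x) = ρ' g (Ψ x)) (he : ∀ᶠ x in cocompact X, Φ x = Ψ x) : Φ = Ψ := by
  have := unique_ext ρ ρ' hΓ hρ compl_singleton_mem_cocompact h h' he
  exact DFunLike.coe_injective this

end Smooth

end Pool.Agent.H822.RG
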