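import Pool.Agent.H822.RG.Leaf

/-!
# The return map `θ` beyond the core
-/

open Filter Set Topology Manifold
open scoped ContDiff

namespace Pool.Agent.H822.RG

section Lin

variable {E : Type*} [NormedAddCommGroup E] [NormedSpace ℝ E] [FiniteDimensional ℝ E]

/-- a linear functional which is one on `u` and zero on `V` -/
structure Split (l : E →L[ℝ] ℝ) (u : E) (V : Submodule ℝ E) : Prop where
  hu : l u = 1
  hV : ∀ w ∈ V, l w = 0

theorem exists_split {u : E} {V : Submodule ℝ E} (h : u ∉ V) : ∃ l : E →L[ℝ] ℝ, Split l u V := by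
  obtain ⟨f, hf, hV⟩ := Submodule.exists_le_ker_of_notMem h
  refine ⟨((f u)⁻¹ • f).toContinuousLinearMap, ?_, ?_⟩
  · simp [hf]
  · intro w hw
    have : f w = 0 := LinearMap.mem_ker.1 (hV hw)
    simp [this]

/-- the projection along `u` -/
noncomputable def pq (l : E →L[ℝ] ℝ) (u : E) : E →L[ℝ] E :=
  ContinuousLinearMap.id ℝ E - l.smulRight u

omit [FiniteDimensional ℝ E] in
theorem pq_apply (l : E →L[ℝ] ℝ) (u x : E) : pq l u x = x - l x • u := rfl

omit [FiniteDimensional ℝ E] in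
theorem cyl {l : E →L[ℝ] ℝ} {u : E} {V : Submodule ℝ E} (hs : Split l u V) {R : ℝ} {x : E}
    (hR : 0 ≤ R) (hx : ‖pq l u‖ * R < ‖pq l u x‖) (k : ℝ) : R < ‖x - k • u‖ := by
  have h1 : pq l u (x - k • u) = pq l u x := by
    rw [pq_apply, pq_apply, map_sub, map_smul, hs.hu, smul_eq_mul, mul_one]
    module
  have h2 := (pq l u).le_opNorm (x - k • u)
  rw [h1] at h2
  by_contra hcon
  rw [not_lt] at hcon
  have h3 : ‖pq l u‖ * ‖x - k • u‖ ≤ ‖pq l u‖ * R :=
    mul_le_mul_of_nonneg_left hcon (norm_nonneg _)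
  linarith

omit [FiniteDimensional ℝ E] in
theorem out_of_l {l : E →L[ℝ] ℝ} {R : ℝ} {x : E} (hx : ‖l‖ * R < |l x|) : R < ‖x‖ := by
  have h2 := l.le_opNorm x
  rw [Real.norm_eq_abs] at h2
  by_contra hcon
  rw [not_lt] at hcon
  have h3 : ‖l‖ * ‖x‖ ≤ ‖l‖ * R := mul_le_mul_of_nonneg_left hcon (norm_nonneg _)
  linarith

theorem exists_ker (V : Submodule ℝ E) : ∃ P : E →L[ℝ] E, ∀ x, P x = 0 ↔ x ∈ V := by
  obtain ⟨C, hC⟩ := V.exists_isCompl
  refine ⟨(C.subtype ∘ₗ Submodule.projectionOnto C V hC.symm).toContinuousLinearMap,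
    fun x => ?_⟩
  have h1 : (C.subtype ∘ₗ Submodule.projectionOnto C V hC.symm).toContinuousLinearMap x
      = (Submodule.projectionOnto C V hC.symm x : E) := rfl
  rw [h1, Submodule.coe_eq_zero, ← LinearMap.mem_ker, Submodule.ker_projectionOnto]

/-- a map whose derivative preserves `V` moves segments parallel to `V` parallel to `V` -/
theorem seg {V : Submodule ℝ E} {g : E → E} {y w : E} (hw : w ∈ V)
    (h : ∀ t ∈ Icc (0 : ℝ) 1, DifferentiableAt ℝ g (y + t • w) ∧
      ∀ v ∈ V, fderiv ℝ g (y + t • w) v ∈ V) : g (y + w) - g y ∈ V := by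
  obtain ⟨P, hP⟩ := exists_ker V
  have h1 : ∀ t ∈ Icc (0 : ℝ) 1, HasDerivAt (fun t : ℝ => P (g (y + t • w))) 0 t := by
    intro t ht
    have h2 : HasDerivAt (fun t : ℝ => y + t • w) w t := by
      have := (hasDerivAt_id t).smul_const w
      simpa using this.const_add y
    have h3 := P.hasFDerivAt.comp_hasDerivAt t (((h t ht).1.hasFDerivAt).comp_hasDerivAt t h2)
    have h4 : P (fderiv ℝ g (y + t • w) w) = 0 := (hP _).2 ((h t ht).2 w hw)
    rw [h4] at h3
    exact h3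
  have h2 := constant_of_has_deriv_right_zero (f := fun t : ℝ => P (g (y + t • w)))
    (fun t ht => (h1 t ht).continuousAt.continuousWithinAt)
    (fun t ht => (h1 t ⟨ht.1, ht.2.le⟩).hasDerivWithinAt) 1 ⟨zero_le_one, le_rfl⟩
  simp only [one_smul, zero_smul, add_zero] at h2
  rw [← hP, map_sub, h2, sub_self]

end Lin

section Closed

variable {E : Type*} [NormedAddCommGroup E] [NormedSpace ℝ E] [FiniteDimensional ℝ E]
  {M : Type*} [TopologicalSpace M] [T2Space M] [ChartedSpace E M] {j : E → M}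

theorem isClosed_image' (hend : StandardEnd j) {R : ℝ}
    (hR : ∀ z, R < ‖z‖ → IsLocalDiffeomorphAt 𝓘(ℝ, E) 𝓘(ℝ, E) ∞ j z) {C : Set E}
    (hC : IsClosed C) (hCR : ∀ z ∈ C, R < ‖z‖) : IsClosed (j '' C) := by
  have : LocallyCompactSpace M := ChartedSpace.locallyCompactSpace E M
  rw [← isOpen_compl_iff, isOpen_iff_mem_nhds]
  intro p hp
  obtain ⟨N, hN, hpN⟩ := exists_compact_mem_nhds p
  have h1 : j ⁻¹' Nᶜ ∈ cocompact E := hend.proper hN.compl_mem_cocompact
  obtain ⟨K, hK, hKA⟩ := mem_cocompact.1 h1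
  have h2 : IsCompact (K ∩ C) := hK.inter_right hC
  have h3 : ContinuousOn j (K ∩ C) := by
    intro z hz
    exact (hR z (hCR z hz.2)).contMDiffAt.continuousAt.continuousWithinAt
  have h4 : IsClosed (j '' (K ∩ C)) := (h2.image_of_continuousOn h3).isClosed
  have h5 : p ∉ j '' (K ∩ C) := fun h => hp (image_mono inter_subset_right h)
  filter_upwards [hpN, h4.isOpen_compl.mem_nhds h5] with q hq hq'
  rintro ⟨z, hz, rfl⟩
  refine hq' ⟨z, ⟨?_, hz⟩, rfl⟩
  by_contra hcon
  exact hKA hcon hq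

end Closed

section Theta

variable {E : Type*} [NormedAddCommGroup E] [NormedSpace ℝ E] [FiniteDimensional ℝ E]
  {M : Type*} [TopologicalSpace M] [T2Space M] [ChartedSpace E M]
  {j : E → M} {f : M ≃ₘ^∞⟮𝓘(ℝ, E), 𝓘(ℝ, E)⟯ M} {u : E} {V : Submodule ℝ E}
  {W : M → Submodule ℝ E} {r : M → M → Prop} {R : ℝ} {l : E →L[ℝ] ℝ}

/-- the data: a diffeomorphism which is a translation near infinity, such that beyond the core
the map `Ψ` moves the points parallel to `V` -/
structure LeafData (j : E → M) (f : M ≃ₘ^∞⟮𝓘(ℝ, E), 𝓘(ℝ, E)⟯ M) (u : E)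
    (V : Submodule ℝ E) (R : ℝ) (l : E →L[ℝ] ℝ) : Prop where
  base : EndData j f u R
  split : Split l u V
  leaf : ∀ z, ‖l‖ * R < l z → ∃ w, w - z ∈ V ∧ j w = PsiM j f R u z

omit [FiniteDimensional ℝ E] in
theorem out_of_leaf (hs : Split l u V) {z : E} (hz : ‖l‖ * R < l z) {y : E} (hy : y - z ∈ V) :
    R < ‖y‖ := by
  have h1 : l y = l z := by
    have := hs.hV _ hy
    rw [map_sub, sub_eq_zero] at this
    exact this
  refine out_of_l (l := l) ?_
  rw [h1]
  exact hz.trans_le (le_abs_self _)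

omit [FiniteDimensional ℝ E] [T2Space M] in
/-- a far point of the leaf -/
theorem exists_far (h : EndData j f u R) (hs : Split l u V) (hV : V ≠ ⊥) (z : E) :
    ∃ w ∈ V, PsiM j f R u (z + w) = j (z + w) := by
  obtain ⟨w0, hw0, hne⟩ := Submodule.exists_mem_ne_zero_of_ne_bot hV
  have hn : 0 < ‖w0‖ := norm_pos_iff.2 hne
  set t : ℝ := (‖pq l u z‖ + ‖pq l u‖ * R + 1) / ‖w0‖ with ht
  have ht0 : 0 ≤ t := by
    have := h.R_nonneg
    positivity
  have hq : pq l u (t • w0) = t • w0 := by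
    rw [pq_apply, map_smul, hs.hV w0 hw0]
    simp
  have h1 : ‖pq l u‖ * R < ‖pq l u (z + t • w0)‖ := by
    rw [map_add, hq]
    have h2 : ‖t • w0‖ = ‖pq l u z‖ + ‖pq l u‖ * R + 1 := by
      rw [norm_smul, Real.norm_eq_abs, abs_of_nonneg ht0, ht, div_mul_cancel₀ _ hn.ne']
    have h3 : ‖t • w0‖ - ‖pq l u z‖ ≤ ‖pq l u z + t • w0‖ := by
      have := norm_sub_norm_le (t • w0) (-(pq l u z))
      rw [norm_neg, sub_neg_eq_add, add_comm (t • w0)] at this
      exact this
    linarith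
  exact ⟨t • w0, V.smul_mem t hw0, psi_eq_j h.u_ne h.tr fun k => cyl hs h.R_nonneg h1 k⟩

/-- if the preimage of the leaf is open then it is the leaf -/
theorem leaf_of_open (h : EndData j f u R) (hs : Split l u V) (hV : V ≠ ⊥) {z : E}
    (hz : ‖l‖ * R < l z)
    (hT2 : IsOpen {w : V | PsiM j f R u (z + w) ∈ j '' {y | y - z ∈ V}}) :
    ∃ w, w - z ∈ V ∧ j w = PsiM j f R u z := by
  have hout : ∀ y, y - z ∈ V → R < ‖y‖ := fun y hy => out_of_leaf hs hz hy
  set C : Set E := {y | y - z ∈ V} with hCdef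
  have hC : IsClosed C :=
    (V.closed_of_finiteDimensional).preimage (continuous_id.sub continuous_const)
  have hjC := isClosed_image' h.hend h.ld hC hout
  set T : Set V := {w | PsiM j f R u (z + w) ∈ j '' C} with hT
  have hcont : Continuous fun w : V => PsiM j f R u (z + w) :=
    h.psi_cont.comp (continuous_const.add continuous_subtype_val)
  have hT1 : IsClosed T := hjC.preimage hcont
  have hT3 : T.Nonempty := by
    obtain ⟨w, hw, hj⟩ := exists_far h hs hV z
    refine ⟨⟨w, hw⟩, z + w, ?_, hj.symm⟩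
    change z + w - z ∈ V
    rw [add_sub_cancel_left]
    exact hw
  have hT4 : T = univ := (isClopen_iff.1 ⟨hT1, hT2⟩).resolve_left hT3.ne_empty
  have h0 : (0 : V) ∈ T := hT4 ▸ mem_univ _
  obtain ⟨w, hw, hj⟩ := h0
  rw [ZeroMemClass.coe_zero, add_zero] at hj
  exact ⟨w, hw, hj⟩

theorem PlaneData.leafData (h : PlaneData j f u V W R) (hs : Split l u V) (hV : V ≠ ⊥) :
    LeafData j f u V R l := by
  refine ⟨h.base, hs, fun z hz => leaf_of_open h.base hs hV hz ?_⟩
  rw [isOpen_iff_mem_nhds]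
  rintro w0 ⟨w1, hw1, hj⟩
  obtain ⟨g, hg1, -, hg2⟩ := h.leaf_local (out_of_leaf hs hz hw1) hj.symm
  obtain ⟨δ, hδ, hball⟩ := Metric.eventually_nhds_iff_ball.1 hg2
  refine mem_of_superset (Metric.ball_mem_nhds w0 hδ) ?_
  intro w hw
  have hw' : ‖(w : E) - w0‖ < δ := by
    have := mem_ball_iff_norm.1 hw
    rwa [← Submodule.coe_sub]
  have hd : ∀ t ∈ Icc (0 : ℝ) 1, z + w0 + t • ((w : E) - w0) ∈ Metric.ball (z + (w0 : E)) δ := by
    intro t ht
    rw [mem_ball_iff_norm, add_sub_cancel_left, norm_smul, Real.norm_eq_abs,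
      abs_of_nonneg ht.1]
    calc t * ‖(w : E) - w0‖ ≤ 1 * ‖(w : E) - w0‖ := by gcongr; exact ht.2
      _ < δ := by rwa [one_mul]
  have h1 := seg (V := V) (g := g) (y := z + w0) (w := (w : E) - w0)
    (V.sub_mem w.2 w0.2) fun t ht => (hball _ (hd t ht)).2.2
  have h2 : z + (w0 : E) + ((w : E) - w0) = z + w := by abel
  rw [h2, hg1] at h1
  have h3 := hd 1 ⟨zero_le_one, le_rfl⟩
  rw [one_smul, h2] at h3
  refine ⟨g (z + w), ?_, (hball _ h3).1⟩
  change g (z + w) - z ∈ V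
  have h4 : g (z + w) - z = (g (z + w) - w1) + (w1 - z) := by abel
  rw [h4]
  exact V.add_mem h1 hw1

theorem RelData.leafData (h : RelData j f u V r R) (hs : Split l u V) (hV : V ≠ ⊥) :
    LeafData j f u V R l := by
  -- a point of the end which is an image under `Ψ` is in the right leaf
  have hkey : ∀ z w : E, R < ‖w‖ → PsiM j f R u z = j w → ‖l‖ * R < l z → w - z ∈ V := by
    intro z w hw hj hz
    obtain ⟨v, hv, hfar⟩ := exists_far h.base hs hV z
    have h1 : R < ‖z + v‖ := out_of_leaf hs hz (by rw [add_sub_cancel_left]; exact hv)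
    have h2 : r (PsiM j f R u z) (PsiM j f R u (z + v)) := by
      rw [h.psi_rel]
      have : z - (z + v) = -v := by abel
      rw [this]
      exact V.neg_mem hv
    rw [hj, hfar, h.par _ _ hw h1] at h2
    have h3 : w - z = (w - (z + v)) + v := by abel
    rw [h3]
    exact V.add_mem h2 hv
  refine ⟨h.base, hs, fun z hz => leaf_of_open h.base hs hV hz ?_⟩
  rw [isOpen_iff_mem_nhds]
  rintro w0 ⟨w1, hw1, hj⟩
  obtain ⟨g, hg1, -, hg2⟩ := h.base.end_local (out_of_leaf hs hz hw1) hj.symm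
  have hcont : Tendsto (fun w : V => z + (w : E)) (𝓝 w0) (𝓝 (z + (w0 : E))) :=
    (continuous_const.add continuous_subtype_val).continuousAt
  filter_upwards [hcont.eventually hg2] with w hw
  refine ⟨g (z + w), ?_, hw.1⟩
  have hlz : l (z + (w : E)) = l z := by rw [map_add, hs.hV _ w.2, add_zero]
  have h1 := hkey (z + w) (g (z + w)) hw.2.1 hw.1.symm (by rw [hlz]; exact hz)
  change g (z + w) - z ∈ V
  have h2 : g (z + w) - z = (g (z + w) - (z + w)) + w := by abel
  rw [h2]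
  exact V.add_mem h1 w.2

open Classical in
/-- the return map -/
noncomputable def theta (j : E → M) (f : M ≃ₘ^∞⟮𝓘(ℝ, E), 𝓘(ℝ, E)⟯ M) (R : ℝ) (u z : E) : E :=
  if h : ∃ w, R < ‖w‖ ∧ j w = PsiM j f R u z then h.choose else z

theorem EndData.theta_eq (h : EndData j f u R) {z w : E} (hw : R < ‖w‖)
    (hj : j w = PsiM j f R u z) : theta j f R u z = w := by
  have hex : ∃ w, R < ‖w‖ ∧ j w = PsiM j f R u z := ⟨w, hw, hj⟩
  unfold theta
  rw [dif_pos hex]
  exact h.inj hex.choose_spec.1 hw (hex.choose_spec.2.trans hj.symm)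

namespace LeafData

theorem theta_spec (h : LeafData j f u V R l) {z : E}
    (hz : ‖l‖ * R < l z) : j (theta j f R u z) = PsiM j f R u z ∧ R < ‖theta j f R u z‖ ∧
      theta j f R u z - z ∈ V ∧ l (theta j f R u z) = l z := by
  obtain ⟨w, hw1, hw2⟩ := h.leaf z hz
  have hlw : l w = l z := by
    have := h.split.hV _ hw1
    rwa [map_sub, sub_eq_zero] at this
  have hw3 : R < ‖w‖ := out_of_leaf h.split hz hw1
  rw [h.base.theta_eq hw3 hw2]
  exact ⟨hw2, hw3, hw1, hlw⟩

theorem theta_ld (h : LeafData j f u V R l) {z : E}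
    (hz : ‖l‖ * R < l z) : IsLocalDiffeomorphAt 𝓘(ℝ, E) 𝓘(ℝ, E) ∞ (theta j f R u) z := by
  obtain ⟨h1, h2, -, -⟩ := h.theta_spec hz
  obtain ⟨g, hg1, hg2, hg3⟩ := h.base.end_local h2 h1.symm
  refine localDiffeo_congr hg2 ?_
  filter_upwards [hg3] with y hy
  exact h.base.theta_eq hy.2.1 hy.1

theorem theta_id (h : LeafData j f u V R l) {z : E}
    (hz : ‖l‖ * R < l z) (hq : ‖pq l u‖ * R < ‖pq l u z‖) : theta j f R u z = z := by
  refine h.base.theta_eq ?_
    (psi_eq_j h.base.u_ne h.base.tr fun k => cyl h.split h.base.R_nonneg hq k).symm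
  exact out_of_l (hz.trans_le (le_abs_self _))

end LeafData

end Theta

end Pool.Agent.H822.RG
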