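import Pool.Agent.H822.RG.Core

/-!
# Rigidity of germs at infinity: topology
-/

open Filter Set Topology

namespace Pool.Agent.H822.RG

section Proper

variable {X M : Type*} [TopologicalSpace X] [TopologicalSpace M] [T2Space X] [T2Space M]

theorem isClosed_double {J : X → M} (hc : Continuous J) (hli : ∀ x, ∃ U ∈ 𝓝 x, InjOn J U) :
    IsClosed {z : X × X | J z.1 = J z.2 ∧ z.1 ≠ z.2} := by
  rw [← isOpen_compl_iff, isOpen_iff_mem_nhds]
  rintro ⟨x, x'⟩ hz
  by_cases hJ : J x = J x'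
  · have hx : x = x' := by
      by_contra hcon
      exact hz ⟨hJ, hcon⟩
    subst hx
    obtain ⟨U, hU, hinj⟩ := hli x
    refine mem_of_superset (prod_mem_nhds hU hU) ?_
    rintro ⟨a, b⟩ ⟨ha, hb⟩ ⟨h1, h2⟩
    exact h2 (hinj ha hb h1)
  · have h1 : IsOpen {z : X × X | J z.1 ≠ J z.2} :=
      isOpen_ne_fun (hc.comp continuous_fst) (hc.comp continuous_snd)
    refine mem_of_superset (h1.mem_nhds hJ) ?_
    rintro ⟨a, b⟩ h2 ⟨h3, _⟩
    exact h2 h3

/-- a proper local homeomorphism to a connected space with a fibre which is one point is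
bijective -/
theorem bijective_of_proper [PreconnectedSpace M] {J : X → M} (ho : IsOpenMap J)
    (hp : IsProperMap J) (hli : ∀ x, ∃ U ∈ 𝓝 x, InjOn J U)
    (hne : ∃ x, ∀ x', J x' = J x → x' = x) : Function.Bijective J := by
  have hc := hp.continuous
  set D : Set (X × X) := {z : X × X | J z.1 = J z.2 ∧ z.1 ≠ z.2} with hD
  have hDc : IsClosed D := isClosed_double hc hli
  set A : Set M := {p | ∃ x x', J x = p ∧ J x' = p ∧ x ≠ x'} with hA
  have h1 : IsClosed A := by
    have h2 : IsClosed ((Prod.map J J) '' D) := (hp.prodMap hp).isClosedMap D hDc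
    have h3 : A = (fun p : M => (p, p)) ⁻¹' ((Prod.map J J) '' D) := by
      ext p
      constructor
      · rintro ⟨x, x', h1, h2, h3⟩
        exact ⟨(x, x'), ⟨h1.trans h2.symm, h3⟩, by simp [Prod.map, h1, h2]⟩
      · rintro ⟨⟨x, x'⟩, ⟨_, h3⟩, h4⟩
        have h5 := congrArg Prod.fst h4
        have h6 := congrArg Prod.snd h4
        exact ⟨x, x', h5, h6, h3⟩
    rw [h3]
    exact h2.preimage (continuous_id.prodMk continuous_id)
  have h2 : IsOpen A := by
    rw [isOpen_iff_mem_nhds]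
    rintro p ⟨x, x', hx, hx', hne⟩
    obtain ⟨U, V, hU, hV, hxU, hxV, hUV⟩ := t2_separation hne
    have hUo := ho U hU
    have hVo := ho V hV
    refine mem_of_superset ((hUo.inter hVo).mem_nhds ⟨⟨x, hxU, hx⟩, ⟨x', hxV, hx'⟩⟩) ?_
    rintro q ⟨⟨a, ha, haq⟩, ⟨b, hb, hbq⟩⟩
    exact ⟨a, b, haq, hbq, fun h => hUV.le_bot ⟨ha, h ▸ hb⟩⟩
  obtain ⟨x0, hx0⟩ := hne
  have h3 : A = ∅ := by
    rcases isClopen_iff.1 ⟨h1, h2⟩ with h | h
    · exact h
    · exfalso
      have : J x0 ∈ A := h ▸ mem_univ _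
      obtain ⟨x, x', hx, hx', hne⟩ := this
      exact hne ((hx0 x hx).trans (hx0 x' hx').symm)
  refine ⟨fun x x' h => ?_, ?_⟩
  · by_contra hcon
    have : J x ∈ A := ⟨x, x', rfl, h.symm, hcon⟩
    rw [h3] at this
    exact this
  · have h4 : IsClopen (range J) := ⟨hp.isClosedMap.isClosed_range, ho.isOpen_range⟩
    rcases isClopen_iff.1 h4 with h | h
    · exact absurd (h ▸ mem_range_self x0 : J x0 ∈ (∅ : Set M)) (notMem_empty _)
    · exact range_eq_univ.1 h

end Proper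

section Germ

variable {Γ : Type*} [Group Γ] {X M : Type*} [TopologicalSpace X] [TopologicalSpace M]
  {S : Set Γ} (ρ : Γ →* Equiv.Perm X) (ρ' : Γ →* Equiv.Perm M) (j : X → M)

/-- the homeomorphism given by an element of the group -/
def homeoOf {Y : Type*} [TopologicalSpace Y] (σ : Γ →* Equiv.Perm Y)
    (h : ∀ γ, Continuous (σ γ)) (γ : Γ) : Y ≃ₜ Y where
  toEquiv := σ γ
  continuous_toFun := h γ
  continuous_invFun := by
    have h1 := h γ⁻¹
    rw [map_inv] at h1
    exact h1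

theorem tendsto_cocompact_of {Y : Type*} [TopologicalSpace Y] (σ : Γ →* Equiv.Perm Y)
    (h : ∀ γ, Continuous (σ γ)) (γ : Γ) : Tendsto (σ γ) (cocompact Y) (cocompact Y) :=
  (homeoOf σ h γ).isClosedEmbedding.tendsto_cocompact

theorem compl_singleton_mem_cocompact (x : X) : ({x} : Set X)ᶜ ∈ cocompact X :=
  isCompact_singleton.compl_mem_cocompact

/-- The main topological statement.  A germ of a homeomorphism between neighbourhoods of infinity
which commutes near infinity with the generators extends uniquely to an equivariant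
homeomorphism. -/
theorem exists_homeomorph [T2Space X] [T2Space M] [LocallyCompactSpace X]
    [LocallyCompactSpace M] [NoncompactSpace X] [PreconnectedSpace M] (hΓ : OneEnded Γ S)
    (hρ : ProperAt ρ (cocompact X)) (hρc : ∀ γ, Continuous (ρ γ)) (hρc' : ∀ γ, Continuous (ρ' γ))
    (hj : ∀ s ∈ S, ∀ᶠ x in cocompact X, j (ρ s x) = ρ' s (j x))
    (hjn : ∀ᶠ x in cocompact X, map j (𝓝 x) = 𝓝 (j x))
    (hji : ∃ A ∈ cocompact X, InjOn j A)
    (hjt : Tendsto j (cocompact X) (cocompact M)) :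
    ∃ J : X ≃ₜ M, (∀ g x, J (ρ g x) = ρ' g (J x)) ∧ (∀ᶠ x in cocompact X, J x = j x) ∧
      ∀ N : Set X, IsCompact N → ∀ B ∈ cocompact X, ∃ γ : Γ, (∀ x ∈ N, ρ γ x ∈ B) ∧
        ∀ x ∈ N, J x = (ρ' γ)⁻¹ (j (ρ γ x)) := by
  have hpt := compl_singleton_mem_cocompact (X := X)
  obtain ⟨x0, -⟩ := (cocompact X).nonempty_of_mem (univ_mem)
  have : Nonempty M := ⟨j x0⟩
  set J := ext ρ ρ' j with hJ
  have hnear : ∀ᶠ x in cocompact X, J x = j x :=
    ext_near ρ ρ' j hΓ hρ (tendsto_cocompact_of ρ hρc) hj hpt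
  have hloc : ∀ N : Set X, IsCompact N → ∀ B ∈ cocompact X, ∃ γ : Γ, (∀ x ∈ N, ρ γ x ∈ B) ∧
      ∀ x ∈ N, J x = (ρ' γ)⁻¹ (j (ρ γ x)) := fun N hN B hB =>
    ext_local ρ ρ' j hΓ hρ hj hpt hN.compl_mem_cocompact hB
  obtain ⟨A, hA, hAi⟩ := hji
  -- near the compact complement, `A` contains a neighbourhood of each of its points
  obtain ⟨K, hK, hKA⟩ := mem_cocompact.1 hA
  -- local structure
  have hstr : ∀ x, map J (𝓝 x) = 𝓝 (J x) ∧ ∃ U ∈ 𝓝 x, InjOn J U := by
    intro x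
    obtain ⟨N, hN, hxN⟩ := exists_compact_mem_nhds x
    obtain ⟨γ, h1, h2⟩ := hloc N hN ({x | map j (𝓝 x) = 𝓝 (j x)} ∩ Kᶜ)
      (inter_mem hjn hK.compl_mem_cocompact)
    have hxN' := mem_of_mem_nhds hxN
    have he : J =ᶠ[𝓝 x] fun y => (homeoOf ρ' hρc' γ).symm (j (homeoOf ρ hρc γ y)) :=
      mem_of_superset hxN fun y hy => h2 y hy
    constructor
    · rw [map_congr he, he.eq_of_nhds]
      have h3 : map (fun y => (homeoOf ρ' hρc' γ).symm (j (homeoOf ρ hρc γ y))) (𝓝 x)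
          = map (homeoOf ρ' hρc' γ).symm (map j (map (homeoOf ρ hρc γ) (𝓝 x))) := by
        rw [map_map, map_map]; rfl
      rw [h3, Homeomorph.map_nhds_eq]
      have h4 : map j (𝓝 (homeoOf ρ hρc γ x)) = 𝓝 (j (homeoOf ρ hρc γ x)) := (h1 x hxN').1
      rw [h4, Homeomorph.map_nhds_eq]
    · refine ⟨N, hxN, fun a ha b hb hab => ?_⟩
      rw [h2 a ha, h2 b hb] at hab
      have h5 := (ρ' γ)⁻¹.injective hab
      exact (ρ γ).injective (hAi (hKA (h1 a ha).2) (hKA (h1 b hb).2) h5)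
  have hcont : Continuous J := continuous_iff_continuousAt.2 fun x => (hstr x).1.le
  have hopen : IsOpenMap J := IsOpenMap.of_nhds_le fun x => (hstr x).1.ge
  have htend : Tendsto J (cocompact X) (cocompact M) :=
    hjt.congr' (hnear.mono fun x hx => hx.symm)
  have hprop : IsProperMap J := isProperMap_iff_tendsto_cocompact.2 ⟨hcont, htend⟩
  -- a fibre with one point
  have hne : ∃ x, ∀ x', J x' = J x → x' = x := by
    obtain ⟨K1, hK1, hK1A⟩ := mem_cocompact.1 (inter_mem hnear hA)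
    have h6 : ∀ᶠ x in cocompact X, J x ∉ J '' K1 :=
      htend ((hK1.image hcont).compl_mem_cocompact)
    obtain ⟨x, hx1, hx2⟩ := (h6.and hK1.compl_mem_cocompact).exists
    refine ⟨x, fun x' h => ?_⟩
    have hx' : x' ∉ K1 := fun hcon => hx1 ⟨x', hcon, h⟩
    have h7 := hK1A hx2
    have h8 := hK1A hx'
    have h9 : j x' = j x := by rw [← h7.1, ← h8.1, h]
    exact hAi h8.2 h7.2 h9
  have hbij := bijective_of_proper hopen hprop (fun x => (hstr x).2) hne
  refine ⟨(Equiv.ofBijective J hbij).toHomeomorphOfContinuousOpen hcont hopen, ?_, hnear, hloc⟩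
  exact ext_equivariant ρ ρ' j hΓ hρ hj hpt

end Germ

end Pool.Agent.H822.RG
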