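import Pool.Agent.H822.RG.Smooth

/-!
# Translations
-/

open Filter Set Topology Manifold
open scoped ContDiff

namespace Pool.Agent.H822.RG

section Trans

variable {E : Type*} [NormedAddCommGroup E] [NormedSpace ℝ E] [FiniteDimensional ℝ E]

/-- `ℤ²` acts by the translations with `a u + b v` -/
def transAct (u v : E) : Zt →* Equiv.Perm E :=
  MonoidHom.mk' (fun γ => Equiv.addRight ((Multiplicative.toAdd γ).1 • u
    + (Multiplicative.toAdd γ).2 • v)) (by
    intro a b
    ext z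
    simp only [toAdd_mul, Prod.fst_add, Prod.snd_add, add_smul, Equiv.coe_addRight,
      Equiv.Perm.coe_mul, Function.comp_apply]
    abel)

theorem transAct_apply (u v : E) (γ : Zt) (z : E) : transAct u v γ z
    = z + ((Multiplicative.toAdd γ).1 • u + (Multiplicative.toAdd γ).2 • v) := rfl

/-- the linear map `(s, t) ↦ s u + t v` -/
def comb (u v : E) : ℝ × ℝ →ₗ[ℝ] E :=
  (LinearMap.toSpanSingleton ℝ E u).coprod (LinearMap.toSpanSingleton ℝ E v)

theorem comb_apply (u v : E) (p : ℝ × ℝ) : comb u v p = p.1 • u + p.2 • v := by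
  simp [comb]

theorem exists_bound {u v : E} (h : LinearIndependent ℝ ![u, v]) :
    ∃ C : ℝ, 0 < C ∧ ∀ s t : ℝ, |s| ≤ C * ‖s • u + t • v‖ ∧ |t| ≤ C * ‖s • u + t • v‖ := by
  have hinj : LinearMap.ker (comb u v) = ⊥ := by
    rw [LinearMap.ker_eq_bot']
    rintro ⟨s, t⟩ hst
    rw [comb_apply] at hst
    obtain ⟨h1, h2⟩ := LinearIndependent.pair_iff.1 h s t hst
    rw [h1, h2]
    rfl
  obtain ⟨K, hK, hanti⟩ := (comb u v).exists_antilipschitzWith hinj
  refine ⟨K, by exact_mod_cast hK, fun s t => ?_⟩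
  have h1 := hanti.le_mul_dist (s, t) (0, 0)
  have h0 : comb u v (0, 0) = 0 := (comb u v).map_zero
  rw [h0, dist_zero_right, comb_apply] at h1
  have h2 : dist ((s, t) : ℝ × ℝ) (0, 0) = max |s| |t| := by
    rw [Prod.dist_eq, Real.dist_0_eq_abs, Real.dist_0_eq_abs]
  rw [h2] at h1
  exact ⟨(le_max_left _ _).trans h1, (le_max_right _ _).trans h1⟩

theorem transAct_proper {u v : E} (h : LinearIndependent ℝ ![u, v]) :
    ProperAt (transAct u v) (cocompact E) := by
  intro A hA
  obtain ⟨K, hK, hKA⟩ := mem_cocompact.1 hA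
  obtain ⟨R, hR⟩ := hK.isBounded.exists_norm_le
  obtain ⟨C, hC, hCb⟩ := exists_bound h
  refine (box_finite ⌈C * (R + R)⌉).subset ?_
  rintro γ ⟨x, hx, hx'⟩
  have h1 : x ∈ K := by
    by_contra hcon
    exact hx (hKA hcon)
  have h2 : transAct u v γ x ∈ K := by
    by_contra hcon
    exact hx' (hKA hcon)
  rw [transAct_apply] at h2
  have h3 : ‖(Multiplicative.toAdd γ).1 • u + (Multiplicative.toAdd γ).2 • v‖ ≤ R + R := by
    have h4 : (Multiplicative.toAdd γ).1 • u + (Multiplicative.toAdd γ).2 • v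
        = (x + ((Multiplicative.toAdd γ).1 • u + (Multiplicative.toAdd γ).2 • v)) - x := by abel
    rw [h4]
    exact (norm_sub_le _ _).trans (add_le_add (hR _ h2) (hR _ h1))
  have h5 := hCb ((Multiplicative.toAdd γ).1 : ℝ) ((Multiplicative.toAdd γ).2 : ℝ)
  rw [Int.cast_smul_eq_zsmul, Int.cast_smul_eq_zsmul] at h5
  have h6 : C * ‖(Multiplicative.toAdd γ).1 • u + (Multiplicative.toAdd γ).2 • v‖
      ≤ C * (R + R) := mul_le_mul_of_nonneg_left h3 hC.le
  have h7 : C * (R + R) ≤ (⌈C * (R + R)⌉ : ℝ) := Int.le_ceil _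
  constructor
  · have := (h5.1.trans h6).trans h7
    exact_mod_cast this
  · have := (h5.2.trans h6).trans h7
    exact_mod_cast this

theorem transAct_smooth (u v : E) (γ : Zt) :
    ContMDiff 𝓘(ℝ, E) 𝓘(ℝ, E) ∞ (transAct u v γ) := by
  have : ContDiff ℝ ∞ fun z : E => z + ((Multiplicative.toAdd γ).1 • u
      + (Multiplicative.toAdd γ).2 • v) := contDiff_id.add contDiff_const
  exact this.contMDiff

end Trans

section Pair

variable {M : Type*}

/-- the action of `ℤ²` given by two commuting bijections -/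
def pairAct (f g : Equiv.Perm M) (h : Commute f g) : Zt →* Equiv.Perm M :=
  MonoidHom.mk' (fun γ => f ^ (Multiplicative.toAdd γ).1 * g ^ (Multiplicative.toAdd γ).2) (by
    intro a b
    simp only [toAdd_mul, Prod.fst_add, Prod.snd_add, zpow_add]
    have h1 : Commute (f ^ (Multiplicative.toAdd b).1) (g ^ (Multiplicative.toAdd a).2) :=
      (h.zpow_left _).zpow_right _
    rw [mul_assoc, mul_assoc, ← mul_assoc (f ^ (Multiplicative.toAdd b).1), h1.eq, mul_assoc])

theorem pairAct_fst (f g : Equiv.Perm M) (h : Commute f g) :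
    pairAct f g h (Multiplicative.ofAdd ((1, 0) : ℤ × ℤ)) = f := by
  simp [pairAct]

theorem pairAct_snd (f g : Equiv.Perm M) (h : Commute f g) :
    pairAct f g h (Multiplicative.ofAdd ((0, 1) : ℤ × ℤ)) = g := by
  simp [pairAct]

variable {F : Type*} [NormedAddCommGroup F] [NormedSpace ℝ F] {H : Type*} [TopologicalSpace H]
  {J : ModelWithCorners ℝ F H} [TopologicalSpace M] [ChartedSpace H M]

theorem smooth_npow (f : M ≃ₘ^∞⟮J, J⟯ M) (n : ℕ) :
    ContMDiff J J ∞ ((f.toEquiv : Equiv.Perm M) ^ n : Equiv.Perm M) := by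
  induction n with
  | zero => exact contMDiff_id
  | succ n ih =>
    rw [pow_succ]
    exact ih.comp f.contMDiff

theorem smooth_zpow (f : M ≃ₘ^∞⟮J, J⟯ M) (n : ℤ) :
    ContMDiff J J ∞ ((f.toEquiv : Equiv.Perm M) ^ n : Equiv.Perm M) := by
  obtain ⟨m, rfl | rfl⟩ := n.eq_nat_or_neg
  · rw [zpow_natCast]
    exact smooth_npow f m
  · rw [zpow_neg, zpow_natCast, ← inv_pow]
    exact smooth_npow f.symm m

theorem pairAct_smooth (f g : M ≃ₘ^∞⟮J, J⟯ M)
    (h : Commute (f.toEquiv : Equiv.Perm M) (g.toEquiv : Equiv.Perm M)) (γ : Zt) :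
    ContMDiff J J ∞ (pairAct (f.toEquiv : Equiv.Perm M) (g.toEquiv : Equiv.Perm M) h γ) :=
  (smooth_zpow f _).comp (smooth_zpow g _)

end Pair

end Pool.Agent.H822.RG
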